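import Mathlib

/-! # Proper conflict-free colouring, all large maximum degrees: common definitions

`V` is the vertex set, `S : ι → Finset V` a family of sets (the neighbourhoods of the vertices of
low degree), `c : V → Fin k` a colouring.
-/

set_option autoImplicit false
set_option linter.unusedSectionVars false

namespace Pool.Agent.Helper14.Pcg

open Finset

section

variable {V ι : Type*} [Fintype V] [DecidableEq V] [Fintype ι] [DecidableEq ι]

/-- The number of sets containing `v`. -/
def hd (S : ι → Finset V) (v : V) : ℕ := (Finset.univ.filter fun i => v ∈ S i).card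

/-- The number of sets containing `u` and `v`. -/
def cod (S : ι → Finset V) (u v : V) : ℕ := (Finset.univ.filter fun i => u ∈ S i ∧ v ∈ S i).card

/-- The set `S i` has a coincidence inside `X`. -/
def Coinc {k : ℕ} (S : ι → Finset V) (X : Finset V) (c : V → Fin k) (i : ι) : Prop :=
  ∃ u ∈ S i ∩ X, ∃ v ∈ S i ∩ X, u ≠ v ∧ c u = c v

instance {k : ℕ} (S : ι → Finset V) (X : Finset V) (c : V → Fin k) :
    DecidablePred (Coinc S X c) := fun i => by unfold Coinc; infer_instance

/-- The set `S i` has at most one coincident pair inside `X`. -/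
def One {k : ℕ} (S : ι → Finset V) (X : Finset V) (c : V → Fin k) (i : ι) : Prop :=
  ∀ u ∈ S i ∩ X, ∀ v ∈ S i ∩ X, ∀ u' ∈ S i ∩ X, ∀ v' ∈ S i ∩ X,
    u ≠ v → u' ≠ v' → c u = c v → c u' = c v' → ({u, v} : Finset V) = {u', v'}

instance {k : ℕ} (S : ι → Finset V) (X : Finset V) (c : V → Fin k) :
    DecidablePred (One S X c) := fun i => by unfold One; infer_instance

/-- Some colour occurs exactly once on `T`. -/
def HasUniq {k : ℕ} (c : V → Fin k) (T : Finset V) : Prop :=
  ∃ κ, (T.filter fun u => c u = κ).card = 1

instance {k : ℕ} (c : V → Fin k) : DecidablePred (HasUniq c) := fun T => by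
  unfold HasUniq; infer_instance

/-- The neighbourhoods, as a filter (no decidability of neighbour sets needed). -/
def nb (G : SimpleGraph V) [DecidableRel G.Adj] (X : Finset V) (v : V) : Finset V :=
  X.filter fun u => G.Adj v u

end

end Pool.Agent.Helper14.Pcg
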