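import Pool.Agent.Helper14.Pcg.ExtFam

/-! # Module E: extension of partial colourings -/

set_option autoImplicit false
set_option linter.unusedSectionVars false

namespace Pool.Agent.Helper14.Pcg

open Finset

namespace ExtC

variable {V ι J : Type*} [Fintype V] [DecidableEq V] [Fintype ι] [DecidableEq ι]

/-- A one-point extension which is not admissible. -/
lemma Dat.Ok_insert (D : Dat V ι J) (Y : Finset V) (x : V) (hx : x ∈ D.E)
    (c : V → Fin D.k) (hc : D.Ex Y x c)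
    (hone : ∀ i, x ∈ D.S i → One D.S (D.X ∪ insert x Y) c i)
    (hwt : ∀ j, (∃ i, x ∈ D.S i ∧ D.W j i ≠ 0) →
      ∑ i ∈ univ.filter (fun i => Coinc D.S (D.X ∪ insert x Y) c i), D.W j i ≤
        D.τ + D.k / D.s ^ 8) : D.Ok (insert x Y) c := by
  obtain ⟨hok, hal⟩ := hc
  have hxX := D.notMem_X hx
  have hup : ∀ u, u ≠ x → Function.update c x (D.c₀ x) u = c u := fun u hu =>
    Function.update_of_ne hu _ _
  have hmem : ∀ u, u ≠ x → u ∈ D.X ∪ insert x Y → u ∈ D.X ∪ Y := by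
    intro u hu h
    rcases mem_union.mp h with h | h
    · exact mem_union_left _ h
    · exact mem_union_right _ (mem_of_mem_insert_of_ne h hu)
  refine ⟨?_, ?_, ?_, ?_, ?_, ?_⟩
  · intro v hv
    have h1 : v ≠ x := fun h => hv (h ▸ mem_insert_self x Y)
    have h2 : v ∉ Y := fun h => hv (mem_insert_of_mem h)
    rw [← hup v h1]
    exact hok.out v h2
  · intro u hu v hv hadj
    by_cases h1 : u = x
    · by_cases h2 : v = x
      · rw [h1, h2] at hadj
        exact absurd hadj (D.G.irrefl)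
      · rw [h1] at hadj ⊢
        exact (hal.nbr v (hmem v h2 hv) hadj).symm
    · by_cases h2 : v = x
      · rw [h2] at hadj ⊢
        exact hal.nbr u (hmem u h1 hu) hadj.symm
      · have := hok.proper u (hmem u h1 hu) v (hmem v h2 hv) hadj
        rwa [hup u h1, hup v h2] at this
  · intro u hu v hv hh
    by_cases h1 : u = x
    · by_cases h2 : v = x
      · exact absurd (h1.trans h2.symm) hh.1
      · rw [h1] at hh ⊢
        exact (hal.hvy v (hmem v h2 hv) hh).symm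
    · have huY : u ∈ Y := mem_of_mem_insert_of_ne hu h1
      by_cases h2 : v = x
      · rw [h2] at hh ⊢
        exact hal.hvy u (mem_union_right _ huY) (D.hv_comm _ _ hh)
      · have := hok.heavy u huY v (hmem v h2 hv) hh
        rwa [hup u h1, hup v h2] at this
  · intro u hu
    by_cases h1 : u = x
    · rw [h1]
      exact hal.pop
    · have := hok.pop u (mem_of_mem_insert_of_ne hu h1)
      rwa [hup u h1] at this
  · intro i
    by_cases hi : x ∈ D.S i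
    · exact hone i hi
    · intro u hu v hv u' hu' v' hv' h1 h2 h3 h4
      have hn : ∀ w ∈ D.S i ∩ (D.X ∪ insert x Y), w ≠ x ∧ w ∈ D.S i ∩ (D.X ∪ Y) := by
        intro w hw
        have h5 : w ≠ x := by
          rintro rfl
          exact hi (mem_inter.mp hw).1
        exact ⟨h5, mem_inter.mpr ⟨(mem_inter.mp hw).1, hmem w h5 (mem_inter.mp hw).2⟩⟩
      apply hok.one i u (hn u hu).2 v (hn v hv).2 u' (hn u' hu').2 v' (hn v' hv').2 h1 h2
      · rw [hup u (hn u hu).1, hup v (hn v hv).1, h3]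
      · rw [hup u' (hn u' hu').1, hup v' (hn v' hv').1, h4]
  · intro j
    by_cases hj : ∃ i, x ∈ D.S i ∧ D.W j i ≠ 0
    · exact hwt j hj
    · push Not at hj
      refine le_trans ?_ (hok.wt j)
      have h1 : ∑ i ∈ univ.filter (fun i => Coinc D.S (D.X ∪ insert x Y) c i), D.W j i =
          ∑ i ∈ univ.filter (fun i => Coinc D.S (D.X ∪ insert x Y) c i ∧ x ∉ D.S i),
            D.W j i := by
        symm
        refine sum_subset ?_ ?_
        · intro i hi
          rw [mem_filter] at hi ⊢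
          exact ⟨hi.1, hi.2.1⟩
        · intro i hi hi'
          rw [mem_filter] at hi hi'
          by_contra h
          apply hi'
          refine ⟨mem_univ _, hi.2, fun h2 => h (hj i h2)⟩
      rw [h1]
      refine sum_le_sum_of_subset_of_nonneg ?_ fun i _ _ => D.hW0 j i
      intro i hi
      rw [mem_filter] at hi ⊢
      refine ⟨mem_univ _, ?_⟩
      obtain ⟨-, ⟨u, hu, v, hv, huv, huv'⟩, hxi⟩ := hi
      have hn : ∀ w ∈ D.S i ∩ (D.X ∪ insert x Y), w ≠ x ∧ w ∈ D.S i ∩ (D.X ∪ Y) := by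
        intro w hw
        have h5 : w ≠ x := by
          rintro rfl
          exact hxi (mem_inter.mp hw).1
        exact ⟨h5, mem_inter.mpr ⟨(mem_inter.mp hw).1, hmem w h5 (mem_inter.mp hw).2⟩⟩
      refine ⟨u, (hn u hu).2, v, (hn v hv).2, huv, ?_⟩
      rw [hup u (hn u hu).1, hup v (hn v hv).1, huv']

/-- A violation of `One` gives a pattern. -/
lemma Dat.pattern (D : Dat V ι J) (Y : Finset V) (hY : Y ⊆ D.E) (x : V) (hx : x ∈ D.E)
    (hxY : x ∉ Y) (c : V → Fin D.k) (hc : D.Ex Y x c) (i : ι) (hxi : x ∈ D.S i)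
    (hn : ¬ One D.S (D.X ∪ insert x Y) c i) :
    ∃ x' ∈ D.S i, ∃ a ∈ D.S i, ∃ b ∈ D.S i, x' ≠ x ∧ a ∈ Y ∧ a ≠ x ∧ b ≠ x ∧ b ≠ a ∧
      c x = c x' ∧ c a = c b := by
  obtain ⟨hok, hal⟩ := hc
  have hxX := D.notMem_X hx
  have hup : ∀ u, u ≠ x → Function.update c x (D.c₀ x) u = c u := fun u hu =>
    Function.update_of_ne hu _ _
  have hmem : ∀ u, u ≠ x → u ∈ D.S i ∩ (D.X ∪ insert x Y) → u ∈ D.S i ∩ (D.X ∪ Y) := by
    intro u hu h
    rw [mem_inter, mem_union] at h ⊢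
    rcases h.2 with h2 | h2
    · exact ⟨h.1, Or.inl h2⟩
    · exact ⟨h.1, Or.inr (mem_of_mem_insert_of_ne h2 hu)⟩
  have hnx : ∀ u ∈ D.S i ∩ (D.X ∪ Y), u ≠ x := by
    rintro u hu rfl
    rcases mem_union.mp (mem_inter.mp hu).2 with h | h
    · exact hxX h
    · exact hxY h
  have hone' : ∀ u ∈ D.S i ∩ (D.X ∪ Y), ∀ v ∈ D.S i ∩ (D.X ∪ Y), ∀ u' ∈ D.S i ∩ (D.X ∪ Y),
      ∀ v' ∈ D.S i ∩ (D.X ∪ Y), u ≠ v → u' ≠ v' → c u = c v → c u' = c v' →
      ({u, v} : Finset V) = {u', v'} := by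
    intro u hu v hv u' hu' v' hv' h1 h2 h3 h4
    apply hok.one i u hu v hv u' hu' v' hv' h1 h2
    · rw [hup u (hnx u hu), hup v (hnx v hv), h3]
    · rw [hup u' (hnx u' hu'), hup v' (hnx v' hv'), h4]
  -- a partner of x
  have hA : ∃ x' ∈ D.S i ∩ (D.X ∪ Y), c x' = c x := by
    by_contra h
    push Not at h
    apply hn
    intro u hu v hv u' hu' v' hv' h1 h2 h3 h4
    have hkey : ∀ p ∈ D.S i ∩ (D.X ∪ insert x Y), ∀ q ∈ D.S i ∩ (D.X ∪ insert x Y), p ≠ q →
        c p = c q → p ≠ x ∧ q ≠ x := by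
      intro p hp q hq hpq hcpq
      constructor
      · intro hpx
        have hqx : q ≠ x := fun h5 => hpq (hpx.trans h5.symm)
        exact h q (hmem q hqx hq) (by rw [← hcpq, hpx])
      · intro hqx
        have hpx : p ≠ x := fun h5 => hpq (h5.trans hqx.symm)
        exact h p (hmem p hpx hp) (by rw [hcpq, hqx])
    obtain ⟨h5, h6⟩ := hkey u hu v hv h1 h3
    obtain ⟨h7, h8⟩ := hkey u' hu' v' hv' h2 h4
    exact hone' u (hmem u h5 hu) v (hmem v h6 hv) u' (hmem u' h7 hu') v' (hmem v' h8 hv')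
      h1 h2 h3 h4
  obtain ⟨x', hx', hcx'⟩ := hA
  -- a coincident pair avoiding x
  have hB : ∃ a ∈ D.S i ∩ (D.X ∪ Y), ∃ b ∈ D.S i ∩ (D.X ∪ Y), a ≠ b ∧ c a = c b := by
    by_contra h
    push Not at h
    apply hn
    have hkey : ∀ p ∈ D.S i ∩ (D.X ∪ insert x Y), ∀ q ∈ D.S i ∩ (D.X ∪ insert x Y), p ≠ q →
        c p = c q → ({p, q} : Finset V) = {x, x'} := by
      intro p hp q hq hpq hcpq
      by_cases hpx : p = x
      · have hqx : q ≠ x := fun h5 => hpq (hpx.trans h5.symm)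
        have hq' := hmem q hqx hq
        have : q = x' := by
          by_contra h6
          exact h q hq' x' hx' h6 (by rw [← hcpq, hpx, hcx'])
        rw [hpx, this]
      · by_cases hqx : q = x
        · have hp' := hmem p hpx hp
          have : p = x' := by
            by_contra h6
            exact h p hp' x' hx' h6 (by rw [hcpq, hqx, hcx'])
          rw [hqx, this, pair_comm]
        · exact absurd hcpq (h p (hmem p hpx hp) q (hmem q hqx hq) hpq)
    intro u hu v hv u' hu' v' hv' h1 h2 h3 h4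
    rw [hkey u hu v hv h1 h3, hkey u' hu' v' hv' h2 h4]
  obtain ⟨a, ha, b, hb, hab, hcab⟩ := hB
  have hnc : ¬ Coinc D.S D.X D.c₀ i := fun h => hal.mkd i hxi h x' hx' hcx'
  have hnot : ¬ (a ∈ D.X ∧ b ∈ D.X) := by
    rintro ⟨haX, hbX⟩
    apply hnc
    refine ⟨a, mem_inter.mpr ⟨(mem_inter.mp ha).1, haX⟩, b,
      mem_inter.mpr ⟨(mem_inter.mp hb).1, hbX⟩, hab, ?_⟩
    have e1 : ∀ w ∈ D.X, w ≠ x → c w = D.c₀ w := by
      intro w hw hwx
      rw [← hup w hwx]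
      exact hok.out w fun h => D.notMem_X (hY h) hw
    rw [← e1 a haX (hnx a ha), ← e1 b hbX (hnx b hb), hcab]
  by_cases haY : a ∈ Y
  · exact ⟨x', (mem_inter.mp hx').1, a, (mem_inter.mp ha).1, b, (mem_inter.mp hb).1, hnx x' hx',
      haY, hnx a ha, hnx b hb, hab.symm, hcx'.symm, hcab⟩
  · have haX : a ∈ D.X := (mem_union.mp (mem_inter.mp ha).2).resolve_right haY
    have hbY : b ∈ Y := (mem_union.mp (mem_inter.mp hb).2).resolve_left fun h => hnot ⟨haX, h⟩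
    exact ⟨x', (mem_inter.mp hx').1, b, (mem_inter.mp hb).1, a, (mem_inter.mp ha).1, hnx x' hx',
      hbY, hnx b hb, hnx a ha, hab, hcx'.symm, hcab.symm⟩

/-- Number of extensions with a given pattern. -/
lemma Dat.pattern_card (D : Dat V ι J) (Y : Finset V) (hY : Y ⊆ D.E) (x x' a b : V)
    (hx' : x' ≠ x) (ha : a ∈ Y) (hbx : b ≠ x) (hba : b ≠ a) :
    ((D.ext Y x).filter fun c => c x = c x' ∧ c a = c b).card ≤ (D.CC (Y.erase a)).card := by
  refine card_le_card_of_injOn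
    (fun c => Function.update (Function.update c x (D.c₀ x)) a (D.c₀ a)) ?_ ?_
  · intro c hc
    have h1 := (D.mem_ext Y x c).mp (mem_filter.mp (mem_coe.mp hc)).1
    exact mem_coe.mpr ((D.mem_CC _ _).mpr (D.Ok_erase Y hY _ h1.1 a ha))
  · intro c hc c' hc' h
    obtain ⟨h1, h2⟩ := (mem_filter.mp (mem_coe.mp hc)).2
    obtain ⟨h1', h2'⟩ := (mem_filter.mp (mem_coe.mp hc')).2
    have e1 : ∀ w, w ≠ x → w ≠ a → c w = c' w := by
      intro w hwx hwa
      have := congrFun h w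
      simpa [Function.update_of_ne hwa, Function.update_of_ne hwx] using this
    have e2 : c a = c' a := by
      rw [h2, h2', e1 b hbx hba]
    have e3 : c x = c' x := by
      rw [h1, h1']
      by_cases h5 : x' = a
      · rw [h5, e2]
      · exact e1 x' hx' h5
    funext w
    by_cases hwx : w = x
    · rw [hwx, e3]
    · by_cases hwa : w = a
      · rw [hwa, e2]
      · exact e1 w hwx hwa

/-- Total number of extensions violating `One`. -/
lemma Dat.bad0 (D : Dat V ι J) (Y : Finset V) (hY : Y ⊆ D.E) (x : V) (hx : x ∈ D.E)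
    (hxY : x ∉ Y) (Q : ℝ) (hQ : 0 ≤ Q) (hQ2 : ∀ a ∈ Y, ((D.CC (Y.erase a)).card : ℝ) ≤ Q) :
    ∃ B : Finset (V → Fin D.k), (∀ c ∈ D.ext Y x, (∃ i, x ∈ D.S i ∧
      ¬ One D.S (D.X ∪ insert x Y) c i) → c ∈ B) ∧ (B.card : ℝ) ≤ D.k * D.s ^ 3 * Q := by
  classical
  set P : V × V × V → Prop := fun t => t.1 ≠ x ∧ t.2.1 ∈ Y ∧ t.2.1 ≠ x ∧ t.2.2 ≠ x ∧
    t.2.2 ≠ t.2.1 with hP
  refine ⟨(univ.filter fun i => x ∈ D.S i).biUnion fun i =>
    ((D.S i ×ˢ (D.S i ×ˢ D.S i)).filter P).biUnion fun t =>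
      (D.ext Y x).filter fun c => c x = c t.1 ∧ c t.2.1 = c t.2.2, ?_, ?_⟩
  · rintro c hc ⟨i, hi, hn⟩
    obtain ⟨x', hx', a, ha, b, hb, h1, h2, h3, h4, h5, h6, h7⟩ :=
      D.pattern Y hY x hx hxY c ((D.mem_ext Y x c).mp hc) i hi hn
    refine mem_biUnion.mpr ⟨i, mem_filter.mpr ⟨mem_univ _, hi⟩, mem_biUnion.mpr
      ⟨(x', a, b), mem_filter.mpr ⟨?_, h1, h2, h3, h4, h5⟩, mem_filter.mpr ⟨hc, h6, h7⟩⟩⟩
    exact mem_product.mpr ⟨hx', mem_product.mpr ⟨ha, hb⟩⟩
  · have h1 : ∀ i ∈ univ.filter (fun i => x ∈ D.S i),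
        ((((D.S i ×ˢ (D.S i ×ˢ D.S i)).filter P).biUnion fun t =>
          (D.ext Y x).filter fun c => c x = c t.1 ∧ c t.2.1 = c t.2.2).card : ℝ) ≤
        D.s ^ 3 * Q := by
      intro i _
      have h2 : ((((D.S i ×ˢ (D.S i ×ˢ D.S i)).filter P).biUnion fun t =>
          (D.ext Y x).filter fun c => c x = c t.1 ∧ c t.2.1 = c t.2.2).card : ℝ) ≤
          ∑ t ∈ (D.S i ×ˢ (D.S i ×ˢ D.S i)).filter P, Q := by
        refine le_trans (Nat.cast_le.mpr card_biUnion_le) ?_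
        rw [Nat.cast_sum]
        refine sum_le_sum fun t ht => ?_
        obtain ⟨-, h3, h4, -, h6, h7⟩ := mem_filter.mp ht
        exact le_trans (Nat.cast_le.mpr (D.pattern_card Y hY x t.1 t.2.1 t.2.2 h3 h4 h6 h7))
          (hQ2 _ h4)
      refine h2.trans ?_
      rw [sum_const, nsmul_eq_mul]
      apply mul_le_mul_of_nonneg_right _ hQ
      have h3 : ((D.S i ×ˢ (D.S i ×ˢ D.S i)).filter P).card ≤ D.s ^ 3 := by
        refine (card_filter_le _ _).trans ?_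
        rw [card_product, card_product]
        have h4 := D.hS i
        calc (D.S i).card * ((D.S i).card * (D.S i).card) ≤ D.s * (D.s * D.s) :=
              Nat.mul_le_mul h4 (Nat.mul_le_mul h4 h4)
          _ = D.s ^ 3 := by ring
      exact_mod_cast h3
    calc _ ≤ ∑ i ∈ univ.filter (fun i => x ∈ D.S i), ((((D.S i ×ˢ (D.S i ×ˢ D.S i)).filter
          P).biUnion fun t => (D.ext Y x).filter fun c => c x = c t.1 ∧
            c t.2.1 = c t.2.2).card : ℝ) := by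
          refine le_trans (Nat.cast_le.mpr card_biUnion_le) ?_
          rw [Nat.cast_sum]
      _ ≤ ∑ i ∈ univ.filter (fun i => x ∈ D.S i), D.s ^ 3 * Q := sum_le_sum h1
      _ = (hd D.S x : ℝ) * (D.s ^ 3 * Q) := by
          rw [sum_const, nsmul_eq_mul]
          rfl
      _ ≤ (D.k : ℝ) * (D.s ^ 3 * Q) := by
          apply mul_le_mul_of_nonneg_right _ (by positivity)
          exact_mod_cast D.hh x
      _ = _ := by ring

/-! ### Weights -/

open scoped Classical in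
/-- The weight of a pair. -/
noncomputable def Dat.w (D : Dat V ι J) (j : J) (v u : V) : ℝ :=
  if v ≠ u ∧ ¬ D.hv v u then ∑ i ∈ univ.filter (fun i => v ∈ D.S i ∧ u ∈ D.S i), D.W j i else 0

lemma Dat.w_nonneg (D : Dat V ι J) (j : J) (v u : V) : 0 ≤ D.w j v u := by
  unfold Dat.w
  split_ifs
  · exact sum_nonneg fun i _ => D.hW0 j i
  · exact le_refl 0

lemma Dat.w_self (D : Dat V ι J) (j : J) (v : V) : D.w j v v = 0 := by
  unfold Dat.w
  simp

lemma Dat.w_le_cod (D : Dat V ι J) (j : J) (v u : V) : D.w j v u ≤ D.s * cod D.S v u := by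
  unfold Dat.w
  split_ifs
  · calc ∑ i ∈ univ.filter (fun i => v ∈ D.S i ∧ u ∈ D.S i), D.W j i ≤
        ∑ i ∈ univ.filter (fun i => v ∈ D.S i ∧ u ∈ D.S i), (D.s : ℝ) :=
          sum_le_sum fun i _ => D.hWs j i
      _ = D.s * cod D.S v u := by
          rw [sum_const, nsmul_eq_mul, mul_comm]
          rfl
  · positivity

lemma Dat.sR_pos (D : Dat V ι J) : (0 : ℝ) < D.s := by exact_mod_cast D.s_pos

lemma Dat.kR_pos (D : Dat V ι J) : (0 : ℝ) < D.k := by exact_mod_cast D.k_pos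

lemma Dat.w_le (D : Dat V ι J) (j : J) (v u : V) : D.w j v u ≤ D.k / D.s ^ 11 := by
  have hs := D.sR_pos
  have hk := D.kR_pos
  by_cases h : v ≠ u ∧ ¬ D.hv v u
  · refine (D.w_le_cod j v u).trans ?_
    have h1 : ¬ D.k ≤ D.s ^ 12 * cod D.S v u := fun h2 => h.2 ⟨h.1, h2⟩
    have h2 : (D.s : ℝ) ^ 12 * cod D.S v u ≤ D.k := by
      have := (not_le.mp h1).le
      exact_mod_cast this
    rw [le_div_iff₀ (by positivity)]
    calc (D.s : ℝ) * cod D.S v u * D.s ^ 11 = D.s ^ 12 * cod D.S v u := by ring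
      _ ≤ _ := h2
  · unfold Dat.w
    rw [if_neg h]
    positivity

lemma Dat.w_sum (D : Dat V ι J) (j : J) : ∑ v, ∑ u, D.w j v u ≤ D.s ^ 2 * D.k := by
  have h1 : ∀ v u, D.w j v u ≤ ∑ i, if v ∈ D.S i ∧ u ∈ D.S i then D.W j i else 0 := by
    intro v u
    rw [← sum_filter]
    unfold Dat.w
    split_ifs
    · exact le_refl _
    · exact sum_nonneg fun i _ => D.hW0 j i
  calc ∑ v, ∑ u, D.w j v u ≤ ∑ v, ∑ u, ∑ i, (if v ∈ D.S i ∧ u ∈ D.S i then D.W j i else 0) :=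
        sum_le_sum fun v _ => sum_le_sum fun u _ => h1 v u
    _ = ∑ v, ∑ i, ∑ u, (if v ∈ D.S i ∧ u ∈ D.S i then D.W j i else 0) :=
        sum_congr rfl fun v _ => sum_comm
    _ = ∑ i, ∑ v, ∑ u, (if v ∈ D.S i ∧ u ∈ D.S i then D.W j i else 0) := sum_comm
    _ ≤ ∑ i, D.s ^ 2 * D.W j i := by
        refine sum_le_sum fun i _ => ?_
        have h2 : ∑ v, ∑ u, (if v ∈ D.S i ∧ u ∈ D.S i then D.W j i else 0) =
            ∑ v ∈ D.S i, ∑ u ∈ D.S i, D.W j i := by
          rw [← sum_subset (subset_univ (D.S i))]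
          · refine sum_congr rfl fun v hv => ?_
            rw [← sum_subset (subset_univ (D.S i))]
            · refine sum_congr rfl fun u hu => ?_
              rw [if_pos ⟨hv, hu⟩]
            · intro u _ hu
              rw [if_neg fun h => hu h.2]
          · intro v _ hv
            refine sum_eq_zero fun u _ => ?_
            rw [if_neg fun h => hv h.1]
        rw [h2, sum_const, sum_const, smul_smul, nsmul_eq_mul]
        apply mul_le_mul_of_nonneg_right _ (D.hW0 j i)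
        have h3 : (D.S i).card * (D.S i).card ≤ D.s ^ 2 := by
          rw [sq]
          exact Nat.mul_le_mul (D.hS i) (D.hS i)
        exact_mod_cast h3
    _ = D.s ^ 2 * ∑ i, D.W j i := by rw [mul_sum]
    _ ≤ D.s ^ 2 * D.k := mul_le_mul_of_nonneg_left (D.hWk j) (by positivity)

lemma Dat.w_pop (D : Dat V ι J) (j : J) (v : V) (z : Fin D.k) (hz : z ∉ D.Pop v) :
    ∑ u ∈ D.X.filter (fun u => D.c₀ u = z), D.w j v u ≤ D.k / D.s ^ 11 := by
  have hs := D.sR_pos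
  have h1 : ¬ D.k ≤ D.s ^ 12 * ∑ u ∈ D.X.filter (fun u => D.c₀ u = z), cod D.S v u := by
    intro h
    exact hz (mem_filter.mpr ⟨mem_univ _, h⟩)
  have h2 : (D.s : ℝ) ^ 12 * ∑ u ∈ D.X.filter (fun u => D.c₀ u = z), (cod D.S v u : ℝ) ≤
      D.k := by
    have := (not_le.mp h1).le
    exact_mod_cast this
  calc ∑ u ∈ D.X.filter (fun u => D.c₀ u = z), D.w j v u ≤
      ∑ u ∈ D.X.filter (fun u => D.c₀ u = z), (D.s : ℝ) * cod D.S v u :=
        sum_le_sum fun u _ => D.w_le_cod j v u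
    _ = D.s * ∑ u ∈ D.X.filter (fun u => D.c₀ u = z), (cod D.S v u : ℝ) := by rw [mul_sum]
    _ ≤ D.k / D.s ^ 11 := by
        rw [le_div_iff₀ (by positivity)]
        calc _ = (D.s : ℝ) ^ 12 * ∑ u ∈ D.X.filter (fun u => D.c₀ u = z),
              (cod D.S v u : ℝ) := by ring
          _ ≤ _ := h2

lemma Dat.Ex_heavy (D : Dat V ι J) (Y : Finset V) (x : V) (c : V → Fin D.k) (hc : D.Ex Y x c)
    (u : V) (hu : u ∈ insert x Y) (v : V) (hv : v ∈ D.X ∪ insert x Y) (hh : D.hv u v) :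
    c u ≠ c v := by
  obtain ⟨hok, hal⟩ := hc
  have hup : ∀ u, u ≠ x → Function.update c x (D.c₀ x) u = c u := fun u hu =>
    Function.update_of_ne hu _ _
  have hmem : ∀ u, u ≠ x → u ∈ D.X ∪ insert x Y → u ∈ D.X ∪ Y := by
    intro u hu h
    rcases mem_union.mp h with h | h
    · exact mem_union_left _ h
    · exact mem_union_right _ (mem_of_mem_insert_of_ne h hu)
  by_cases h1 : u = x
  · by_cases h2 : v = x
    · exact absurd (h1.trans h2.symm) hh.1
    · rw [h1] at hh ⊢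
      exact (hal.hvy v (hmem v h2 hv) hh).symm
  · have huY : u ∈ Y := mem_of_mem_insert_of_ne hu h1
    by_cases h2 : v = x
    · rw [h2] at hh ⊢
      exact hal.hvy u (mem_union_right _ huY) (D.hv_comm _ _ hh)
    · have := hok.heavy u huY v (hmem v h2 hv) hh
      rwa [hup u h1, hup v h2] at this

lemma Dat.Ex_X (D : Dat V ι J) (Y : Finset V) (hY : Y ⊆ D.E) (x : V) (hx : x ∈ D.E)
    (c : V → Fin D.k) (hc : D.Ex Y x c) (u : V) (hu : u ∈ D.X) : c u = D.c₀ u := by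
  have h1 : u ≠ x := by
    rintro rfl
    exact D.notMem_X hx hu
  have h2 := hc.1.out u fun h => D.notMem_X (hY h) hu
  rwa [Function.update_of_ne h1] at h2

/-- The total weight of the sets with coincidences is bounded by the weight of pairs. -/
lemma Dat.wt_le (D : Dat V ι J) (Y : Finset V) (hY : Y ⊆ D.E) (x : V) (hx : x ∈ D.E)
    (c : V → Fin D.k) (hc : D.Ex Y x c) (j : J) :
    ∑ i ∈ univ.filter (fun i => Coinc D.S (D.X ∪ insert x Y) c i), D.W j i ≤
      D.τ + ExtMom.Rw D.X (D.w j) (insert x Y) c := by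
  classical
  set I' := univ.filter fun i => Coinc D.S (D.X ∪ insert x Y) c i ∧ ¬ Coinc D.S D.X D.c₀ i
    with hI'
  have h1 : ∑ i ∈ univ.filter (fun i => Coinc D.S (D.X ∪ insert x Y) c i), D.W j i ≤
      ∑ i ∈ univ.filter (fun i => Coinc D.S D.X D.c₀ i), D.W j i + ∑ i ∈ I', D.W j i := by
    rw [← sum_union]
    · refine sum_le_sum_of_subset_of_nonneg ?_ fun i _ _ => D.hW0 j i
      intro i hi
      rw [mem_union]
      by_cases h : Coinc D.S D.X D.c₀ i
      · left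
        exact mem_filter.mpr ⟨mem_univ _, h⟩
      · right
        exact mem_filter.mpr ⟨mem_univ _, (mem_filter.mp hi).2, h⟩
    · rw [Finset.disjoint_left]
      intro i hi hi'
      exact (mem_filter.mp hi').2.2 (mem_filter.mp hi).2
  have hpair : ∀ i ∈ I', ∃ p : V × V, p.1 ∈ insert x Y ∧ p.2 ∈ D.X ∪ insert x Y ∧ p.1 ≠ p.2 ∧
      c p.1 = c p.2 ∧ p.1 ∈ D.S i ∧ p.2 ∈ D.S i := by
    intro i hi
    obtain ⟨-, ⟨u, hu, v, hv, huv, huv'⟩, hnc⟩ := mem_filter.mp hi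
    rw [mem_inter] at hu hv
    by_cases h5 : u ∈ insert x Y
    · exact ⟨(u, v), h5, hv.2, huv, huv', hu.1, hv.1⟩
    · by_cases h6 : v ∈ insert x Y
      · exact ⟨(v, u), h6, hu.2, huv.symm, huv'.symm, hv.1, hu.1⟩
      · exfalso
        apply hnc
        have huX : u ∈ D.X := (mem_union.mp hu.2).resolve_right h5
        have hvX : v ∈ D.X := (mem_union.mp hv.2).resolve_right h6
        refine ⟨u, mem_inter.mpr ⟨hu.1, huX⟩, v, mem_inter.mpr ⟨hv.1, hvX⟩, huv, ?_⟩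
        rw [← D.Ex_X Y hY x hx c hc u huX, ← D.Ex_X Y hY x hx c hc v hvX, huv']
  have h2 : ∑ i ∈ I', D.W j i ≤ ExtMom.Rw D.X (D.w j) (insert x Y) c := by
    have hex : ∃ φ : ι → V × V, ∀ i ∈ I', (φ i).1 ∈ insert x Y ∧
        (φ i).2 ∈ D.X ∪ insert x Y ∧ (φ i).1 ≠ (φ i).2 ∧ c (φ i).1 = c (φ i).2 ∧
        (φ i).1 ∈ D.S i ∧ (φ i).2 ∈ D.S i := by
      refine ⟨fun i => if h : i ∈ I' then (hpair i h).choose else (x, x), fun i hi => ?_⟩
      simp only [dif_pos hi]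
      exact (hpair i hi).choose_spec
    obtain ⟨φ, hφ⟩ := hex
    have e1 : ExtMom.Rw D.X (D.w j) (insert x Y) c =
        ∑ p : V × V, ExtMom.pw D.X (D.w j) (insert x Y) c p.1 p.2 := by
      rw [Fintype.sum_prod_type]
      rfl
    rw [e1, ← sum_fiberwise (s := I') (g := φ) (f := fun i => D.W j i)]
    refine sum_le_sum fun p _ => ?_
    have hpw0 : 0 ≤ ExtMom.pw D.X (D.w j) (insert x Y) c p.1 p.2 := by
      unfold ExtMom.pw
      split_ifs
      · exact D.w_nonneg j _ _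
      · exact le_refl 0
    by_cases hp : ∃ i ∈ I', φ i = p
    · obtain ⟨i₀, hi₀, hip⟩ := hp
      obtain ⟨a1, a2, a3, a4, a5, a6⟩ := hφ i₀ hi₀
      rw [hip] at a1 a2 a3 a4 a5 a6
      have hnh : ¬ D.hv p.1 p.2 := fun hh => D.Ex_heavy Y x c hc _ a1 _ a2 hh a4
      unfold ExtMom.pw
      rw [if_pos ⟨a1, a2, a4⟩]
      unfold Dat.w
      rw [if_pos ⟨a3, hnh⟩]
      refine sum_le_sum_of_subset_of_nonneg ?_ fun i _ _ => D.hW0 j i
      intro i hi
      obtain ⟨hi1, hi2⟩ := mem_filter.mp hi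
      obtain ⟨-, -, -, -, b5, b6⟩ := hφ i hi1
      rw [hi2] at b5 b6
      exact mem_filter.mpr ⟨mem_univ _, b5, b6⟩
    · have : I'.filter (fun i => φ i = p) = ∅ := by
        rw [filter_eq_empty_iff]
        intro i hi h
        exact hp ⟨i, hi, h⟩
      rw [this, sum_empty]
      exact hpw0
  have h3 := D.hτ j
  linarith

/-- The lower growth rate. -/
noncomputable def Dat.β (D : Dat V ι J) : ℝ := D.k / (32 * D.s ^ 6)

lemma Dat.β_pos (D : Dat V ι J) : 0 < D.β := by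
  have hs := D.sR_pos
  have hk := D.kR_pos
  unfold Dat.β
  positivity

lemma Dat.k_ge (D : Dat V ι J) : (D.s : ℝ) ^ 30 ≤ D.k := by exact_mod_cast D.hk

lemma Dat.s_ge (D : Dat V ι J) : (10 : ℝ) ^ 4 ≤ D.s := by exact_mod_cast D.hs

lemma Dat.M_le (D : Dat V ι J) : 2 * ((D.s : ℝ) ^ 2 * D.k) / D.β +
    4 * (D.s : ℝ) ^ 2 * (D.k / D.s ^ 11) + 2 * D.s * (D.k / D.s ^ 11) ≤
    (1 / 3) * (D.k / D.s ^ 8) := by
  have hs := D.sR_pos
  have hk := D.kR_pos
  have hs4 := D.s_ge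
  have hk30 := D.k_ge
  have e1 : 2 * ((D.s : ℝ) ^ 2 * D.k) / D.β = 64 * D.s ^ 8 := by
    unfold Dat.β
    field_simp
    ring
  have e2 : 4 * (D.s : ℝ) ^ 2 * (D.k / D.s ^ 11) = (4 / D.s) * (D.k / D.s ^ 8) := by
    field_simp
  have e3 : 2 * (D.s : ℝ) * (D.k / D.s ^ 11) = (2 / D.s ^ 2) * (D.k / D.s ^ 8) := by
    field_simp
  have e4 : 64 * (D.s : ℝ) ^ 8 ≤ (1 / 9) * (D.k / D.s ^ 8) := by
    rw [mul_div_assoc', le_div_iff₀ (by positivity)]
    have h1 : (10 : ℝ) ^ 4 ≤ D.s ^ 14 := by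
      calc (10 : ℝ) ^ 4 ≤ D.s := hs4
        _ = D.s ^ 1 := (pow_one _).symm
        _ ≤ D.s ^ 14 := pow_le_pow_right₀ (by linarith) (by norm_num)
    have h2 : (10 : ℝ) ^ 4 * D.s ^ 16 ≤ D.s ^ 14 * D.s ^ 16 :=
      mul_le_mul_of_nonneg_right h1 (by positivity)
    have h3 : (D.s : ℝ) ^ 14 * D.s ^ 16 = D.s ^ 30 := by ring
    have h4 : 64 * (D.s : ℝ) ^ 8 * D.s ^ 8 = 64 * D.s ^ 16 := by ring
    have h5 : (0 : ℝ) < D.s ^ 16 := by positivity
    nlinarith
  have hks : 0 < (D.k : ℝ) / D.s ^ 8 := by positivity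
  have e5 : (4 : ℝ) / D.s ≤ 1 / 9 := by
    rw [div_le_div_iff₀ hs (by norm_num)]
    linarith
  have e6 : (2 : ℝ) / D.s ^ 2 ≤ 1 / 9 := by
    rw [div_le_div_iff₀ (by positivity) (by norm_num)]
    nlinarith
  rw [e1, e2, e3]
  nlinarith [mul_le_mul_of_nonneg_right e5 hks.le, mul_le_mul_of_nonneg_right e6 hks.le]

/-- The hereditary families for the moment lemma. -/
noncomputable def Dat.F (D : Dat V ι J) (x : V) (Y : Finset V) : Finset (V → Fin D.k) :=
  if x ∈ Y then D.ext (Y.erase x) x else D.CC Y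

noncomputable def Dat.g (D : Dat V ι J) (x : V) (Y : Finset V) : ℝ :=
  if x ∈ Y then D.k * (D.CC (Y.erase x)).card else (D.CC Y).card

lemma Dat.F_her (D : Dat V ι J) (x : V) (hx : x ∈ D.E) (Y : Finset V) (hY : Y ⊆ D.E)
    (c : V → Fin D.k) (hc : c ∈ D.F x Y) (v : V) (hv : v ∈ Y) :
    Function.update c v (D.c₀ v) ∈ D.F x (Y.erase v) := by
  unfold Dat.F at hc ⊢
  by_cases hxY : x ∈ Y
  · rw [if_pos hxY, D.mem_ext] at hc
    have hYx : Y.erase x ⊆ D.E := (erase_subset _ _).trans hY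
    by_cases hvx : v = x
    · subst hvx
      rw [if_neg (notMem_erase v Y), D.mem_CC]
      exact hc.1
    · have hvYx : v ∈ Y.erase x := mem_erase.mpr ⟨hvx, hv⟩
      have hxYv : x ∈ Y.erase v := mem_erase.mpr ⟨fun h => hvx h.symm, hxY⟩
      rw [if_pos hxYv, D.mem_ext]
      have e1 : (Y.erase v).erase x = (Y.erase x).erase v := erase_right_comm
      rw [e1]
      constructor
      · rw [Function.update_comm hvx]
        exact D.Ok_erase _ hYx _ hc.1 v hvYx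
      · rw [Function.update_of_ne (fun h => hvx h.symm)]
        exact D.Al_erase _ hYx _ _ _ hvYx _ hc.2
  · rw [if_neg hxY, D.mem_CC] at hc
    have hxYv : x ∉ Y.erase v := fun h => hxY (mem_of_mem_erase h)
    rw [if_neg hxYv, D.mem_CC]
    exact D.Ok_erase _ hY _ hc v hv

lemma Dat.F_card (D : Dat V ι J) (x : V) (Y : Finset V) :
    ((D.F x Y).card : ℝ) ≤ D.g x Y := by
  unfold Dat.F Dat.g
  split_ifs
  · exact_mod_cast D.ext_card_le (Y.erase x) x
  · exact le_refl _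

lemma Dat.β_le_k (D : Dat V ι J) : D.β ≤ D.k := by
  unfold Dat.β
  have hk := D.kR_pos
  have hs := D.sR_pos
  have hs4 := D.s_ge
  apply div_le_self hk.le
  have h1 : (1 : ℝ) ≤ D.s ^ 6 := one_le_pow₀ (by linarith)
  linarith

lemma Dat.g_growth (D : Dat V ι J) (x : V) (Y₀ : Finset V) (hxY₀ : x ∉ Y₀)
    (IH : ∀ Y' ⊆ Y₀, ∀ v ∈ Y', D.β * (D.CC (Y'.erase v)).card ≤ (D.CC Y').card)
    (Y : Finset V) (hY : Y ⊆ insert x Y₀) (v : V) (hv : v ∈ Y) :
    D.β * D.g x (Y.erase v) ≤ D.g x Y := by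
  unfold Dat.g
  by_cases hxY : x ∈ Y
  · rw [if_pos hxY]
    by_cases hvx : v = x
    · subst hvx
      rw [if_neg (notMem_erase v Y)]
      exact mul_le_mul_of_nonneg_right D.β_le_k (Nat.cast_nonneg _)
    · have hvYx : v ∈ Y.erase x := mem_erase.mpr ⟨hvx, hv⟩
      have hxYv : x ∈ Y.erase v := mem_erase.mpr ⟨fun h => hvx h.symm, hxY⟩
      rw [if_pos hxYv]
      have e1 : (Y.erase v).erase x = (Y.erase x).erase v := erase_right_comm
      rw [e1]
      have hsub : Y.erase x ⊆ Y₀ := by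
        intro u hu
        exact mem_of_mem_insert_of_ne (hY (mem_of_mem_erase hu)) (mem_erase.mp hu).1
      have h1 := IH _ hsub v hvYx
      have h2 := mul_le_mul_of_nonneg_left h1 D.kR_pos.le
      linarith
  · rw [if_neg hxY, if_neg fun h => hxY (mem_of_mem_erase h)]
    have hsub : Y ⊆ Y₀ := by
      intro u hu
      refine mem_of_mem_insert_of_ne (hY hu) ?_
      rintro rfl
      exact hxY hu
    exact IH _ hsub v hv

lemma Dat.F_pop (D : Dat V ι J) (x : V) (hx : x ∈ D.E) (Y : Finset V) (hY : Y ⊆ D.E)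
    (c : V → Fin D.k) (hc : c ∈ D.F x Y) (v : V) (hv : v ∈ Y) :
    c v ∉ D.Pop v ∧ ∀ u ∈ D.X, c u = D.c₀ u := by
  unfold Dat.F at hc
  by_cases hxY : x ∈ Y
  · rw [if_pos hxY, D.mem_ext] at hc
    refine ⟨?_, fun u hu => D.Ex_X _ ((erase_subset _ _).trans hY) x hx c hc u hu⟩
    by_cases hvx : v = x
    · rw [hvx]
      exact hc.2.pop
    · have := hc.1.pop v (mem_erase.mpr ⟨hvx, hv⟩)
      rwa [Function.update_of_ne hvx] at this
  · rw [if_neg hxY, D.mem_CC] at hc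
    exact ⟨hc.pop v hv, fun u hu => hc.out u fun h => D.notMem_X (hY h) hu⟩

open scoped Classical in
/-- Few extensions violate the weight condition. -/
lemma Dat.badj (D : Dat V ι J) (Y : Finset V) (hY : Y ⊆ D.E) (x : V) (hx : x ∈ D.E)
    (hxY : x ∉ Y)
    (IH : ∀ Y' ⊆ Y, ∀ v ∈ Y', D.β * (D.CC (Y'.erase v)).card ≤ (D.CC Y').card) (j : J) :
    (((D.ext Y x).filter fun c => ¬ ∑ i ∈ univ.filter
      (fun i => Coinc D.S (D.X ∪ insert x Y) c i), D.W j i ≤ D.τ + D.k / D.s ^ 8).card : ℝ) *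
      D.k ^ 20 ≤ D.k * (D.CC Y).card := by
  have hs := D.sR_pos
  have hk := D.kR_pos
  set B := (D.ext Y x).filter fun c => ¬ ∑ i ∈ univ.filter
      (fun i => Coinc D.S (D.X ∪ insert x Y) c i), D.W j i ≤ D.τ + D.k / D.s ^ 8 with hB
  have hU : insert x Y ⊆ D.E := insert_subset hx hY
  have hmom := ExtMom.moment D.X (insert x Y) (D.hXE.mono_right hU) D.c₀ (D.w j) (D.w_nonneg j)
    (D.w_self j) (D.k / D.s ^ 11) (D.k / D.s ^ 11) D.β (D.s ^ 2 * D.k) (D.w_le j)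
    (by positivity) (by positivity) D.β_pos (D.w_sum j) (D.F x) (D.g x)
    (fun Y' hY' c hc v hv => D.F_her x hx Y' (hY'.trans hU) c hc v hv)
    (fun Y' _ => D.F_card x Y')
    (fun Y' hY' v hv => D.g_growth x Y hxY IH Y' hY' v hv)
    (fun Y' hY' c hc v hv => by
      obtain ⟨h1, h2⟩ := D.F_pop x hx Y' (hY'.trans hU) c hc v hv
      refine le_trans (le_of_eq ?_) (D.w_pop j v (c v) h1)
      refine sum_congr ?_ fun _ _ => rfl
      ext u
      rw [mem_filter, mem_filter]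
      constructor
      · rintro ⟨hu, h⟩
        exact ⟨hu, by rw [← h2 u hu, h]⟩
      · rintro ⟨hu, h⟩
        exact ⟨hu, by rw [h2 u hu, h]⟩)
    D.s D.s (le_refl _) (insert x Y) (Subset.refl _)
  have hF : D.F x (insert x Y) = D.ext Y x := by
    unfold Dat.F
    rw [if_pos (mem_insert_self x Y), erase_insert hxY]
  have hg : D.g x (insert x Y) = D.k * (D.CC Y).card := by
    unfold Dat.g
    rw [if_pos (mem_insert_self x Y), erase_insert hxY]
  rw [hF, hg] at hmom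
  have hR0 : ∀ c : V → Fin D.k, 0 ≤ ExtMom.Rw D.X (D.w j) (insert x Y) c := by
    intro c
    refine sum_nonneg fun v _ => sum_nonneg fun u _ => ?_
    unfold ExtMom.pw
    split_ifs
    · exact D.w_nonneg j _ _
    · exact le_refl 0
  have hlow : (B.card : ℝ) * (D.k / D.s ^ 8) ^ D.s ≤
      ∑ c ∈ D.ext Y x, (ExtMom.Rw D.X (D.w j) (insert x Y) c) ^ D.s := by
    calc (B.card : ℝ) * (D.k / D.s ^ 8) ^ D.s = ∑ c ∈ B, ((D.k : ℝ) / D.s ^ 8) ^ D.s := by
          rw [sum_const, nsmul_eq_mul]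
      _ ≤ ∑ c ∈ B, (ExtMom.Rw D.X (D.w j) (insert x Y) c) ^ D.s := by
          refine sum_le_sum fun c hc => ?_
          obtain ⟨hc1, hc2⟩ := mem_filter.mp hc
          have h1 := D.wt_le Y hY x hx c ((D.mem_ext Y x c).mp hc1) j
          apply pow_le_pow_left₀ (by positivity)
          linarith [not_le.mp hc2]
      _ ≤ _ := sum_le_sum_of_subset_of_nonneg (filter_subset _ _)
          fun c _ _ => pow_nonneg (hR0 c) _
  have hM := D.M_le
  have hM0 : 0 ≤ 2 * ((D.s : ℝ) ^ 2 * D.k) / D.β +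
      4 * (D.s : ℝ) ^ 2 * (D.k / D.s ^ 11) + 2 * D.s * (D.k / D.s ^ 11) := by
    have := D.β_pos
    positivity
  have hup : ∑ c ∈ D.ext Y x, (ExtMom.Rw D.X (D.w j) (insert x Y) c) ^ D.s ≤
      ((1 / 3) * (D.k / D.s ^ 8)) ^ D.s * (D.k * (D.CC Y).card) := by
    refine hmom.trans ?_
    apply mul_le_mul_of_nonneg_right _ (by positivity)
    exact pow_le_pow_left₀ hM0 hM D.s
  have hfin : (B.card : ℝ) * (3 : ℝ) ^ D.s ≤ D.k * (D.CC Y).card := by
    have hT : (0 : ℝ) < (D.k / D.s ^ 8) ^ D.s := by positivity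
    have h1 := hlow.trans hup
    rw [mul_pow] at h1
    have h2 : ((1 : ℝ) / 3) ^ D.s * 3 ^ D.s = 1 := by
      rw [← mul_pow]
      norm_num
    have h3 : (B.card : ℝ) * (D.k / D.s ^ 8) ^ D.s * 3 ^ D.s ≤
        ((1 / 3) ^ D.s * (D.k / D.s ^ 8) ^ D.s * (D.k * (D.CC Y).card)) * 3 ^ D.s :=
      mul_le_mul_of_nonneg_right h1 (by positivity)
    have h4 : ((1 / 3 : ℝ) ^ D.s * (D.k / D.s ^ 8) ^ D.s * (D.k * (D.CC Y).card)) * 3 ^ D.s =
        (D.k / D.s ^ 8) ^ D.s * (D.k * (D.CC Y).card) * ((1 / 3) ^ D.s * 3 ^ D.s) := by ring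
    rw [h4, h2, mul_one] at h3
    have h5 : (D.k / D.s ^ 8 : ℝ) ^ D.s * ((B.card : ℝ) * 3 ^ D.s) ≤
        (D.k / D.s ^ 8) ^ D.s * (D.k * (D.CC Y).card) := by
      calc _ = (B.card : ℝ) * (D.k / D.s ^ 8) ^ D.s * 3 ^ D.s := by ring
        _ ≤ _ := h3
    exact le_of_mul_le_mul_left h5 hT
  have hexp : (D.k : ℝ) ^ 20 ≤ 3 ^ D.s := by
    refine D.hks.trans ?_
    have h1 : Real.exp (D.s : ℝ) = (Real.exp 1) ^ D.s := by
      rw [← Real.exp_nat_mul, mul_one]
    rw [h1]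
    exact pow_le_pow_left₀ (Real.exp_pos 1).le Real.exp_one_lt_three.le _
  exact (mul_le_mul_of_nonneg_left hexp (Nat.cast_nonneg _)).trans hfin

/-- The main step. -/
lemma Dat.step [Fintype J] [DecidableEq J] (D : Dat V ι J)
    (hρ : ∀ x : V, (Finset.univ.filter fun j => ∃ i, x ∈ D.S i ∧ D.W j i ≠ 0).card ≤ D.k ^ 3)
    (Y : Finset V) (hY : Y ⊆ D.E) (x : V) (hx : x ∈ D.E) (hxY : x ∉ Y)
    (IH : ∀ Y' ⊆ Y, ∀ v ∈ Y', D.β * (D.CC (Y'.erase v)).card ≤ (D.CC Y').card) :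
    D.β * (D.CC Y).card ≤ (D.CC (insert x Y)).card := by
  classical
  have hs := D.sR_pos
  have hk := D.kR_pos
  have hs4 := D.s_ge
  have hk30 := D.k_ge
  have hβ := D.β_pos
  set N : ℝ := ((D.CC Y).card : ℝ) with hN
  have hN0 : 0 ≤ N := Nat.cast_nonneg _
  obtain ⟨B0, hB0, hB0c⟩ := D.bad0 Y hY x hx hxY (N / D.β) (by positivity) (by
    intro a ha
    rw [le_div_iff₀ hβ, mul_comm]
    exact IH Y (Subset.refl _) a ha)
  set Jx := Finset.univ.filter fun j => ∃ i, x ∈ D.S i ∧ D.W j i ≠ 0 with hJx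
  set Bj : J → Finset (V → Fin D.k) := fun j => (D.ext Y x).filter fun c =>
    ¬ ∑ i ∈ univ.filter (fun i => Coinc D.S (D.X ∪ insert x Y) c i), D.W j i ≤
      D.τ + D.k / D.s ^ 8 with hBj
  have hcover : D.ext Y x ⊆ D.CC (insert x Y) ∪ (B0 ∪ Jx.biUnion Bj) := by
    intro c hc
    by_contra hn
    rw [mem_union, mem_union, not_or, not_or] at hn
    obtain ⟨h1, h2, h3⟩ := hn
    apply h1
    rw [D.mem_CC]
    refine D.Ok_insert Y x hx c ((D.mem_ext Y x c).mp hc) ?_ ?_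
    · intro i hi
      by_contra h4
      exact h2 (hB0 c hc ⟨i, hi, h4⟩)
    · intro j hj
      by_contra h4
      exact h3 (mem_biUnion.mpr ⟨j, mem_filter.mpr ⟨mem_univ _, hj⟩, mem_filter.mpr ⟨hc, h4⟩⟩)
  have hcard : ((D.ext Y x).card : ℝ) ≤ (D.CC (insert x Y)).card + (B0.card +
      ∑ j ∈ Jx, ((Bj j).card : ℝ)) := by
    have h1 : (D.ext Y x).card ≤ (D.CC (insert x Y)).card + (B0.card + ∑ j ∈ Jx, (Bj j).card) :=
      (card_le_card hcover).trans ((card_union_le _ _).trans (Nat.add_le_add_left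
        ((card_union_le _ _).trans (Nat.add_le_add_left card_biUnion_le _)) _))
    exact_mod_cast h1
  have hsumj : ∑ j ∈ Jx, ((Bj j).card : ℝ) ≤ N := by
    have h1 : ∀ j ∈ Jx, ((Bj j).card : ℝ) ≤ D.k * N / D.k ^ 20 := by
      intro j _
      rw [le_div_iff₀ (by positivity)]
      exact D.badj Y hY x hx hxY IH j
    calc ∑ j ∈ Jx, ((Bj j).card : ℝ) ≤ ∑ j ∈ Jx, D.k * N / D.k ^ 20 := sum_le_sum h1
      _ = (Jx.card : ℝ) * (D.k * N / D.k ^ 20) := by rw [sum_const, nsmul_eq_mul]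
      _ ≤ (D.k : ℝ) ^ 3 * (D.k * N / D.k ^ 20) := by
          apply mul_le_mul_of_nonneg_right _ (by positivity)
          exact_mod_cast hρ x
      _ = N / D.k ^ 16 := by
          field_simp
      _ ≤ N := by
          apply div_le_self hN0
          have h2 : (1 : ℝ) ≤ D.k := by exact_mod_cast D.k_pos
          exact one_le_pow₀ h2
  have hext : (D.k : ℝ) * N ≤ 16 * D.s ^ 6 * (D.ext Y x).card := by
    have := D.ext_card_ge Y hY x hx hxY
    rw [hN]
    exact_mod_cast this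
  have hext2 : 2 * D.β * N ≤ (D.ext Y x).card := by
    have h1 : 2 * D.β * N = D.k * N / (16 * D.s ^ 6) := by
      unfold Dat.β
      field_simp
      ring
    rw [h1, div_le_iff₀ (by positivity)]
    linarith
  have hB0' : (B0.card : ℝ) ≤ 32 * D.s ^ 9 * N := by
    refine hB0c.trans (le_of_eq ?_)
    unfold Dat.β
    field_simp
  have hlast : 32 * (D.s : ℝ) ^ 9 + 1 ≤ D.β := by
    unfold Dat.β
    rw [le_div_iff₀ (by positivity)]
    have h1 : (10 : ℝ) ^ 4 ≤ D.s ^ 15 := by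
      calc (10 : ℝ) ^ 4 ≤ D.s := hs4
        _ = D.s ^ 1 := (pow_one _).symm
        _ ≤ D.s ^ 15 := pow_le_pow_right₀ (by linarith) (by norm_num)
    have h2 : (10 : ℝ) ^ 4 * D.s ^ 15 ≤ D.s ^ 15 * D.s ^ 15 :=
      mul_le_mul_of_nonneg_right h1 (by positivity)
    have h3 : (D.s : ℝ) ^ 15 * D.s ^ 15 = D.s ^ 30 := by ring
    have h4 : (D.s : ℝ) ^ 6 ≤ D.s ^ 15 := pow_le_pow_right₀ (by linarith) (by norm_num)
    have h5 : (32 * (D.s : ℝ) ^ 9 + 1) * (32 * D.s ^ 6) = 1024 * D.s ^ 15 + 32 * D.s ^ 6 := by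
      ring
    rw [h5]
    linarith
  have hfinal : (32 * (D.s : ℝ) ^ 9 + 1) * N ≤ D.β * N := mul_le_mul_of_nonneg_right hlast hN0
  linarith

/-- Growth of the number of admissible colourings. -/
lemma Dat.growth [Fintype J] [DecidableEq J] (D : Dat V ι J)
    (hρ : ∀ x : V, (Finset.univ.filter fun j => ∃ i, x ∈ D.S i ∧ D.W j i ≠ 0).card ≤ D.k ^ 3)
    (n : ℕ) : ∀ Y ⊆ D.E, Y.card = n → ∀ v ∈ Y,
      D.β * (D.CC (Y.erase v)).card ≤ (D.CC Y).card := by
  induction n using Nat.strong_induction_on with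
  | _ n ih =>
    intro Y hY hn v hv
    have h1 := D.step hρ (Y.erase v) ((erase_subset _ _).trans hY) v (hY hv) (notMem_erase v Y)
      (by
        intro Y' hY' u hu
        have hlt : Y'.card < n := by
          have h2 := card_le_card hY'
          have h3 := card_erase_lt_of_mem hv
          omega
        exact ih _ hlt Y' (hY'.trans ((erase_subset _ _).trans hY)) rfl u hu)
    rwa [insert_erase hv] at h1

lemma Dat.nonempty [Fintype J] [DecidableEq J] (D : Dat V ι J)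
    (hρ : ∀ x : V, (Finset.univ.filter fun j => ∃ i, x ∈ D.S i ∧ D.W j i ≠ 0).card ≤ D.k ^ 3)
    (Y : Finset V) (hY : Y ⊆ D.E) : (0 : ℝ) < (D.CC Y).card := by
  induction Y using Finset.induction_on with
  | empty =>
    have : (D.CC ∅).Nonempty := ⟨D.c₀, (D.mem_CC _ _).mpr D.Ok_empty⟩
    exact_mod_cast this.card_pos
  | insert a Y ha ih =>
    have h1 := ih ((subset_insert a Y).trans hY)
    have h2 := D.growth hρ _ (insert a Y) hY rfl a (mem_insert_self a Y)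
    rw [erase_insert ha] at h2
    exact lt_of_lt_of_le (mul_pos D.β_pos h1) h2

end ExtC

variable {V ι : Type*} [Fintype V] [DecidableEq V] [Fintype ι] [DecidableEq ι]

/-- MODULE E. -/
theorem extend (G : SimpleGraph V) [DecidableRel G.Adj] (S : ι → Finset V) {k s : ℕ}
    (hs : 10 ^ 4 ≤ s) (hk : s ^ 30 ≤ k) (hks : (k : ℝ) ^ 20 ≤ Real.exp s)
    (hS : ∀ i, (S i).card ≤ s) (hh : ∀ v, hd S v ≤ k)
    {J : Type*} [Fintype J] [DecidableEq J] (W : J → ι → ℝ)
    (hW0 : ∀ j i, 0 ≤ W j i) (hWs : ∀ j i, W j i ≤ s) (hWk : ∀ j, ∑ i, W j i ≤ k)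
    (hρ : ∀ x : V, (Finset.univ.filter fun j => ∃ i, x ∈ S i ∧ W j i ≠ 0).card ≤ k ^ 3)
    (X E : Finset V) (hXE : Disjoint X E) (c₀ : V → Fin k)
    (hc₀ : ∀ u ∈ X, ∀ v ∈ X, G.Adj u v → c₀ u ≠ c₀ v) (h1 : ∀ i, One S X c₀ i)
    (τ : ℝ) (hτ : ∀ j, ∑ i ∈ Finset.univ.filter (fun i => Coinc S X c₀ i), W j i ≤ τ)
    (hN : ∀ x ∈ E, s ^ 8 * (Finset.univ.filter fun i => x ∈ S i ∧ Coinc S X c₀ i).card ≤ k)
    (hslack : ∀ x ∈ E, 8 * s ^ 6 * (nb G (X ∪ E) x).card + k ≤ 8 * s ^ 6 * k) :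
    ∃ c : V → Fin k, (∀ v ∈ X, c v = c₀ v) ∧
      (∀ u ∈ X ∪ E, ∀ v ∈ X ∪ E, G.Adj u v → c u ≠ c v) ∧ (∀ i, One S (X ∪ E) c i) ∧
      ∀ j, ∑ i ∈ Finset.univ.filter (fun i => Coinc S (X ∪ E) c i), W j i ≤ τ + k / s ^ 8 := by
  let D : ExtC.Dat V ι J := ⟨k, s, G, inferInstance, S, hs, hk, hks, hS, hh, W, hW0, hWs, hWk,
    X, E, hXE, c₀, hc₀, h1, τ, hτ, hN, hslack⟩
  have hpos := D.nonempty hρ E (Subset.refl _)
  have hne : (D.CC E).Nonempty := by
    rw [← card_pos]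
    exact_mod_cast hpos
  obtain ⟨c, hc⟩ := hne
  rw [D.mem_CC] at hc
  exact ⟨c, fun v hv => hc.out v fun h => D.notMem_X h hv, hc.proper, hc.one, hc.wt⟩

end Pool.Agent.Helper14.Pcg
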