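import Mathlib

/-! # The moment lemma of module E -/

set_option autoImplicit false

namespace Pool.Agent.Helper14.Pcg

open Finset

namespace ExtMom

lemma pow_step (R d : ℝ) (n : ℕ) (hd : 0 ≤ d) (hdR : d ≤ R) :
    R * R ^ n ≤ R * (R - d) ^ n + n * d * R ^ n := by
  have hR : 0 ≤ R := hd.trans hdR
  induction n with
  | zero => simp
  | succ n ih =>
    have h1 : (R - d) ^ n ≤ R ^ n := pow_le_pow_left₀ (by linarith) (by linarith) n
    have h2 : R * (R * R ^ n) ≤ R * (R * (R - d) ^ n + n * d * R ^ n) :=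
      mul_le_mul_of_nonneg_left ih hR
    have h3 : R * d * (R - d) ^ n ≤ R * d * R ^ n :=
      mul_le_mul_of_nonneg_left h1 (mul_nonneg hR hd)
    push_cast
    calc R * R ^ (n + 1) = R * (R * R ^ n) := by ring
      _ ≤ R * (R * (R - d) ^ n + n * d * R ^ n) := h2
      _ = R * (R - d) ^ (n + 1) + R * d * (R - d) ^ n + n * d * R ^ (n + 1) := by ring
      _ ≤ R * (R - d) ^ (n + 1) + R * d * R ^ n + n * d * R ^ (n + 1) := by linarith
      _ = R * (R - d) ^ (n + 1) + (n + 1) * d * R ^ (n + 1) := by ring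

lemma pow_step2 (R d d' : ℝ) (n : ℕ) (hd : 0 ≤ d) (hdR : d ≤ R) (hd' : 0 ≤ d') (hdR' : d' ≤ R) :
    R ^ 2 * R ^ n ≤ R ^ 2 * ((R - d) ^ n + (R - d') ^ n) + n ^ 2 * d * d' * R ^ n := by
  have hR : 0 ≤ R := hd.trans hdR
  rcases hR.eq_or_lt with h0 | hpos
  · have h1 : d = 0 := le_antisymm (by linarith) hd
    rw [← h0, h1]
    simp
  · have hA := pow_step R d n hd hdR
    have hB := pow_step R d' n hd' hdR'
    have hA0 : (R - d) ^ n ≤ R ^ n := pow_le_pow_left₀ (by linarith) (by linarith) n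
    have hB0 : (R - d') ^ n ≤ R ^ n := pow_le_pow_left₀ (by linarith) (by linarith) n
    have hA1 : 0 ≤ (R - d) ^ n := pow_nonneg (by linarith) n
    have hB1 : 0 ≤ (R - d') ^ n := pow_nonneg (by linarith) n
    have hRn : 0 < R ^ n := pow_pos hpos n
    have h1 : (R * (R ^ n - (R - d) ^ n)) * (R * (R ^ n - (R - d') ^ n)) ≤
        (n * d * R ^ n) * (n * d' * R ^ n) := by
      apply mul_le_mul
      · linarith
      · linarith
      · exact mul_nonneg hR (by linarith)
      · positivity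
    have h2 : 0 ≤ R ^ 2 * ((R - d) ^ n * (R - d') ^ n) := by positivity
    have h3 : R ^ n * (R ^ 2 * R ^ n) ≤
        R ^ n * (R ^ 2 * ((R - d) ^ n + (R - d') ^ n) + n ^ 2 * d * d' * R ^ n) := by
      nlinarith
    exact le_of_mul_le_mul_left h3 hRn

variable {V : Type*} [Fintype V] [DecidableEq V]

/-- The deterministic inequality. -/
lemma det_ineq (X Y : Finset V) (hXY : Disjoint X Y) (x : V → V → ℝ) (a b : ℝ)
    (hx0 : ∀ v u, 0 ≤ x v u) (hxa : ∀ v u, x v u ≤ a) (hxd : ∀ v, x v v = 0)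
    (hxY : ∀ v, v ∉ Y → ∀ u, x v u = 0) (hxX : ∀ v u, u ∉ X ∪ Y → x v u = 0)
    (hxb : ∀ v ∈ Y, ∑ u ∈ X, x v u ≤ b) (hb : 0 ≤ b) (ha : 0 ≤ a) (n : ℕ) (R : ℝ)
    (hR : R = ∑ v, ∑ u, x v u) (D : V → ℝ) (hD : ∀ v, D v = ∑ u, x v u + ∑ u, x u v) :
    R ^ (n + 1) ≤ (∑ v ∈ Y, ∑ u ∈ Y, x v u * ((R - D v) ^ n + (R - D u) ^ n)) +
      (∑ v ∈ Y, ∑ u ∈ X, x v u * (R - D v) ^ n) + (4 * n ^ 2 * a + 2 * n * b) * R ^ n := by
  have hR0 : 0 ≤ R := by
    rw [hR]
    exact sum_nonneg fun v _ => sum_nonneg fun u _ => hx0 v u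
  have hD0 : ∀ v, 0 ≤ D v := fun v => by
    rw [hD]
    exact add_nonneg (sum_nonneg fun u _ => hx0 v u) (sum_nonneg fun u _ => hx0 u v)
  have hDR : ∀ v, D v ≤ R := by
    intro v
    rw [hD, hR, ← Finset.add_sum_erase univ (fun w => ∑ u, x w u) (mem_univ v)]
    have h1 : ∑ u, x u v = ∑ u ∈ univ.erase v, x u v := by
      rw [← Finset.add_sum_erase univ (fun u => x u v) (mem_univ v)]
      simp [hxd v]
    rw [h1]
    have h2 : ∑ u ∈ univ.erase v, x u v ≤ ∑ w ∈ univ.erase v, ∑ u, x w u :=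
      sum_le_sum fun w _ => single_le_sum (f := fun u => x w u) (fun u _ => hx0 w u) (mem_univ v)
    linarith
  have hsplit : ∀ v, ∑ u, x v u = ∑ u ∈ Y, x v u + ∑ u ∈ X, x v u := by
    intro v
    rw [← sum_union hXY.symm, union_comm Y X]
    refine (sum_subset (subset_univ _) fun u _ hu => hxX v u hu).symm
  have hRsum : R = ∑ v ∈ Y, (∑ u ∈ Y, x v u + ∑ u ∈ X, x v u) := by
    rw [hR]
    rw [← sum_subset (subset_univ Y) (fun v _ hv => sum_eq_zero fun u _ => hxY v hv u)]
    exact sum_congr rfl fun v _ => hsplit v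
  have hDsum : ∑ v ∈ Y, D v ≤ 2 * R := by
    calc ∑ v ∈ Y, D v ≤ ∑ v, D v := sum_le_sum_of_subset_of_nonneg (subset_univ Y)
          fun v _ _ => hD0 v
      _ = ∑ v, ∑ u, x v u + ∑ v, ∑ u, x u v := by
          rw [← sum_add_distrib]
          exact sum_congr rfl fun v _ => hD v
      _ = 2 * R := by
          rw [sum_comm (f := fun v u => x u v), ← hR]
          ring
  have hDsum0 : 0 ≤ ∑ v ∈ Y, D v := sum_nonneg fun v _ => hD0 v
  have hRHS1 : 0 ≤ ∑ v ∈ Y, ∑ u ∈ Y, x v u * ((R - D v) ^ n + (R - D u) ^ n) :=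
    sum_nonneg fun v _ => sum_nonneg fun u _ => mul_nonneg (hx0 v u)
      (add_nonneg (pow_nonneg (by linarith [hDR v]) n) (pow_nonneg (by linarith [hDR u]) n))
  have hRHS2 : 0 ≤ ∑ v ∈ Y, ∑ u ∈ X, x v u * (R - D v) ^ n :=
    sum_nonneg fun v _ => sum_nonneg fun u _ => mul_nonneg (hx0 v u)
      (pow_nonneg (by linarith [hDR v]) n)
  have hRn : 0 ≤ R ^ n := pow_nonneg hR0 n
  rcases hR0.eq_or_lt with h0 | hpos
  · have h1 : R ^ (n + 1) = 0 := by rw [← h0]; simp
    rw [h1]
    positivity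
  · have hmain : R ^ 2 * R ^ (n + 1) ≤ R ^ 2 * ((∑ v ∈ Y, ∑ u ∈ Y, x v u *
        ((R - D v) ^ n + (R - D u) ^ n)) +
        (∑ v ∈ Y, ∑ u ∈ X, x v u * (R - D v) ^ n) + (4 * n ^ 2 * a + 2 * n * b) * R ^ n) := by
      have e1 : R ^ 2 * R ^ (n + 1) = ∑ v ∈ Y, (∑ u ∈ Y, x v u * (R ^ 2 * R ^ n) +
          ∑ u ∈ X, x v u * (R ^ 2 * R ^ n)) := by
        calc R ^ 2 * R ^ (n + 1) =
            (∑ v ∈ Y, (∑ u ∈ Y, x v u + ∑ u ∈ X, x v u)) * (R ^ 2 * R ^ n) := by
              rw [← hRsum]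
              ring
          _ = _ := by
              rw [sum_mul]
              refine sum_congr rfl fun v _ => ?_
              rw [add_mul, sum_mul, sum_mul]
      have e2 : ∑ v ∈ Y, ∑ u ∈ Y, x v u * (R ^ 2 * R ^ n) ≤
          R ^ 2 * (∑ v ∈ Y, ∑ u ∈ Y, x v u * ((R - D v) ^ n + (R - D u) ^ n)) +
          n ^ 2 * R ^ n * a * (∑ v ∈ Y, D v) ^ 2 := by
        have h1 : (∑ v ∈ Y, D v) ^ 2 = ∑ v ∈ Y, ∑ u ∈ Y, D v * D u := by
          rw [sq, sum_mul_sum]
        rw [h1, mul_sum, mul_sum, ← sum_add_distrib]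
        refine sum_le_sum fun v _ => ?_
        rw [mul_sum, mul_sum, ← sum_add_distrib]
        refine sum_le_sum fun u _ => ?_
        have h2 := pow_step2 R (D v) (D u) n (hD0 v) (hDR v) (hD0 u) (hDR u)
        have h3 := mul_le_mul_of_nonneg_left h2 (hx0 v u)
        have h4 : x v u * (n ^ 2 * D v * D u * R ^ n) ≤ a * (n ^ 2 * D v * D u * R ^ n) :=
          mul_le_mul_of_nonneg_right (hxa v u)
            (mul_nonneg (mul_nonneg (mul_nonneg (by positivity) (hD0 v)) (hD0 u)) hRn)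
        calc x v u * (R ^ 2 * R ^ n) ≤ x v u * (R ^ 2 * ((R - D v) ^ n + (R - D u) ^ n) +
              n ^ 2 * D v * D u * R ^ n) := h3
          _ = R ^ 2 * (x v u * ((R - D v) ^ n + (R - D u) ^ n)) +
              x v u * (n ^ 2 * D v * D u * R ^ n) := by ring
          _ ≤ R ^ 2 * (x v u * ((R - D v) ^ n + (R - D u) ^ n)) +
              a * (n ^ 2 * D v * D u * R ^ n) := by linarith
          _ = _ := by ring
      have e3 : ∑ v ∈ Y, ∑ u ∈ X, x v u * (R ^ 2 * R ^ n) ≤
          R ^ 2 * (∑ v ∈ Y, ∑ u ∈ X, x v u * (R - D v) ^ n) +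
          n * R * R ^ n * b * (∑ v ∈ Y, D v) := by
        rw [mul_sum, mul_sum, ← sum_add_distrib]
        refine sum_le_sum fun v hv => ?_
        have h2 := pow_step R (D v) n (hD0 v) (hDR v)
        have h5 : ∑ u ∈ X, x v u * (R ^ 2 * R ^ n) ≤
            ∑ u ∈ X, (R ^ 2 * (x v u * (R - D v) ^ n) + x v u * (n * R * R ^ n * D v)) := by
          refine sum_le_sum fun u _ => ?_
          have h3 := mul_le_mul_of_nonneg_left h2 (mul_nonneg (hx0 v u) hR0)
          calc x v u * (R ^ 2 * R ^ n) = x v u * R * (R * R ^ n) := by ring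
            _ ≤ x v u * R * (R * (R - D v) ^ n + n * D v * R ^ n) := h3
            _ = _ := by ring
        refine h5.trans ?_
        have e : ∑ u ∈ X, (R ^ 2 * (x v u * (R - D v) ^ n) + x v u * (n * R * R ^ n * D v)) =
            R ^ 2 * ∑ u ∈ X, x v u * (R - D v) ^ n +
              (∑ u ∈ X, x v u) * (n * R * R ^ n * D v) := by
          rw [sum_add_distrib, mul_sum, sum_mul]
        rw [e]
        have h6 : (∑ u ∈ X, x v u) * (n * R * R ^ n * D v) ≤ b * (n * R * R ^ n * D v) :=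
          mul_le_mul_of_nonneg_right (hxb v hv)
            (mul_nonneg (mul_nonneg (mul_nonneg (by positivity) hR0) hRn) (hD0 v))
        linarith
      have e4 : (n : ℝ) ^ 2 * R ^ n * a * (∑ v ∈ Y, D v) ^ 2 ≤
          n ^ 2 * R ^ n * a * (2 * R) ^ 2 := by
        apply mul_le_mul_of_nonneg_left _ (by positivity)
        exact pow_le_pow_left₀ hDsum0 hDsum 2
      have e5 : (n : ℝ) * R * R ^ n * b * (∑ v ∈ Y, D v) ≤ n * R * R ^ n * b * (2 * R) :=
        mul_le_mul_of_nonneg_left hDsum (by positivity)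
      rw [e1, sum_add_distrib]
      nlinarith [e2, e3, e4, e5]
    exact le_of_mul_le_mul_left hmain (by positivity)

variable {κ : Type*} [DecidableEq κ]

/-- Weight of a coincident pair. -/
def pw (X : Finset V) (w : V → V → ℝ) (Y : Finset V) (c : V → κ) (v u : V) : ℝ :=
  if v ∈ Y ∧ u ∈ X ∪ Y ∧ c v = c u then w v u else 0

/-- Total weight of the coincident pairs. -/
def Rw (X : Finset V) (w : V → V → ℝ) (Y : Finset V) (c : V → κ) : ℝ :=
  ∑ v, ∑ u, pw X w Y c v u

lemma Rw_erase (X : Finset V) (w : V → V → ℝ) (hwd : ∀ v, w v v = 0) (Y : Finset V) (c : V → κ)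
    (v : V) (z : κ) (hX : v ∉ X) :
    Rw X w (Y.erase v) (Function.update c v z) = Rw X w Y c -
      (∑ u, pw X w Y c v u + ∑ u, pw X w Y c u v) := by
  have hpt : ∀ p q : V, pw X w (Y.erase v) (Function.update c v z) p q =
      if p = v then 0 else if q = v then 0 else pw X w Y c p q := by
    intro p q
    by_cases hp : p = v
    · subst hp
      simp [pw]
    · by_cases hq : q = v
      · subst hq
        simp [pw, hp, hX]
      · simp [pw, hp, hq]
  have hd : pw X w Y c v v = 0 := by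
    unfold pw
    split_ifs
    · exact hwd v
    · rfl
  have h1 : Rw X w (Y.erase v) (Function.update c v z) =
      ∑ p ∈ univ.erase v, ∑ q ∈ univ.erase v, pw X w Y c p q := by
    unfold Rw
    rw [← Finset.add_sum_erase univ _ (mem_univ v)]
    have h2 : ∑ u, pw X w (Y.erase v) (Function.update c v z) v u = 0 :=
      sum_eq_zero fun u _ => by rw [hpt]; simp
    rw [h2, zero_add]
    refine sum_congr rfl fun p hp => ?_
    have hpv : p ≠ v := (mem_erase.mp hp).1
    rw [← Finset.add_sum_erase univ _ (mem_univ v), hpt]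
    simp only [hpv, if_false, if_true, zero_add]
    refine sum_congr rfl fun q hq => ?_
    rw [hpt]
    simp [hpv, (mem_erase.mp hq).1]
  have h3 : Rw X w Y c = ∑ u, pw X w Y c v u +
      ∑ p ∈ univ.erase v, (pw X w Y c p v + ∑ q ∈ univ.erase v, pw X w Y c p q) := by
    unfold Rw
    rw [← Finset.add_sum_erase univ _ (mem_univ v)]
    congr 1
    refine sum_congr rfl fun p _ => ?_
    rw [← Finset.add_sum_erase univ _ (mem_univ v)]
  have h4 : ∑ u, pw X w Y c u v = ∑ p ∈ univ.erase v, pw X w Y c p v := by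
    rw [← Finset.add_sum_erase univ _ (mem_univ v), hd, zero_add]
  rw [h1, h3, h4, sum_add_distrib]
  ring

/-- Injectivity of the erasing map on colourings with a coincidence. -/
lemma sum_erase_le (F F' : Finset (V → κ)) (v u : V) (hvu : u ≠ v) (z : κ)
    (hF : ∀ c ∈ F, Function.update c v z ∈ F') (φ : (V → κ) → ℝ) (hφ : ∀ c ∈ F', 0 ≤ φ c) :
    ∑ c ∈ F.filter (fun c => c v = c u), φ (Function.update c v z) ≤ ∑ c ∈ F', φ c := by
  have hinj : Set.InjOn (fun c : V → κ => Function.update c v z)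
      (F.filter (fun c => c v = c u)) := by
    intro c hc c' hc' h
    have h1 := (mem_filter.mp hc).2
    have h1' := (mem_filter.mp hc').2
    have h2 : ∀ t, t ≠ v → c t = c' t := by
      intro t ht
      have := congrFun h t
      simpa [Function.update_of_ne ht] using this
    funext t
    by_cases ht : t = v
    · rw [ht, h1, h1', h2 u hvu]
    · exact h2 t ht
  rw [← sum_image (f := φ) hinj]
  refine sum_le_sum_of_subset_of_nonneg ?_ fun c hc _ => hφ c hc
  intro c hc
  obtain ⟨c', hc', rfl⟩ := mem_image.mp hc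
  exact hF c' (mem_filter.mp hc').1

theorem moment (X U : Finset V) (hXU : Disjoint X U) (c₀ : V → κ) (w : V → V → ℝ)
    (hw0 : ∀ v u, 0 ≤ w v u) (hwd : ∀ v, w v v = 0) (a b β σ : ℝ) (hwa : ∀ v u, w v u ≤ a)
    (ha : 0 ≤ a) (hb : 0 ≤ b) (hβ : 0 < β) (hσ : ∑ v, ∑ u, w v u ≤ σ)
    (F : Finset V → Finset (V → κ)) (g : Finset V → ℝ)
    (hF : ∀ Y ⊆ U, ∀ c ∈ F Y, ∀ v ∈ Y, Function.update c v (c₀ v) ∈ F (Y.erase v))
    (hcard : ∀ Y ⊆ U, ((F Y).card : ℝ) ≤ g Y)
    (hg : ∀ Y ⊆ U, ∀ v ∈ Y, β * g (Y.erase v) ≤ g Y)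
    (hpop : ∀ Y ⊆ U, ∀ c ∈ F Y, ∀ v ∈ Y, ∑ u ∈ X.filter (fun u => c v = c u), w v u ≤ b)
    (N : ℕ) : ∀ n ≤ N, ∀ Y ⊆ U,
      ∑ c ∈ F Y, (Rw X w Y c) ^ n ≤ (2 * σ / β + 4 * N ^ 2 * a + 2 * N * b) ^ n * g Y := by
  have hσ0 : 0 ≤ σ := le_trans (sum_nonneg fun v _ => sum_nonneg fun u _ => hw0 v u) hσ
  have hpw0 : ∀ Y (c : V → κ) v u, 0 ≤ pw X w Y c v u := by
    intro Y c v u
    unfold pw
    split_ifs
    · exact hw0 v u
    · exact le_refl 0
  have hRw0 : ∀ Y (c : V → κ), 0 ≤ Rw X w Y c := fun Y c =>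
    sum_nonneg fun v _ => sum_nonneg fun u _ => hpw0 Y c v u
  have hg0 : ∀ Y ⊆ U, 0 ≤ g Y := fun Y hY => le_trans (Nat.cast_nonneg _) (hcard Y hY)
  set M : ℝ := 2 * σ / β + 4 * N ^ 2 * a + 2 * N * b with hM
  have hM0 : 0 ≤ M := by positivity
  intro n
  induction n with
  | zero =>
    intro _ Y hY
    simpa using hcard Y hY
  | succ n ih =>
    intro hnN Y hY
    have hn : n ≤ N := by omega
    have ihn := ih hn
    have hXY : Disjoint X Y := hXU.mono_right hY
    have hYX : ∀ v ∈ Y, v ∉ X := fun v hv hvX => (Finset.disjoint_left.mp hXY) hvX hv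
    have hstep : ∀ c ∈ F Y, (Rw X w Y c) ^ (n + 1) ≤
        (∑ v ∈ Y, ∑ u ∈ Y, pw X w Y c v u *
          ((Rw X w (Y.erase v) (Function.update c v (c₀ v))) ^ n +
           (Rw X w (Y.erase u) (Function.update c u (c₀ u))) ^ n)) +
        (∑ v ∈ Y, ∑ u ∈ X, pw X w Y c v u *
          (Rw X w (Y.erase v) (Function.update c v (c₀ v))) ^ n) +
        (4 * n ^ 2 * a + 2 * n * b) * (Rw X w Y c) ^ n := by
      intro c hc
      have h1 := det_ineq X Y hXY (pw X w Y c) a b (hpw0 Y c)
        (fun v u => by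
          unfold pw
          split_ifs
          · exact hwa v u
          · exact ha)
        (fun v => by
          unfold pw
          split_ifs
          · exact hwd v
          · rfl)
        (fun v hv u => by simp [pw, hv])
        (fun v u hu => by
          unfold pw
          rw [if_neg]
          exact fun h => hu h.2.1)
        (fun v hv => by
          have h2 := hpop Y hY c hc v hv
          rw [sum_filter] at h2
          refine le_trans (le_of_eq ?_) h2
          refine sum_congr rfl fun u hu => ?_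
          simp [pw, hv, hu]) hb ha n (Rw X w Y c) rfl
        (fun v => ∑ u, pw X w Y c v u + ∑ u, pw X w Y c u v) (fun v => rfl)
      have e1 : ∀ v ∈ Y, Rw X w Y c - (∑ u, pw X w Y c v u + ∑ u, pw X w Y c u v) =
          Rw X w (Y.erase v) (Function.update c v (c₀ v)) := fun v hv =>
        (Rw_erase X w hwd Y c v (c₀ v) (hYX v hv)).symm
      refine h1.trans (le_of_eq ?_)
      congr 1
      congr 1
      · refine sum_congr rfl fun v hv => sum_congr rfl fun u hu => ?_
        simp only [e1 v hv, e1 u hu]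
      · refine sum_congr rfl fun v hv => sum_congr rfl fun u hu => ?_
        simp only [e1 v hv]
    have hone : ∀ v ∈ Y, ∀ u ∈ X ∪ Y, ∑ c ∈ F Y, pw X w Y c v u *
        (Rw X w (Y.erase v) (Function.update c v (c₀ v))) ^ n ≤ w v u * (M ^ n * g Y / β) := by
      intro v hv u hu
      by_cases hvu : u = v
      · subst hvu
        have : ∀ c ∈ F Y, pw X w Y c u u *
            (Rw X w (Y.erase u) (Function.update c u (c₀ u))) ^ n = 0 := by
          intro c _
          have : pw X w Y c u u = 0 := by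
            unfold pw
            split_ifs
            · exact hwd u
            · rfl
          rw [this, zero_mul]
        rw [sum_eq_zero this, hwd u, zero_mul]
      · have e1 : ∑ c ∈ F Y, pw X w Y c v u *
            (Rw X w (Y.erase v) (Function.update c v (c₀ v))) ^ n =
            w v u * ∑ c ∈ (F Y).filter (fun c => c v = c u),
              (Rw X w (Y.erase v) (Function.update c v (c₀ v))) ^ n := by
          rw [sum_filter, mul_sum]
          refine sum_congr rfl fun c _ => ?_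
          unfold pw
          by_cases hcc : c v = c u
          · simp [hv, mem_union.mp hu, hcc]
          · simp [hcc]
        rw [e1]
        apply mul_le_mul_of_nonneg_left _ (hw0 v u)
        have hsub : Y.erase v ⊆ U := (erase_subset v Y).trans hY
        have e2 := sum_erase_le (F Y) (F (Y.erase v)) v u hvu (c₀ v)
          (fun c hc => hF Y hY c hc v hv) (fun c => (Rw X w (Y.erase v) c) ^ n)
          (fun c _ => pow_nonneg (hRw0 _ _) n)
        refine e2.trans ((ihn (Y.erase v) hsub).trans ?_)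
        rw [mul_div_assoc]
        apply mul_le_mul_of_nonneg_left _ (pow_nonneg hM0 n)
        rw [le_div_iff₀ hβ, mul_comm]
        exact hg Y hY v hv
    have hone' : ∀ v ∈ Y, ∀ u ∈ Y, ∑ c ∈ F Y, pw X w Y c v u *
        (Rw X w (Y.erase u) (Function.update c u (c₀ u))) ^ n ≤ w v u * (M ^ n * g Y / β) := by
      intro v hv u hu
      by_cases hvu : v = u
      · subst hvu
        exact hone v hv v (mem_union_right _ hv)
      · have e1 : ∑ c ∈ F Y, pw X w Y c v u *
            (Rw X w (Y.erase u) (Function.update c u (c₀ u))) ^ n =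
            w v u * ∑ c ∈ (F Y).filter (fun c => c u = c v),
              (Rw X w (Y.erase u) (Function.update c u (c₀ u))) ^ n := by
          rw [sum_filter, mul_sum]
          refine sum_congr rfl fun c _ => ?_
          unfold pw
          by_cases hcc : c v = c u
          · simp [hv, hu, hcc]
          · have hcc' : ¬ c u = c v := fun h => hcc h.symm
            simp [hcc, hcc']
        rw [e1]
        apply mul_le_mul_of_nonneg_left _ (hw0 v u)
        have hsub : Y.erase u ⊆ U := (erase_subset u Y).trans hY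
        have e2 := sum_erase_le (F Y) (F (Y.erase u)) u v hvu (c₀ u)
          (fun c hc => hF Y hY c hc u hu) (fun c => (Rw X w (Y.erase u) c) ^ n)
          (fun c _ => pow_nonneg (hRw0 _ _) n)
        refine e2.trans ((ihn (Y.erase u) hsub).trans ?_)
        rw [mul_div_assoc]
        apply mul_le_mul_of_nonneg_left _ (pow_nonneg hM0 n)
        rw [le_div_iff₀ hβ, mul_comm]
        exact hg Y hY u hu
    have hgY := hg0 Y hY
    have hQ0 : 0 ≤ M ^ n * g Y / β := by positivity
    have hs1 : ∑ c ∈ F Y, (∑ v ∈ Y, ∑ u ∈ Y, pw X w Y c v u *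
          ((Rw X w (Y.erase v) (Function.update c v (c₀ v))) ^ n +
           (Rw X w (Y.erase u) (Function.update c u (c₀ u))) ^ n)) ≤
        ∑ v ∈ Y, ∑ u ∈ Y, w v u * (2 * (M ^ n * g Y / β)) := by
      rw [sum_comm]
      refine sum_le_sum fun v hv => ?_
      rw [sum_comm]
      refine sum_le_sum fun u hu => ?_
      have h1 := hone v hv u (mem_union_right _ hu)
      have h2 := hone' v hv u hu
      calc ∑ c ∈ F Y, pw X w Y c v u *
          ((Rw X w (Y.erase v) (Function.update c v (c₀ v))) ^ n +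
           (Rw X w (Y.erase u) (Function.update c u (c₀ u))) ^ n) =
          ∑ c ∈ F Y, pw X w Y c v u * (Rw X w (Y.erase v) (Function.update c v (c₀ v))) ^ n +
          ∑ c ∈ F Y, pw X w Y c v u *
            (Rw X w (Y.erase u) (Function.update c u (c₀ u))) ^ n := by
            rw [← sum_add_distrib]
            exact sum_congr rfl fun c _ => by ring
        _ ≤ w v u * (M ^ n * g Y / β) + w v u * (M ^ n * g Y / β) := add_le_add h1 h2
        _ = _ := by ring
    have hs2 : ∑ c ∈ F Y, (∑ v ∈ Y, ∑ u ∈ X, pw X w Y c v u *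
          (Rw X w (Y.erase v) (Function.update c v (c₀ v))) ^ n) ≤
        ∑ v ∈ Y, ∑ u ∈ X, w v u * (2 * (M ^ n * g Y / β)) := by
      rw [sum_comm]
      refine sum_le_sum fun v hv => ?_
      rw [sum_comm]
      refine sum_le_sum fun u hu => ?_
      have h1 := hone v hv u (mem_union_left _ hu)
      refine h1.trans ?_
      apply mul_le_mul_of_nonneg_left _ (hw0 v u)
      linarith
    have hs3 : (∑ v ∈ Y, ∑ u ∈ Y, w v u * (2 * (M ^ n * g Y / β))) +
        (∑ v ∈ Y, ∑ u ∈ X, w v u * (2 * (M ^ n * g Y / β))) ≤ σ * (2 * (M ^ n * g Y / β)) := by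
      rw [← sum_add_distrib]
      have h1 : ∀ v ∈ Y, ∑ u ∈ Y, w v u * (2 * (M ^ n * g Y / β)) +
          ∑ u ∈ X, w v u * (2 * (M ^ n * g Y / β)) ≤
          (∑ u, w v u) * (2 * (M ^ n * g Y / β)) := by
        intro v _
        rw [← sum_union hXY.symm, ← sum_mul]
        apply mul_le_mul_of_nonneg_right _ (by positivity)
        exact sum_le_sum_of_subset_of_nonneg (subset_univ _) fun u _ _ => hw0 v u
      refine (sum_le_sum h1).trans ?_
      rw [← sum_mul]
      apply mul_le_mul_of_nonneg_right _ (by positivity)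
      refine le_trans ?_ hσ
      exact sum_le_sum_of_subset_of_nonneg (subset_univ _)
        fun v _ _ => sum_nonneg fun u _ => hw0 v u
    have hnN' : (n : ℝ) ≤ N := by exact_mod_cast hn
    have hcoef : 4 * (n : ℝ) ^ 2 * a + 2 * n * b ≤ 4 * (N : ℝ) ^ 2 * a + 2 * N * b := by
      have h1 : (n : ℝ) ^ 2 ≤ (N : ℝ) ^ 2 := pow_le_pow_left₀ (by positivity) hnN' 2
      have h2 : (n : ℝ) ^ 2 * a ≤ (N : ℝ) ^ 2 * a := mul_le_mul_of_nonneg_right h1 ha
      have h3 : (n : ℝ) * b ≤ N * b := mul_le_mul_of_nonneg_right hnN' hb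
      linarith
    calc ∑ c ∈ F Y, (Rw X w Y c) ^ (n + 1) ≤ ∑ c ∈ F Y, ((∑ v ∈ Y, ∑ u ∈ Y, pw X w Y c v u *
          ((Rw X w (Y.erase v) (Function.update c v (c₀ v))) ^ n +
           (Rw X w (Y.erase u) (Function.update c u (c₀ u))) ^ n)) +
        (∑ v ∈ Y, ∑ u ∈ X, pw X w Y c v u *
          (Rw X w (Y.erase v) (Function.update c v (c₀ v))) ^ n) +
        (4 * n ^ 2 * a + 2 * n * b) * (Rw X w Y c) ^ n) := sum_le_sum hstep
      _ = _ + _ + (4 * n ^ 2 * a + 2 * n * b) * ∑ c ∈ F Y, (Rw X w Y c) ^ n := by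
          rw [sum_add_distrib, sum_add_distrib, mul_sum]
      _ ≤ σ * (2 * (M ^ n * g Y / β)) + (4 * N ^ 2 * a + 2 * N * b) * (M ^ n * g Y) := by
          apply add_le_add
          · exact (add_le_add hs1 hs2).trans hs3
          · apply mul_le_mul hcoef (ihn Y hY)
            · exact sum_nonneg fun c _ => pow_nonneg (hRw0 _ _) n
            · positivity
      _ = (2 * σ / β + 4 * N ^ 2 * a + 2 * N * b) * (M ^ n * g Y) := by ring
      _ = M * (M ^ n * g Y) := by rw [← hM]
      _ = M ^ (n + 1) * g Y := by ring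

end ExtMom

end Pool.Agent.Helper14.Pcg
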