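import Pool.Agent.Helper14.Pcg.Defs
import Pool.Agent.Helper14.Pcg.ExtMom

/-! # Module E: the families of partial colourings -/

set_option autoImplicit false
set_option linter.unusedSectionVars false

namespace Pool.Agent.Helper14.Pcg

open Finset

namespace ExtC

section congr

variable {V ι : Type*} [Fintype V] [DecidableEq V] [Fintype ι] [DecidableEq ι]

lemma Coinc_congr {k : ℕ} (S : ι → Finset V) (X : Finset V) (c c' : V → Fin k) (i : ι)
    (h : ∀ u ∈ X, c u = c' u) (hc : Coinc S X c i) : Coinc S X c' i := by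
  obtain ⟨u, hu, v, hv, huv, huv'⟩ := hc
  exact ⟨u, hu, v, hv, huv, by
    rw [← h u (mem_inter.mp hu).2, ← h v (mem_inter.mp hv).2, huv']⟩

lemma Coinc_mono {k : ℕ} (S : ι → Finset V) (X X' : Finset V) (c : V → Fin k) (i : ι)
    (h : X ⊆ X') (hc : Coinc S X c i) : Coinc S X' c i := by
  obtain ⟨u, hu, v, hv, huv, huv'⟩ := hc
  exact ⟨u, inter_subset_inter_left h hu, v, inter_subset_inter_left h hv, huv, huv'⟩

lemma One_congr {k : ℕ} (S : ι → Finset V) (X : Finset V) (c c' : V → Fin k) (i : ι)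
    (h : ∀ u ∈ X, c u = c' u) (hc : One S X c i) : One S X c' i := by
  intro u hu v hv u' hu' v' hv' h1 h2 h3 h4
  apply hc u hu v hv u' hu' v' hv' h1 h2
  · rw [h u (mem_inter.mp hu).2, h v (mem_inter.mp hv).2, h3]
  · rw [h u' (mem_inter.mp hu').2, h v' (mem_inter.mp hv').2, h4]

lemma One_mono {k : ℕ} (S : ι → Finset V) (X X' : Finset V) (c : V → Fin k) (i : ι)
    (h : X ⊆ X') (hc : One S X' c i) : One S X c i := by
  intro u hu v hv u' hu' v' hv'
  exact hc u (inter_subset_inter_left h hu) v (inter_subset_inter_left h hv) u'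
    (inter_subset_inter_left h hu') v' (inter_subset_inter_left h hv')

end congr

/-- The data of module E. -/
structure Dat (V ι J : Type*) [Fintype V] [DecidableEq V] [Fintype ι] [DecidableEq ι] where
  k : ℕ
  s : ℕ
  G : SimpleGraph V
  decG : DecidableRel G.Adj
  S : ι → Finset V
  hs : 10 ^ 4 ≤ s
  hk : s ^ 30 ≤ k
  hks : (k : ℝ) ^ 20 ≤ Real.exp s
  hS : ∀ i, (S i).card ≤ s
  hh : ∀ v, hd S v ≤ k
  W : J → ι → ℝ
  hW0 : ∀ j i, 0 ≤ W j i
  hWs : ∀ j i, W j i ≤ s
  hWk : ∀ j, ∑ i, W j i ≤ k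
  X : Finset V
  E : Finset V
  hXE : Disjoint X E
  c₀ : V → Fin k
  hc₀ : ∀ u ∈ X, ∀ v ∈ X, G.Adj u v → c₀ u ≠ c₀ v
  h1 : ∀ i, One S X c₀ i
  τ : ℝ
  hτ : ∀ j, ∑ i ∈ Finset.univ.filter (fun i => Coinc S X c₀ i), W j i ≤ τ
  hN : ∀ x ∈ E, s ^ 8 * (Finset.univ.filter fun i => x ∈ S i ∧ Coinc S X c₀ i).card ≤ k
  hslack : ∀ x ∈ E, 8 * s ^ 6 * (nb G (X ∪ E) x).card + k ≤ 8 * s ^ 6 * k

attribute [instance] Dat.decG

variable {V ι J : Type*} [Fintype V] [DecidableEq V] [Fintype ι] [DecidableEq ι]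

/-- Heavy pairs. -/
def Dat.hv (D : Dat V ι J) (u v : V) : Prop := u ≠ v ∧ D.k ≤ D.s ^ 12 * cod D.S u v

instance (D : Dat V ι J) (u : V) : DecidablePred (D.hv u) := fun v => by
  unfold Dat.hv; infer_instance

lemma cod_comm (S : ι → Finset V) (u v : V) : cod S u v = cod S v u := by
  unfold cod
  congr 1
  ext i
  simp [and_comm]

lemma Dat.hv_comm (D : Dat V ι J) (u v : V) (h : D.hv u v) : D.hv v u :=
  ⟨h.1.symm, by rw [cod_comm]; exact h.2⟩

/-- Popular colours. -/
def Dat.Pop (D : Dat V ι J) (x : V) : Finset (Fin D.k) :=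
  univ.filter fun z => D.k ≤ D.s ^ 12 * ∑ v ∈ D.X.filter (fun v => D.c₀ v = z), cod D.S x v

lemma Dat.s_pos (D : Dat V ι J) : 0 < D.s := lt_of_lt_of_le (by norm_num) D.hs

lemma Dat.k_pos (D : Dat V ι J) : 0 < D.k := lt_of_lt_of_le (pow_pos D.s_pos 30) D.hk

lemma sum_cod (S : ι → Finset V) (s : ℕ) (hS : ∀ i, (S i).card ≤ s) (u : V) :
    ∑ v, cod S u v ≤ s * hd S u := by
  have h1 : ∀ v, cod S u v = ∑ i, if u ∈ S i ∧ v ∈ S i then 1 else 0 := fun v => by
    unfold cod
    rw [card_filter]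
  have h2 : ∑ v, cod S u v = ∑ i, ∑ v, if u ∈ S i ∧ v ∈ S i then 1 else 0 := by
    rw [sum_comm]
    exact sum_congr rfl fun v _ => h1 v
  have h3 : hd S u = ∑ i, if u ∈ S i then 1 else 0 := by
    unfold hd
    rw [card_filter]
  rw [h2, h3, mul_sum]
  refine sum_le_sum fun i _ => ?_
  by_cases hu : u ∈ S i
  · simp only [hu, true_and, if_true, mul_one]
    rw [← card_filter]
    have : (univ.filter fun v => v ∈ S i) = S i := by ext; simp
    rw [this]
    exact hS i
  · simp [hu]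

/-- Few elements when the total is bounded. -/
lemma card_of_sum (D : Dat V ι J) {A : Type*} [DecidableEq A] (T : Finset A) (φ : A → ℕ)
    (hφ : ∀ a ∈ T, D.k ≤ D.s ^ 12 * φ a) (hsum : ∑ a ∈ T, φ a ≤ D.s * D.k) :
    T.card ≤ D.s ^ 13 := by
  have h1 : T.card * D.k ≤ D.s ^ 12 * ∑ a ∈ T, φ a := by
    rw [mul_sum]
    calc T.card * D.k = ∑ a ∈ T, D.k := by simp
      _ ≤ _ := sum_le_sum hφ
  have h2 : T.card * D.k ≤ D.s ^ 13 * D.k := by
    calc T.card * D.k ≤ D.s ^ 12 * ∑ a ∈ T, φ a := h1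
      _ ≤ D.s ^ 12 * (D.s * D.k) := Nat.mul_le_mul_left _ hsum
      _ = D.s ^ 13 * D.k := by ring
  exact Nat.le_of_mul_le_mul_right h2 D.k_pos

lemma Dat.sum_cod_le (D : Dat V ι J) (x : V) : ∑ v, cod D.S x v ≤ D.s * D.k :=
  (sum_cod D.S D.s D.hS x).trans (Nat.mul_le_mul_left _ (D.hh x))

lemma Dat.hv_card (D : Dat V ι J) (x : V) : (univ.filter fun v => D.hv x v).card ≤ D.s ^ 13 := by
  refine card_of_sum D _ (fun v => cod D.S x v) (fun v hv => (mem_filter.mp hv).2.2) ?_
  exact (sum_le_sum_of_subset (filter_subset _ _)).trans (D.sum_cod_le x)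

lemma Dat.Pop_card (D : Dat V ι J) (x : V) : (D.Pop x).card ≤ D.s ^ 13 := by
  refine card_of_sum D _ (fun z => ∑ v ∈ D.X.filter (fun v => D.c₀ v = z), cod D.S x v)
    (fun z hz => (mem_filter.mp hz).2) ?_
  calc ∑ z ∈ D.Pop x, ∑ v ∈ D.X.filter (fun v => D.c₀ v = z), cod D.S x v ≤
      ∑ z, ∑ v ∈ D.X.filter (fun v => D.c₀ v = z), cod D.S x v :=
        sum_le_sum_of_subset (subset_univ _)
    _ = ∑ v ∈ D.X, cod D.S x v := by
        rw [sum_fiberwise]
    _ ≤ ∑ v, cod D.S x v := sum_le_sum_of_subset (subset_univ _)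
    _ ≤ _ := D.sum_cod_le x

/-- Admissible partial colourings. -/
structure Dat.Ok (D : Dat V ι J) (Y : Finset V) (c : V → Fin D.k) : Prop where
  out : ∀ v, v ∉ Y → c v = D.c₀ v
  proper : ∀ u ∈ D.X ∪ Y, ∀ v ∈ D.X ∪ Y, D.G.Adj u v → c u ≠ c v
  heavy : ∀ u ∈ Y, ∀ v ∈ D.X ∪ Y, D.hv u v → c u ≠ c v
  pop : ∀ x ∈ Y, c x ∉ D.Pop x
  one : ∀ i, One D.S (D.X ∪ Y) c i
  wt : ∀ j, ∑ i ∈ univ.filter (fun i => Coinc D.S (D.X ∪ Y) c i), D.W j i ≤
    D.τ + D.k / D.s ^ 8

/-- Allowed colours. -/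
structure Dat.Al (D : Dat V ι J) (Y : Finset V) (c : V → Fin D.k) (x : V) (z : Fin D.k) :
    Prop where
  nbr : ∀ v ∈ D.X ∪ Y, D.G.Adj x v → c v ≠ z
  hvy : ∀ v ∈ D.X ∪ Y, D.hv x v → c v ≠ z
  pop : z ∉ D.Pop x
  mkd : ∀ i, x ∈ D.S i → Coinc D.S D.X D.c₀ i → ∀ v ∈ D.S i ∩ (D.X ∪ Y), c v ≠ z

open scoped Classical in
/-- The family of admissible partial colourings. -/
noncomputable def Dat.CC (D : Dat V ι J) (Y : Finset V) : Finset (V → Fin D.k) :=
  univ.filter fun c => D.Ok Y c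

open scoped Classical in
noncomputable def Dat.al (D : Dat V ι J) (Y : Finset V) (c : V → Fin D.k) (x : V) :
    Finset (Fin D.k) := univ.filter fun z => D.Al Y c x z

lemma Dat.mem_CC (D : Dat V ι J) (Y : Finset V) (c : V → Fin D.k) :
    c ∈ D.CC Y ↔ D.Ok Y c := by
  unfold Dat.CC
  simp

lemma Dat.mem_al (D : Dat V ι J) (Y : Finset V) (c : V → Fin D.k) (x : V) (z : Fin D.k) :
    z ∈ D.al Y c x ↔ D.Al Y c x z := by
  unfold Dat.al
  simp

lemma Dat.Ok_empty (D : Dat V ι J) : D.Ok ∅ D.c₀ where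
  out := fun _ _ => rfl
  proper := by
    rw [union_empty]
    exact D.hc₀
  heavy := fun u hu => absurd hu (notMem_empty u)
  pop := fun u hu => absurd hu (notMem_empty u)
  one := by
    rw [union_empty]
    exact D.h1
  wt := by
    intro j
    rw [union_empty]
    have := D.hτ j
    have h2 : (0 : ℝ) ≤ D.k / D.s ^ 8 := by positivity
    linarith

lemma Dat.notMem_X (D : Dat V ι J) {v : V} (hv : v ∈ D.E) : v ∉ D.X := fun h =>
  (Finset.disjoint_left.mp D.hXE) h hv

lemma Dat.Ok_erase (D : Dat V ι J) (Y : Finset V) (hY : Y ⊆ D.E) (c : V → Fin D.k)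
    (hc : D.Ok Y c) (v : V) (hv : v ∈ Y) : D.Ok (Y.erase v) (Function.update c v (D.c₀ v)) := by
  have hvX : v ∉ D.X := D.notMem_X (hY hv)
  have hne : ∀ u ∈ D.X ∪ Y.erase v, u ≠ v := by
    rintro u hu rfl
    rcases mem_union.mp hu with h | h
    · exact hvX h
    · exact (notMem_erase u Y) h
  have hup : ∀ u ∈ D.X ∪ Y.erase v, Function.update c v (D.c₀ v) u = c u := fun u hu =>
    Function.update_of_ne (hne u hu) _ _
  have hsub : D.X ∪ Y.erase v ⊆ D.X ∪ Y := union_subset_union_right (erase_subset v Y)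
  refine ⟨?_, ?_, ?_, ?_, ?_, ?_⟩
  · intro u hu
    by_cases h : u = v
    · rw [h, Function.update_self]
    · rw [Function.update_of_ne h]
      exact hc.out u fun h2 => hu (mem_erase.mpr ⟨h, h2⟩)
  · intro u hu w hw hadj
    rw [hup u hu, hup w hw]
    exact hc.proper u (hsub hu) w (hsub hw) hadj
  · intro u hu w hw hh
    rw [hup u (mem_union_right _ hu), hup w hw]
    exact hc.heavy u (erase_subset v Y hu) w (hsub hw) hh
  · intro u hu
    rw [hup u (mem_union_right _ hu)]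
    exact hc.pop u (erase_subset v Y hu)
  · intro i
    exact One_congr _ _ _ _ i (fun u hu => (hup u hu).symm)
      (One_mono _ _ _ _ i hsub (hc.one i))
  · intro j
    refine le_trans (sum_le_sum_of_subset_of_nonneg ?_ fun i _ _ => D.hW0 j i) (hc.wt j)
    intro i hi
    rw [mem_filter] at hi ⊢
    refine ⟨mem_univ _, Coinc_mono _ _ _ _ i hsub (Coinc_congr _ _ _ _ i hup hi.2)⟩

lemma Dat.Al_erase (D : Dat V ι J) (Y : Finset V) (hY : Y ⊆ D.E) (c : V → Fin D.k) (x v : V)
    (hv : v ∈ Y) (z : Fin D.k) (h : D.Al Y c x z) :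
    D.Al (Y.erase v) (Function.update c v (D.c₀ v)) x z := by
  have hvX : v ∉ D.X := D.notMem_X (hY hv)
  have hup : ∀ u ∈ D.X ∪ Y.erase v, Function.update c v (D.c₀ v) u = c u := by
    intro u hu
    refine Function.update_of_ne ?_ _ _
    rintro rfl
    rcases mem_union.mp hu with h | h
    · exact hvX h
    · exact (notMem_erase u Y) h
  have hsub : D.X ∪ Y.erase v ⊆ D.X ∪ Y := union_subset_union_right (erase_subset v Y)
  refine ⟨?_, ?_, h.pop, ?_⟩
  · intro u hu hadj
    rw [hup u hu]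
    exact h.nbr u (hsub hu) hadj
  · intro u hu hh
    rw [hup u hu]
    exact h.hvy u (hsub hu) hh
  · intro i hi hco u hu
    rw [hup u (mem_inter.mp hu).2]
    exact h.mkd i hi hco u (mem_inter.mpr ⟨(mem_inter.mp hu).1, hsub (mem_inter.mp hu).2⟩)

lemma Dat.Al_congr (D : Dat V ι J) (Y : Finset V) (c c' : V → Fin D.k) (x : V) (z : Fin D.k)
    (hcc : ∀ u ∈ D.X ∪ Y, c' u = c u) (h : D.Al Y c x z) : D.Al Y c' x z := by
  refine ⟨?_, ?_, h.pop, ?_⟩
  · intro u hu hadj
    rw [hcc u hu]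
    exact h.nbr u hu hadj
  · intro u hu hh
    rw [hcc u hu]
    exact h.hvy u hu hh
  · intro i hi hco u hu
    rw [hcc u (mem_inter.mp hu).2]
    exact h.mkd i hi hco u hu

/-- Many allowed colours. -/
lemma Dat.al_card (D : Dat V ι J) (Y : Finset V) (hY : Y ⊆ D.E) (c : V → Fin D.k) (x : V)
    (hx : x ∈ D.E) : D.k ≤ 16 * D.s ^ 6 * (D.al Y c x).card := by
  set Nx := univ.filter fun i => x ∈ D.S i ∧ Coinc D.S D.X D.c₀ i with hNx
  have hcover : (univ : Finset (Fin D.k)) ⊆ D.al Y c x ∪ ((nb D.G (D.X ∪ Y) x).image c ∪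
      ((univ.filter fun v => D.hv x v).image c ∪ (D.Pop x ∪
        Nx.biUnion fun i => (D.S i).image c))) := by
    intro z _
    by_contra hz
    simp only [mem_union, not_or] at hz
    obtain ⟨h1, h2, h3, h4, h5⟩ := hz
    apply h1
    rw [D.mem_al]
    refine ⟨?_, ?_, h4, ?_⟩
    · intro v hv hadj h
      exact h2 (mem_image.mpr ⟨v, mem_filter.mpr ⟨hv, hadj⟩, h⟩)
    · intro v _ hh h
      exact h3 (mem_image.mpr ⟨v, mem_filter.mpr ⟨mem_univ _, hh⟩, h⟩)
    · intro i hi hco v hv h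
      exact h5 (mem_biUnion.mpr ⟨i, mem_filter.mpr ⟨mem_univ _, hi, hco⟩,
        mem_image.mpr ⟨v, (mem_inter.mp hv).1, h⟩⟩)
  have hcard : D.k ≤ (D.al Y c x).card + ((nb D.G (D.X ∪ D.E) x).card +
      (D.s ^ 13 + (D.s ^ 13 + Nx.card * D.s))) := by
    calc D.k = (univ : Finset (Fin D.k)).card := by simp
      _ ≤ _ := card_le_card hcover
      _ ≤ _ := by
        refine (card_union_le _ _).trans (Nat.add_le_add_left ?_ _)
        refine (card_union_le _ _).trans (Nat.add_le_add ?_ ?_)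
        · refine card_image_le.trans (card_le_card ?_)
          exact filter_subset_filter _ (union_subset_union_right hY)
        refine (card_union_le _ _).trans (Nat.add_le_add ?_ ?_)
        · exact card_image_le.trans (D.hv_card x)
        refine (card_union_le _ _).trans (Nat.add_le_add (D.Pop_card x) ?_)
        exact card_biUnion_le_card_mul _ _ _ fun i _ => card_image_le.trans (D.hS i)
  have hsl := D.hslack x hx
  have hN := D.hN x hx
  rw [← hNx] at hN
  have hs := D.hs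
  have hk := D.hk
  set A := (D.al Y c x).card
  set B := (nb D.G (D.X ∪ D.E) x).card
  set N := Nx.card
  have h1 : 8 * D.s ^ 6 * D.k ≤ 8 * D.s ^ 6 * A + 8 * D.s ^ 6 * B + 16 * D.s ^ 19 +
      8 * D.s ^ 7 * N := by
    calc 8 * D.s ^ 6 * D.k ≤ 8 * D.s ^ 6 * (A + (B + (D.s ^ 13 + (D.s ^ 13 + N * D.s)))) :=
          Nat.mul_le_mul_left _ hcard
      _ = _ := by ring
  have h2 : D.k ≤ 8 * D.s ^ 6 * A + 16 * D.s ^ 19 + 8 * D.s ^ 7 * N := by omega
  -- 16 s^19 ≤ k / 4 and 8 s^7 N ≤ k / 4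
  have h3 : 4 * (16 * D.s ^ 19) ≤ D.k := by
    refine le_trans ?_ hk
    have h4 : 64 ≤ D.s ^ 11 := by
      calc 64 ≤ D.s := by omega
        _ = D.s ^ 1 := (pow_one _).symm
        _ ≤ D.s ^ 11 := Nat.pow_le_pow_right D.s_pos (by norm_num)
    calc 4 * (16 * D.s ^ 19) = 64 * D.s ^ 19 := by ring
      _ ≤ D.s ^ 11 * D.s ^ 19 := Nat.mul_le_mul_right _ h4
      _ = D.s ^ 30 := by ring
  have h5 : 4 * (8 * D.s ^ 7 * N) ≤ D.k := by
    refine le_trans ?_ hN
    have h6 : 32 ≤ D.s := by omega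
    calc 4 * (8 * D.s ^ 7 * N) = 32 * (D.s ^ 7 * N) := by ring
      _ ≤ D.s * (D.s ^ 7 * N) := Nat.mul_le_mul_right _ h6
      _ = D.s ^ 8 * N := by ring
  have h7 : 16 * D.s ^ 6 * A = 2 * (8 * D.s ^ 6 * A) := by ring
  omega

/-- One-point extensions with an allowed colour. -/
def Dat.Ex (D : Dat V ι J) (Y : Finset V) (x : V) (c : V → Fin D.k) : Prop :=
  D.Ok Y (Function.update c x (D.c₀ x)) ∧ D.Al Y c x (c x)

open scoped Classical in
noncomputable def Dat.ext (D : Dat V ι J) (Y : Finset V) (x : V) : Finset (V → Fin D.k) :=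
  univ.filter fun c => D.Ex Y x c

lemma Dat.mem_ext (D : Dat V ι J) (Y : Finset V) (x : V) (c : V → Fin D.k) :
    c ∈ D.ext Y x ↔ D.Ex Y x c := by
  unfold Dat.ext
  simp

lemma Dat.ext_card_ge (D : Dat V ι J) (Y : Finset V) (hY : Y ⊆ D.E) (x : V) (hx : x ∈ D.E)
    (hxY : x ∉ Y) : D.k * (D.CC Y).card ≤ 16 * D.s ^ 6 * (D.ext Y x).card := by
  classical
  have hmaps : ∀ c ∈ D.ext Y x, Function.update c x (D.c₀ x) ∈ D.CC Y := by
    intro c hc
    rw [D.mem_ext] at hc
    rw [D.mem_CC]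
    exact hc.1
  have hfib := card_eq_sum_card_fiberwise (s := D.ext Y x)
    (f := fun c => Function.update c x (D.c₀ x)) (t := D.CC Y)
    (fun c hc => mem_coe.mpr (hmaps c (mem_coe.mp hc)))
  rw [hfib, mul_sum]
  calc D.k * (D.CC Y).card = ∑ c ∈ D.CC Y, D.k := by simp [mul_comm]
    _ ≤ _ := by
      refine sum_le_sum fun c hc => (D.al_card Y hY c x hx).trans (Nat.mul_le_mul_left _ ?_)
      rw [D.mem_CC] at hc
      have hcx : c x = D.c₀ x := hc.out x hxY
      refine card_le_card_of_injOn (fun z => Function.update c x z) ?_ ?_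
      · intro z hz
        have hz' : D.Al Y c x z := (D.mem_al Y c x z).mp (by exact_mod_cast hz)
        have h1 : Function.update (Function.update c x z) x (D.c₀ x) = c := by
          rw [Function.update_idem, ← hcx, Function.update_eq_self]
        refine mem_coe.mpr (mem_filter.mpr ⟨?_, h1⟩)
        rw [D.mem_ext]
        refine ⟨by rw [h1]; exact hc, ?_⟩
        show D.Al Y (Function.update c x z) x (Function.update c x z x)
        rw [Function.update_self]
        refine D.Al_congr Y c _ x z (fun u hu => ?_) hz'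
        refine Function.update_of_ne ?_ _ _
        rintro rfl
        rcases mem_union.mp hu with h | h
        · exact D.notMem_X hx h
        · exact hxY h
      · intro z _ z' _ h
        have := congrFun h x
        simpa using this

lemma Dat.ext_card_le (D : Dat V ι J) (Y : Finset V) (x : V) :
    (D.ext Y x).card ≤ D.k * (D.CC Y).card := by
  classical
  have hmaps : ∀ c ∈ D.ext Y x, Function.update c x (D.c₀ x) ∈ D.CC Y := by
    intro c hc
    rw [D.mem_ext] at hc
    rw [D.mem_CC]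
    exact hc.1
  have hfib := card_eq_sum_card_fiberwise (s := D.ext Y x)
    (f := fun c => Function.update c x (D.c₀ x)) (t := D.CC Y)
    (fun c hc => mem_coe.mpr (hmaps c (mem_coe.mp hc)))
  rw [hfib]
  calc _ ≤ ∑ c ∈ D.CC Y, D.k := by
        refine sum_le_sum fun c _ => ?_
        calc _ ≤ (univ : Finset (Fin D.k)).card := by
              refine card_le_card_of_injOn (fun c' => c' x) (fun _ _ => by simp) ?_
              intro c1 h1 c2 h2 h
              have h1' := (mem_filter.mp (mem_coe.mp h1)).2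
              have h2' := (mem_filter.mp (mem_coe.mp h2)).2
              funext v
              by_cases hv : v = x
              · rw [hv]
                exact h
              · have e1 := congrFun h1' v
                have e2 := congrFun h2' v
                simp only [Function.update_of_ne hv] at e1 e2
                rw [e1, e2]
          _ = D.k := by simp
    _ = _ := by simp [mul_comm]

end ExtC

end Pool.Agent.Helper14.Pcg
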