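import Pool.Agent.Helper14.Pcg.Defs

/-! # Proper conflict-free colouring: the reduction to the high vertices (module R) -/

set_option autoImplicit false
set_option linter.unusedSectionVars false

namespace Pool.Agent.Helper14.Pcg

open Finset

variable {V ι : Type*} [Fintype V] [DecidableEq V] [Fintype ι] [DecidableEq ι]

/-- Greedy colouring of the vertices of `Low` in the order given by `r`. -/
theorem greedy {k : ℕ} (r : V → ℕ) (hr : Function.Injective r) (Low : Finset V) (c₁ : V → Fin k)
    (F : V → (V → Fin k) → Finset (Fin k))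
    (hF : ∀ v ∈ Low, ∀ c c' : V → Fin k, (∀ u, (u ∉ Low ∨ r u < r v) → c u = c' u) →
      F v c = F v c')
    (hcard : ∀ v ∈ Low, ∀ c, (F v c).card < k) :
    ∃ c : V → Fin k, (∀ v ∉ Low, c v = c₁ v) ∧ ∀ v ∈ Low, c v ∉ F v c := by
  have key : ∀ n : ℕ, ∃ c : V → Fin k, (∀ v ∉ Low, c v = c₁ v) ∧
      ∀ v ∈ Low, r v < n → c v ∉ F v c := by
    intro n
    induction n with
    | zero => exact ⟨c₁, fun _ _ => rfl, fun v _ h => absurd h (Nat.not_lt_zero _)⟩
    | succ n ih =>
      obtain ⟨c, hc1, hc2⟩ := ih
      by_cases hex : ∃ v ∈ Low, r v = n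
      · obtain ⟨v, hv, hrv⟩ := hex
        obtain ⟨z, hz⟩ : ∃ z : Fin k, z ∉ F v c := by
          by_contra hno
          push Not at hno
          have h1 : (Finset.univ : Finset (Fin k)) ⊆ F v c := fun z _ => hno z
          have h2 := card_le_card h1
          have h3 := hcard v hv c
          rw [card_univ, Fintype.card_fin] at h2
          omega
        refine ⟨Function.update c v z, ?_, ?_⟩
        · intro u hu
          rw [Function.update_of_ne (by rintro rfl; exact hu hv)]
          exact hc1 u hu
        · intro u hu hun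
          have hsame : ∀ u' ∈ Low, r u' ≤ r v → F u' (Function.update c v z) = F u' c := by
            intro u' hu' hle
            apply hF u' hu'
            intro x hx
            rw [Function.update_of_ne]
            rintro rfl
            rcases hx with hx | hx
            · exact hx hv
            · omega
          rw [hsame u hu (by omega)]
          by_cases huv : u = v
          · subst huv
            rwa [Function.update_self]
          · rw [Function.update_of_ne huv]
            apply hc2 u hu
            have : r u ≠ r v := fun h => huv (hr h)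
            omega
      · push Not at hex
        refine ⟨c, hc1, fun u hu hun => hc2 u hu ?_⟩
        have := hex u hu
        omega
  obtain ⟨c, hc1, hc2⟩ := key (Finset.univ.sup r + 1)
  refine ⟨c, hc1, fun v hv => hc2 v hv ?_⟩
  have := Finset.le_sup (f := r) (mem_univ v)
  omega

theorem card_nb (G : SimpleGraph V) [DecidableRel G.Adj] (v : V) :
    (nb G univ v).card = G.degree v := by
  have : nb G univ v = G.neighborFinset v := by
    ext u
    simp [nb]
  rw [this]
  rfl

theorem mem_nb (G : SimpleGraph V) [DecidableRel G.Adj] (u v : V) :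
    u ∈ nb G univ v ↔ G.Adj v u := by
  simp [nb]

/-- A unique element. -/
theorem hasUniq_of {k : ℕ} {c : V → Fin k} {T : Finset V} {x : V} (hx : x ∈ T)
    (h : ∀ y ∈ T, y ≠ x → c y ≠ c x) : HasUniq c T := by
  refine ⟨c x, card_eq_one.2 ⟨x, ?_⟩⟩
  ext y
  simp only [mem_filter, mem_singleton]
  constructor
  · rintro ⟨hy, hc⟩
    by_contra hne
    exact h y hy hne hc
  · rintro rfl
    exact ⟨hx, rfl⟩

/-- MODULE R. -/
theorem reduction (G : SimpleGraph V) [DecidableRel G.Adj] (k s : ℕ) (hs : 3 ≤ s)
    (hk : (s + 1) ^ 2 ≤ k) (hdeg : ∀ v, G.degree v + 1 ≤ k)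
    (hyp : ∀ (G₀ G' : SimpleGraph V) [DecidableRel G₀.Adj] [DecidableRel G'.Adj]
      (_ : ∀ u v, G₀.Adj u v → G'.Adj u v) (I : Finset V) (S : I → Finset V)
      (_ : ∀ i, 3 ≤ (S i).card) (_ : ∀ i, (S i).card ≤ s)
      (_ : ∀ v, G'.degree v + hd S v + 1 ≤ k),
      ∃ c : V → Fin k, (∀ u v, G'.Adj u v → c u ≠ c v) ∧ (∀ i, HasUniq c (S i)) ∧
        ∀ w, s ≤ G₀.degree w → HasUniq c (nb G₀ Finset.univ w)) :
    ∃ c : V → Fin k, (∀ u v, G.Adj u v → c u ≠ c v) ∧
      ∀ v, 0 < G.degree v → HasUniq c (nb G Finset.univ v) := by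
  classical
  -- high vertices
  set H : Finset V := Finset.univ.filter fun v => s ≤ G.degree v with hH
  have memH : ∀ v, v ∈ H ↔ s ≤ G.degree v := fun v => by simp [hH]
  let G₀ : SimpleGraph V :=
    { Adj := fun u v => G.Adj u v ∧ u ∈ H ∧ v ∈ H
      symm := ⟨fun u v h => ⟨h.1.symm, h.2.2, h.2.1⟩⟩
      loopless := ⟨fun u h => G.loopless.irrefl u h.1⟩ }
  let G' : SimpleGraph V :=
    { Adj := fun u v => (G.Adj u v ∧ u ∈ H ∧ v ∈ H) ∨
        (u ≠ v ∧ u ∈ H ∧ v ∈ H ∧ ∃ w, w ∉ H ∧ nb G univ w = {u, v})
      symm := ⟨fun u v h => by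
        rcases h with h | ⟨h1, h2, h3, w, hw, hn⟩
        · exact Or.inl ⟨h.1.symm, h.2.2, h.2.1⟩
        · exact Or.inr ⟨h1.symm, h3, h2, w, hw, by rw [hn, pair_comm]⟩⟩
      loopless := ⟨fun u h => by
        rcases h with h | ⟨h1, -⟩
        · exact G.loopless.irrefl u h.1
        · exact h1 rfl⟩ }
  have hG₀ : ∀ u v, G₀.Adj u v ↔ G.Adj u v ∧ u ∈ H ∧ v ∈ H := fun u v => Iff.rfl
  have hG' : ∀ u v, G'.Adj u v ↔ (G.Adj u v ∧ u ∈ H ∧ v ∈ H) ∨
        (u ≠ v ∧ u ∈ H ∧ v ∈ H ∧ ∃ w, w ∉ H ∧ nb G univ w = {u, v}) := fun u v => Iff.rfl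
  set I : Finset V := Finset.univ.filter fun w => w ∉ H ∧ nb G univ w ⊆ H ∧ 3 ≤ (nb G univ w).card
    with hI
  set S : I → Finset V := fun w => nb G univ (w : V) with hS
  have memI : ∀ w, w ∈ I ↔ w ∉ H ∧ nb G univ w ⊆ H ∧ 3 ≤ (nb G univ w).card := fun w => by
    simp [hI]
  have hbud : ∀ v, G'.degree v + hd S v + 1 ≤ k := by
    intro v
    refine le_trans ?_ (hdeg v)
    rw [← card_nb G' v, ← card_nb G v]
    set A : Finset V := (nb G univ v).filter fun w => w ∈ H with hA
    set B : Finset V := (nb G univ v).filter fun w => w ∉ H ∧ (nb G univ w).card = 2 with hB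
    set C : Finset V := (nb G univ v).filter fun w => w ∉ H ∧ 3 ≤ (nb G univ w).card with hC
    have h1 : (nb G' univ v).card ≤ A.card + B.card := by
      have hsub : nb G' univ v ⊆ A ∪ B.biUnion fun w => (nb G univ w).erase v := by
        intro u hu
        rw [mem_nb, hG'] at hu
        rcases hu with ⟨hu, -, huH⟩ | ⟨hvu, hvH, huH, w, hwH, hn⟩
        · apply mem_union_left
          exact mem_filter.2 ⟨(mem_nb G u v).2 hu, huH⟩
        · apply mem_union_right
          rw [mem_biUnion]
          refine ⟨w, mem_filter.2 ⟨?_, hwH, ?_⟩, ?_⟩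
          · rw [mem_nb]
            have : v ∈ nb G univ w := by rw [hn]; simp
            exact ((mem_nb G v w).1 this).symm
          · rw [hn, card_pair hvu]
          · rw [hn]
            exact mem_erase.2 ⟨Ne.symm hvu, by simp⟩
      have hX : (B.biUnion fun w => (nb G univ w).erase v).card ≤ B.card * 1 := by
        apply card_biUnion_le_card_mul
        intro w hw
        obtain ⟨hw1, -, hw2⟩ := mem_filter.1 hw
        have hv : v ∈ nb G univ w := (mem_nb G v w).2 ((mem_nb G w v).1 hw1).symm
        rw [card_erase_of_mem hv, hw2]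
      have hY := card_union_le A (B.biUnion fun w => (nb G univ w).erase v)
      have hZ := card_le_card hsub
      omega
    have h2 : hd S v ≤ C.card := by
      unfold hd
      have : ((Finset.univ.filter fun i : I => v ∈ S i).image fun i : I => (i : V)) ⊆ C := by
        intro w hw
        obtain ⟨i, hi, rfl⟩ := mem_image.1 hw
        have hi1 : v ∈ nb G univ (i : V) := (mem_filter.1 hi).2
        have hi2 := (memI i).1 i.2
        exact mem_filter.2 ⟨(mem_nb G _ _).2 ((mem_nb G _ _).1 hi1).symm, hi2.1, hi2.2.2⟩
      rw [← card_image_of_injective _ Subtype.val_injective]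
      exact card_le_card this
    have h3 : A.card + B.card + C.card ≤ (nb G univ v).card := by
      have hAB : Disjoint A B := by
        rw [disjoint_left]
        intro w hw1 hw2
        exact (mem_filter.1 hw2).2.1 (mem_filter.1 hw1).2
      have hABC : Disjoint (A ∪ B) C := by
        rw [disjoint_left]
        intro w hw1 hw2
        have h4 := (mem_filter.1 hw2).2
        rcases mem_union.1 hw1 with h5 | h5
        · exact h4.1 (mem_filter.1 h5).2
        · have := (mem_filter.1 h5).2.2
          omega
      rw [← card_union_of_disjoint hAB, ← card_union_of_disjoint hABC]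
      apply card_le_card
      intro w hw
      rcases mem_union.1 hw with hw | hw
      · rcases mem_union.1 hw with hw | hw
        · exact (mem_filter.1 hw).1
        · exact (mem_filter.1 hw).1
      · exact (mem_filter.1 hw).1
    omega
  obtain ⟨c₁, hc₁, hcS, hcH⟩ := hyp G₀ G' (fun u v h => Or.inl h) I S
    (fun i => ((memI i).1 i.2).2.2)
    (fun i => by
      have := ((memI i).1 i.2).1
      rw [memH] at this
      have h2 := card_nb G (i : V)
      show (nb G univ (i : V)).card ≤ s
      omega) hbud
  -- the order and the first low neighbour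
  set r : V → ℕ := fun v => ((Fintype.equivFin V) v : ℕ) with hr
  have hrinj : Function.Injective r := fun u v h =>
    (Fintype.equivFin V).injective (Fin.val_injective h)
  have hlam : ∀ w, ∃ l : V, (∃ v ∈ nb G univ w, v ∉ H) → l ∈ nb G univ w ∧ l ∉ H ∧
      ∀ v ∈ nb G univ w, v ∉ H → r l ≤ r v := by
    intro w
    by_cases h : ∃ v ∈ nb G univ w, v ∉ H
    · obtain ⟨l, hl, hmin⟩ := exists_min_image ((nb G univ w).filter fun v => v ∉ H) r
        (by obtain ⟨v, hv, hvH⟩ := h; exact ⟨v, mem_filter.2 ⟨hv, hvH⟩⟩)
      exact ⟨l, fun _ => ⟨(mem_filter.1 hl).1, (mem_filter.1 hl).2,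
        fun v hv hvH => hmin v (mem_filter.2 ⟨hv, hvH⟩)⟩⟩
    · exact ⟨w, fun h' => absurd h' h⟩
  choose lam hlam using hlam
  have hkap : ∀ w, ∃ κ : Fin k, s ≤ G₀.degree w →
      ((nb G₀ univ w).filter fun u => c₁ u = κ).card = 1 := by
    intro w
    by_cases h : s ≤ G₀.degree w
    · obtain ⟨κ, hκ⟩ := hcH w h
      exact ⟨κ, fun _ => hκ⟩
    · exact ⟨c₁ w, fun h' => absurd h' h⟩
  choose kap hkap using hkap
  set NH : V → Finset V := fun w => (nb G univ w).filter fun u => u ∈ H with hNH
  set A : V → V → (V → Fin k) → Finset (Fin k) := fun v w c =>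
    if s ≤ G₀.degree w then {kap w} else if lam w = v then (NH w).image c else {c (lam w)} with hA
  set F : V → (V → Fin k) → Finset (Fin k) := fun v c =>
    (((nb G univ v).filter fun u => u ∈ H ∨ r u < r v).image c) ∪
      (nb G univ v).biUnion fun w => A v w c with hFdef
  have hlow : ∀ v, v ∈ Hᶜ ↔ v ∉ H := fun v => mem_compl
  have hG₀deg : ∀ w, G₀.degree w = if w ∈ H then (NH w).card else 0 := by
    intro w
    rw [← card_nb G₀ w]
    split_ifs with hw
    · congr 1
      ext u
      simp only [nb, mem_filter, mem_univ, true_and, hG₀, hNH]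
      tauto
    · rw [card_eq_zero, eq_empty_iff_forall_notMem]
      intro u hu
      exact hw ((hG₀ w u).1 ((mem_nb G₀ u w).1 hu)).2.1
  have hNHlt : ∀ w, ¬ s ≤ G₀.degree w → (NH w).card < s := by
    intro w hw
    rw [hG₀deg] at hw
    split_ifs at hw with hwH
    · omega
    · rw [memH, ← card_nb] at hwH
      have : (NH w).card ≤ (nb G univ w).card := card_le_card (filter_subset _ _)
      omega
  have hFloc : ∀ v ∈ Hᶜ, ∀ c c' : V → Fin k, (∀ u, (u ∉ Hᶜ ∨ r u < r v) → c u = c' u) →
      F v c = F v c' := by
    intro v hv c c' hcc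
    rw [hlow] at hv
    have hcc' : ∀ u, (u ∈ H ∨ r u < r v) → c u = c' u := by
      intro u hu
      apply hcc u
      rw [hlow]
      tauto
    simp only [hFdef]
    congr 1
    · apply image_congr
      intro u hu
      exact hcc' u (mem_filter.1 (mem_coe.1 hu)).2
    · apply biUnion_congr rfl
      intro w hw
      simp only [hA]
      split_ifs with h1 h2
      · rfl
      · apply image_congr
        intro u hu
        exact hcc' u (Or.inl (mem_filter.1 (mem_coe.1 hu)).2)
      · have hvw : v ∈ nb G univ w := (mem_nb G v w).2 ((mem_nb G w v).1 hw).symm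
        obtain ⟨h3, h4, h5⟩ := hlam w ⟨v, hvw, hv⟩
        have h6 := h5 v hvw hv
        have h7 : r (lam w) ≠ r v := fun h => h2 (hrinj h)
        rw [hcc' (lam w) (Or.inr (by omega))]
  have hFcard : ∀ v ∈ Hᶜ, ∀ c, (F v c).card < k := by
    intro v hv c
    rw [hlow, memH, ← card_nb] at hv
    simp only [hFdef]
    have h1 : (((nb G univ v).filter fun u => u ∈ H ∨ r u < r v).image c).card ≤ s - 1 := by
      refine card_image_le.trans ((card_le_card (filter_subset _ _)).trans ?_)
      omega
    have h2 : ((nb G univ v).biUnion fun w => A v w c).card ≤ (s - 1) * (s - 1) := by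
      refine (card_biUnion_le_card_mul _ _ (s - 1) ?_).trans
        (Nat.mul_le_mul_right _ (by omega))
      intro w _
      simp only [hA]
      split_ifs with h1 h2
      · rw [card_singleton]; omega
      · refine card_image_le.trans ?_
        have := hNHlt w h1
        omega
      · rw [card_singleton]; omega
    have h3 := card_union_le (((nb G univ v).filter fun u => u ∈ H ∨ r u < r v).image c)
      ((nb G univ v).biUnion fun w => A v w c)
    obtain ⟨t, rfl⟩ : ∃ t, s = t + 1 := ⟨s - 1, by omega⟩
    simp only [Nat.add_sub_cancel] at h1 h2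
    nlinarith
  obtain ⟨c, hcH', hcF⟩ := greedy r hrinj Hᶜ c₁ F hFloc hFcard
  have hcc : ∀ v ∈ H, c v = c₁ v := fun v hv => hcH' v (by rw [hlow]; simpa using hv)
  have hF1 : ∀ v ∉ H, ∀ u ∈ nb G univ v, (u ∈ H ∨ r u < r v) → c v ≠ c u := by
    intro v hv u hu hur h
    apply hcF v ((hlow v).2 hv)
    simp only [hFdef]
    apply mem_union_left
    rw [h]
    exact mem_image_of_mem c (mem_filter.2 ⟨hu, hur⟩)
  have hF2 : ∀ v ∉ H, ∀ w ∈ nb G univ v, c v ∉ A v w c := by
    intro v hv w hw h
    apply hcF v ((hlow v).2 hv)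
    simp only [hFdef]
    apply mem_union_right
    exact mem_biUnion.2 ⟨w, hw, h⟩
  refine ⟨c, ?_, ?_⟩
  · intro u v huv
    have huv' : u ∈ nb G univ v := (mem_nb G u v).2 huv.symm
    have hvu' : v ∈ nb G univ u := (mem_nb G v u).2 huv
    by_cases hu : u ∈ H
    · by_cases hv : v ∈ H
      · rw [hcc u hu, hcc v hv]
        exact hc₁ u v (Or.inl ⟨huv, hu, hv⟩)
      · exact (hF1 v hv u huv' (Or.inl hu)).symm
    · by_cases hv : v ∈ H
      · exact hF1 u hu v hvu' (Or.inl hv)
      · have hne : r u ≠ r v := fun h => G.loopless.irrefl u (by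
          have := hrinj h
          rw [← this] at huv
          exact huv)
        rcases lt_or_gt_of_ne hne with h | h
        · exact (hF1 v hv u huv' (Or.inr h)).symm
        · exact hF1 u hu v hvu' (Or.inr h)
  · intro w hw
    rw [← card_nb] at hw
    by_cases hbig : s ≤ G₀.degree w
    · refine ⟨kap w, ?_⟩
      rw [← hkap w hbig]
      congr 1
      have hwH : w ∈ H := by
        by_contra h
        rw [hG₀deg, if_neg h] at hbig
        omega
      ext u
      simp only [nb, mem_filter, mem_univ, true_and, hG₀]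
      constructor
      · rintro ⟨h1, h2⟩
        by_cases hu : u ∈ H
        · exact ⟨⟨h1, hwH, hu⟩, by rw [← hcc u hu, h2]⟩
        · exfalso
          have := hF2 u hu w ((mem_nb G w u).2 h1.symm)
          apply this
          simp only [hA]
          rw [if_pos hbig, mem_singleton]
          exact h2
      · rintro ⟨⟨h1, -, h2⟩, h3⟩
        exact ⟨h1, by rw [hcc u h2, h3]⟩
    · by_cases hlo : ∃ v ∈ nb G univ w, v ∉ H
      · obtain ⟨h1, h2, h3⟩ := hlam w hlo
        apply hasUniq_of h1
        intro y hy hne
        by_cases hyH : y ∈ H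
        · have := hF2 (lam w) h2 w ((mem_nb G _ _).2 ((mem_nb G _ _).1 h1).symm)
          simp only [hA] at this
          rw [if_neg hbig, if_true] at this
          intro h
          apply this
          rw [← h]
          exact mem_image_of_mem c (mem_filter.2 ⟨hy, hyH⟩)
        · have := hF2 y hyH w ((mem_nb G _ _).2 ((mem_nb G _ _).1 hy).symm)
          simp only [hA] at this
          rw [if_neg hbig, if_neg (Ne.symm hne), mem_singleton] at this
          exact this
      · push Not at hlo
        have hwH : w ∉ H := by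
          intro hwH
          apply hbig
          rw [hG₀deg, if_pos hwH]
          have : NH w = nb G univ w := filter_true_of_mem hlo
          rw [this, card_nb]
          exact (memH w).1 hwH
        obtain h1 | h1 | h1 : (nb G univ w).card = 1 ∨ (nb G univ w).card = 2 ∨
            3 ≤ (nb G univ w).card := by omega
        · obtain ⟨u, hu⟩ := card_eq_one.1 h1
          rw [hu]
          apply hasUniq_of (mem_singleton_self u)
          intro y hy hne
          exact absurd (mem_singleton.1 hy) hne
        · obtain ⟨u, v, huv, hn⟩ := card_eq_two.1 h1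
          have huH : u ∈ H := hlo u (by rw [hn]; simp)
          have hvH : v ∈ H := hlo v (by rw [hn]; simp)
          have hne : c u ≠ c v := by
            rw [hcc u huH, hcc v hvH]
            exact hc₁ u v (Or.inr ⟨huv, huH, hvH, w, hwH, hn⟩)
          rw [hn]
          apply hasUniq_of (x := u) (by simp)
          intro y hy hyu
          rcases mem_insert.1 hy with h | h
          · exact absurd h hyu
          · rw [mem_singleton.1 h]
            exact hne.symm
        · have hwI : w ∈ I := (memI w).2 ⟨hwH, hlo, h1⟩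
          obtain ⟨κ, hκ⟩ := hcS ⟨w, hwI⟩
          refine ⟨κ, ?_⟩
          rw [← hκ]
          congr 1
          apply filter_congr
          intro u hu
          rw [hcc u (hlo u hu)]

end Pool.Agent.Helper14.Pcg
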