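import Pool.Agent.Helper70.Pcg.Hyper
import Pool.Agent.Helper14.Pcg.Red

/-! # Proper conflict-free colouring of all graphs of large maximum degree -/

set_option autoImplicit false
set_option linter.unusedSectionVars false

namespace Pool.Agent.Helper14.Pcg

open Finset Filter

/-- The threshold. -/
theorem exists_threshold : ∃ D : ℕ, ∀ n : ℕ, D ≤ n →
    3 ≤ n ∧ (8000 * 10 ^ 11 * ⌈Real.log n⌉₊) ^ 30 ≤ n + 1 := by
  have h1 : (fun x : ℝ => Real.log x ^ 30) =o[atTop] (id : ℝ → ℝ) :=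
    Real.isLittleO_pow_log_id_atTop
  have h2 : (0 : ℝ) < 1 / (16000 * 10 ^ 11) ^ 30 := by positivity
  have h3 := h1.def h2
  have h4 : ∀ᶠ n : ℕ in atTop, ‖Real.log (n : ℝ) ^ 30‖ ≤
      1 / (16000 * 10 ^ 11) ^ 30 * ‖(id (n : ℝ) : ℝ)‖ :=
    tendsto_natCast_atTop_atTop.eventually h3
  obtain ⟨D, hD⟩ := eventually_atTop.mp h4
  refine ⟨max D 3, fun n hn => ?_⟩
  have hn3 : 3 ≤ n := (le_max_right _ _).trans hn
  refine ⟨hn3, ?_⟩
  have h5 := hD n ((le_max_left _ _).trans hn)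
  have hnR : (3 : ℝ) ≤ n := by exact_mod_cast hn3
  have hlog : 1 ≤ Real.log n := by
    rw [Real.le_log_iff_exp_le (by linarith)]
    have := Real.exp_one_lt_d9
    linarith
  have hc : (⌈Real.log n⌉₊ : ℝ) ≤ 2 * Real.log n := by
    have := (Nat.ceil_lt_add_one (show 0 ≤ Real.log n by linarith)).le
    linarith
  rw [Real.norm_of_nonneg (by positivity), id, Real.norm_of_nonneg (by linarith)] at h5
  have h6 : ((8000 * 10 ^ 11 * ⌈Real.log n⌉₊ : ℕ) : ℝ) ^ 30 ≤ n := by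
    calc ((8000 * 10 ^ 11 * ⌈Real.log n⌉₊ : ℕ) : ℝ) ^ 30
        = (8000 * 10 ^ 11 * (⌈Real.log n⌉₊ : ℝ)) ^ 30 := by push_cast; ring
      _ ≤ (8000 * 10 ^ 11 * (2 * Real.log n)) ^ 30 := by gcongr
      _ = (16000 * 10 ^ 11) ^ 30 * Real.log n ^ 30 := by ring
      _ ≤ (16000 * 10 ^ 11) ^ 30 * (1 / (16000 * 10 ^ 11) ^ 30 * n) := by gcongr
      _ = n := by
          rw [← mul_assoc, mul_one_div_cancel (by positivity), one_mul]
  have h7 : (8000 * 10 ^ 11 * ⌈Real.log n⌉₊) ^ 30 ≤ n := by exact_mod_cast h6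
  omega

theorem exists_coloring_large : ∃ D : ℕ, ∀ (V : Type) [Fintype V] [DecidableEq V]
    (G : SimpleGraph V) [DecidableRel G.Adj], D ≤ G.maxDegree →
    ∃ c : V → Fin (G.maxDegree + 1), (∀ u v, G.Adj u v → c u ≠ c v) ∧
      ∀ v, 0 < G.degree v → HasUniq c (nb G Finset.univ v) := by
  obtain ⟨D, hD⟩ := exists_threshold
  refine ⟨D, fun V _ _ G _ hΔ => ?_⟩
  obtain ⟨h3, hk⟩ := hD _ hΔ
  set n := G.maxDegree with hn
  set m : ℕ := ⌈Real.log n⌉₊ with hm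
  have hnR : (3 : ℝ) ≤ n := by exact_mod_cast h3
  have hlog : 1 ≤ Real.log n := by
    rw [Real.le_log_iff_exp_le (by linarith)]
    have := Real.exp_one_lt_d9
    linarith
  have hm1 : 1 ≤ m := by
    have : (1 : ℝ) ≤ m := hlog.trans (Nat.le_ceil _)
    exact_mod_cast this
  have hexp : (n : ℝ) ≤ Real.exp m := by
    rw [← Real.log_le_iff_le_exp (by linarith)]
    exact Nat.le_ceil _
  have hke : ((n + 1 : ℕ) : ℝ) ≤ 2 * Real.exp m := by
    push_cast
    linarith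
  have hs3 : 3 ≤ 8000 * 10 ^ 11 * m := by omega
  have hs2 : (8000 * 10 ^ 11 * m + 1) ^ 2 ≤ n + 1 := by
    refine le_trans ?_ hk
    set t := 8000 * 10 ^ 11 * m with ht
    calc (t + 1) ^ 2 ≤ (t ^ 2) ^ 2 := by
          apply Nat.pow_le_pow_left
          nlinarith
      _ = t ^ 4 := by ring
      _ ≤ t ^ 30 := Nat.pow_le_pow_right (by omega) (by norm_num)
  apply reduction G (n + 1) (8000 * 10 ^ 11 * m) hs3 hs2
    (fun v => Nat.add_le_add_right (G.degree_le_maxDegree v) 1)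
  intro G₀ G' _ _ hG I S h3S hS hbud
  exact hyper G₀ G' hG S hm1 rfl hk hke h3S hS hbud

end Pool.Agent.Helper14.Pcg
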