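import Pool.Agent.Helper14.Pcg.Defs

/-! # Proper conflict-free colouring: the late vertices are coloured greedily (module L) -/

set_option autoImplicit false
set_option linter.unusedSectionVars false

namespace Pool.Agent.Helper14.Pcg

open Finset

variable {V ι : Type*} [Fintype V] [DecidableEq V] [Fintype ι] [DecidableEq ι]

/-- The invariant of the late greedy colouring. -/
def LInv {k : ℕ} (S : ι → Finset V) (Y : Finset V) (c : V → Fin k) (i : ι) : Prop :=
  S i ∩ Y = ∅ ∨ HasUniq c (S i ∩ Y) ∨ ∃ u v, u ≠ v ∧ S i ∩ Y = {u, v} ∧ c u = c v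

theorem linv_of_one {k : ℕ} (S : ι → Finset V) (X : Finset V) (c : V → Fin k) (i : ι)
    (h : One S X c i) : LInv S X c i := by
  by_cases h0 : S i ∩ X = ∅
  · exact Or.inl h0
  right
  by_cases hc : ∃ u ∈ S i ∩ X, ∃ v ∈ S i ∩ X, u ≠ v ∧ c u = c v
  · obtain ⟨u, hu, v, hv, huv, hcuv⟩ := hc
    by_cases hT : S i ∩ X = {u, v}
    · exact Or.inr ⟨u, v, huv, hT, hcuv⟩
    · left
      have hsub : ({u, v} : Finset V) ⊆ S i ∩ X := by
        intro w hw
        rcases mem_insert.1 hw with rfl | hw
        · exact hu
        · rw [mem_singleton.1 hw]; exact hv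
      obtain ⟨w, hw, hwn⟩ := exists_of_ssubset (Finset.ssubset_iff_subset_ne.2 ⟨hsub, Ne.symm hT⟩)
      refine ⟨c w, ?_⟩
      rw [card_eq_one]
      refine ⟨w, ?_⟩
      ext w'
      simp only [mem_filter, mem_singleton]
      constructor
      · rintro ⟨hw', hcw⟩
        by_contra hne
        have := h w' hw' w hw u hu v hv hne huv hcw hcuv
        apply hwn
        rw [← this]
        simp
      · rintro rfl
        exact ⟨hw, rfl⟩
  · left
    push Not at hc
    obtain ⟨w, hw⟩ := nonempty_iff_ne_empty.2 h0
    refine ⟨c w, ?_⟩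
    rw [card_eq_one]
    refine ⟨w, ?_⟩
    ext w'
    simp only [mem_filter, mem_singleton]
    constructor
    · rintro ⟨hw', hcw⟩
      by_contra hne
      exact hc w' hw' w hw hne hcw
    · rintro rfl
      exact ⟨hw, rfl⟩

/-- The forbidden colour of a set. -/
theorem exists_forb {k : ℕ} (S : ι → Finset V) (Y : Finset V) (c : V → Fin k) (i : ι)
    (h : LInv S Y c i) (x : V) (hx : x ∉ Y) (hxi : x ∈ S i) :
    S i ∩ Y = ∅ ∨ ∃ κ : Fin k, ∀ z ≠ κ, LInv S (insert x Y) (Function.update c x z) i := by
  have hT : S i ∩ insert x Y = insert x (S i ∩ Y) := inter_insert_of_mem hxi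
  have hxT : x ∉ S i ∩ Y := fun h => hx (mem_inter.1 h).2
  rcases h with h | ⟨κ, hκ⟩ | ⟨u, v, huv, hTuv, hc⟩
  · exact Or.inl h
  · right
    refine ⟨κ, fun z hz => Or.inr (Or.inl ⟨κ, ?_⟩)⟩
    rw [hT, filter_insert]
    have : ¬ Function.update c x z x = κ := by simpa using hz
    rw [if_neg this, ← hκ]
    congr 1
    apply filter_congr
    intro w hw
    rw [Function.update_of_ne (by rintro rfl; exact hxT hw)]
  · right
    refine ⟨c u, fun z hz => Or.inr (Or.inl ⟨z, ?_⟩)⟩
    rw [hT, filter_insert, hTuv]
    have hxu : x ≠ u := by rintro rfl; exact hxT (by rw [hTuv]; simp)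
    have hxv : x ≠ v := by rintro rfl; exact hxT (by rw [hTuv]; simp)
    have : Function.update c x z x = z := by simp
    rw [if_pos this]
    have h0 : (({u, v} : Finset V).filter fun w => Function.update c x z w = z) = ∅ := by
      rw [filter_eq_empty_iff]
      intro w hw
      rcases mem_insert.1 hw with rfl | hw
      · rw [Function.update_of_ne (Ne.symm hxu)]
        exact Ne.symm hz
      · rw [mem_singleton.1 hw, Function.update_of_ne (Ne.symm hxv), ← hc]
        exact Ne.symm hz
    rw [h0]
    simp

/-- MODULE L. -/
theorem late_greedy (G : SimpleGraph V) [DecidableRel G.Adj] (S : ι → Finset V) {k : ℕ}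
    (h3 : ∀ i, 3 ≤ (S i).card) (X : Finset V) (c₀ : V → Fin k)
    (hc₀ : ∀ u ∈ X, ∀ v ∈ X, G.Adj u v → c₀ u ≠ c₀ v) (h1 : ∀ i, One S X c₀ i)
    (hbud : ∀ v ∉ X, G.degree v + hd S v + 1 ≤ k) :
    ∃ c : V → Fin k, (∀ v ∈ X, c v = c₀ v) ∧ (∀ u v, G.Adj u v → c u ≠ c v) ∧
      ∀ i, HasUniq c (S i) := by
  have key : ∀ W : Finset V, Disjoint W X → ∃ c : V → Fin k, (∀ v ∈ X, c v = c₀ v) ∧
      (∀ u ∈ W ∪ X, ∀ v ∈ W ∪ X, G.Adj u v → c u ≠ c v) ∧ ∀ i, LInv S (W ∪ X) c i := by
    intro W
    induction W using Finset.induction_on with
    | empty =>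
      intro _
      refine ⟨c₀, fun _ _ => rfl, ?_, ?_⟩
      · simpa using hc₀
      · intro i
        rw [empty_union]
        exact linv_of_one S X c₀ i (h1 i)
    | insert x W hxW ih =>
      intro hd'
      rw [disjoint_insert_left] at hd'
      obtain ⟨c, hcX, hcp, hcI⟩ := ih hd'.2
      have hxX := hd'.1
      have hxY : x ∉ W ∪ X := by simp [hxW, hxX]
      -- forbidden colours
      have hfe : ∀ i, ∃ κ : Option (Fin k), x ∈ S i → ∀ z : Fin k, some z ≠ κ →
          LInv S (insert x (W ∪ X)) (Function.update c x z) i := by
        intro i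
        by_cases hxi : x ∈ S i
        · rcases exists_forb S (W ∪ X) c i (hcI i) x hxY hxi with h | ⟨κ, hκ⟩
          · refine ⟨none, fun _ z _ => Or.inr (Or.inl ⟨z, ?_⟩)⟩
            rw [inter_insert_of_mem hxi, h, filter_insert]
            simp
          · exact ⟨some κ, fun _ z hz => hκ z (fun h => hz (by rw [h]))⟩
        · exact ⟨none, fun h => absurd h hxi⟩
      choose f hf using hfe
      set A : Finset (Option (Fin k)) := (univ.filter fun i => x ∈ S i).image f with hA
      set B : Finset (Option (Fin k)) := (G.neighborFinset x).image fun v => some (c v) with hB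
      have hcard : (A ∪ B).card < k := by
        have h1 : A.card ≤ hd S x := card_image_le
        have h2 : B.card ≤ G.degree x := card_image_le
        have h3 := card_union_le A B
        have h4 := hbud x hxX
        omega
      obtain ⟨z, hz⟩ : ∃ z : Fin k, some z ∉ A ∪ B := by
        by_contra hno
        push Not at hno
        have : (univ.image (some : Fin k → Option (Fin k))).card ≤ (A ∪ B).card :=
          card_le_card (by
            intro o ho
            obtain ⟨z, -, rfl⟩ := mem_image.1 ho
            exact hno z)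
        rw [card_image_of_injective _ (Option.some_injective _), card_univ, Fintype.card_fin] at this
        omega
      rw [mem_union, not_or] at hz
      refine ⟨Function.update c x z, ?_, ?_, ?_⟩
      · intro v hv
        rw [Function.update_of_ne (by rintro rfl; exact hxX hv)]
        exact hcX v hv
      · have hzB : ∀ v, G.Adj x v → z ≠ c v := by
          intro v hv h
          apply hz.2
          rw [hB, mem_image]
          exact ⟨v, by simpa using hv, by rw [h]⟩
        intro u hu v hv huv
        rw [insert_union, mem_insert] at hu hv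
        by_cases hux : u = x
        · subst hux
          have hvx : v ≠ u := fun h => G.loopless.irrefl u (h ▸ huv)
          rw [Function.update_self, Function.update_of_ne hvx]
          exact hzB v huv
        · by_cases hvx : v = x
          · subst hvx
            rw [Function.update_self, Function.update_of_ne hux]
            exact (hzB u huv.symm).symm
          · rw [Function.update_of_ne hux, Function.update_of_ne hvx]
            exact hcp u (hu.resolve_left hux) v (hv.resolve_left hvx) huv
      · intro i
        rw [insert_union]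
        by_cases hxi : x ∈ S i
        · apply hf i hxi z
          intro h
          apply hz.1
          rw [hA, mem_image]
          exact ⟨i, by simpa using hxi, h.symm⟩
        · have hT : S i ∩ insert x (W ∪ X) = S i ∩ (W ∪ X) := inter_insert_of_notMem hxi
          have hne : ∀ w ∈ S i ∩ (W ∪ X), w ≠ x := by
            rintro w hw rfl
            exact hxi (mem_inter.1 hw).1
          rcases hcI i with h | ⟨κ, hκ⟩ | ⟨u, v, huv, hTuv, hc⟩
          · left
            rw [hT, h]
          · right; left
            refine ⟨κ, ?_⟩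
            rw [hT, ← hκ]
            congr 1
            apply filter_congr
            intro w hw
            rw [Function.update_of_ne (hne w hw)]
          · right; right
            refine ⟨u, v, huv, by rw [hT, hTuv], ?_⟩
            rw [Function.update_of_ne (hne u (by rw [hTuv]; simp)),
              Function.update_of_ne (hne v (by rw [hTuv]; simp)), hc]
  obtain ⟨c, hcX, hcp, hcI⟩ := key Xᶜ disjoint_compl_left
  have hU : Xᶜ ∪ X = univ := by
    ext v
    simp only [mem_union, mem_compl, mem_univ, iff_true]
    tauto
  rw [hU] at hcp hcI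
  refine ⟨c, hcX, fun u v => hcp u (mem_univ _) v (mem_univ _), fun i => ?_⟩
  have := h3 i
  rcases hcI i with h | h | ⟨u, v, huv, hTuv, -⟩
  · rw [inter_univ] at h
    rw [h] at this
    simp at this
  · rwa [inter_univ] at h
  · rw [inter_univ] at hTuv
    rw [hTuv, card_pair huv] at this
    omega

end Pool.Agent.Helper14.Pcg
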