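import Pool.Agent.Helper14.Pcf.Ops
import Pool.Agent.Helper14.Pcg.Defs

/-! # Local recolouring operations with forbidden colours and forbidden blockers -/

set_option autoImplicit false
set_option linter.unusedSectionVars false

namespace Pool.Agent.Helper14.Pcg

open Finset Pool.Agent.Helper14.Pcf

variable {V : Type*} [Fintype V] [DecidableEq V]

section

variable (G : SimpleGraph V) [DecidableRel G.Adj] {k : ℕ}

/-- The escape colours for one vertex. -/
theorem exists_escape_one (c : V → Fin k) (hc : ∀ u v, G.Adj u v → c u ≠ c v) (a : V)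
    (H : Finset (Fin k)) (h : ℕ) (hH : 2 * H.card ≤ h) (hdeg : G.degree a + h + 1 ≤ k) :
    ∃ g : V → Fin k,
      (∀ u, G.Adj a u → (2 ≤ cnt G c a (c u) ∨ c u ∈ H) →
        (∀ v, G.Adj a v → c v ≠ g u) ∧ g u ≠ c a ∧ g u ∉ H) ∧
      (∀ z, ((G.neighborFinset a).filter
        fun u => (2 ≤ cnt G c a (c u) ∨ c u ∈ H) ∧ g u = z).card ≤ 2) := by
  classical
  have : Nonempty (Fin k) := ⟨c a⟩
  set R1 := (G.neighborFinset a).filter fun u => 2 ≤ cnt G c a (c u) with hR1
  set R2 := (G.neighborFinset a).filter fun u => ¬ 2 ≤ cnt G c a (c u) ∧ c u ∈ H with hR2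
  set R := (G.neighborFinset a).filter fun u => (2 ≤ cnt G c a (c u) ∨ c u ∈ H) with hR
  set Im := (G.neighborFinset a).image c with hIm
  set M : Finset (Fin k) := (insert (c a) Im ∪ H)ᶜ with hM
  have hca : c a ∉ Im := by
    intro h
    obtain ⟨u, hu, hcu⟩ := Finset.mem_image.mp h
    rw [SimpleGraph.mem_neighborFinset] at hu
    exact hc a u hu hcu.symm
  have hMcard : k ≤ M.card + (Im.card + 1 + H.card) := by
    have h1 : (insert (c a) Im ∪ H).card ≤ Im.card + 1 + H.card := by
      refine (Finset.card_union_le _ _).trans ?_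
      rw [Finset.card_insert_of_notMem hca]
    have h2 : M.card = k - (insert (c a) Im ∪ H).card := by
      rw [hM, Finset.card_compl, Fintype.card_fin]
    omega
  have hd : G.degree a = ∑ z ∈ Im, cnt G c a z := by
    rw [← SimpleGraph.card_neighborFinset_eq_degree]
    rw [Finset.card_eq_sum_card_fiberwise (f := c) (t := Im)
      (fun u hu => Finset.mem_image_of_mem c hu)]
    rfl
  have hRc : R1.card = ∑ z ∈ Im, (R1.filter fun u => c u = z).card :=
    Finset.card_eq_sum_card_fiberwise (f := c) (t := Im)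
      (fun u hu => Finset.mem_image_of_mem c (Finset.mem_filter.mp hu).1)
  have hterm : ∀ z ∈ Im, (R1.filter fun u => c u = z).card + 2 ≤ 2 * cnt G c a z := by
    intro z hz
    obtain ⟨u, hu, hcu⟩ := Finset.mem_image.mp hz
    rw [SimpleGraph.mem_neighborFinset] at hu
    have h1 : 1 ≤ cnt G c a z := hcu ▸ cnt_pos hu
    by_cases h2 : 2 ≤ cnt G c a z
    · have h3 : (R1.filter fun u => c u = z).card ≤ cnt G c a z := by
        unfold cnt
        apply Finset.card_le_card
        intro v hv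
        have h4 := Finset.mem_filter.mp hv
        exact Finset.mem_filter.mpr ⟨(Finset.mem_filter.mp h4.1).1, h4.2⟩
      omega
    · have h3 : (R1.filter fun u => c u = z) = ∅ := by
        rw [Finset.eq_empty_iff_forall_notMem]
        intro v hv
        have h4 := Finset.mem_filter.mp hv
        have h5 := (Finset.mem_filter.mp h4.1).2
        rw [h4.2] at h5
        exact h2 h5
      rw [h3]
      simp only [Finset.card_empty]
      omega
  have hsum : R1.card + 2 * Im.card ≤ 2 * G.degree a := by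
    rw [hRc, hd, Finset.mul_sum]
    have := Finset.sum_le_sum hterm
    rw [Finset.sum_add_distrib, Finset.sum_const, smul_eq_mul] at this
    linarith
  have hR2c : R2.card ≤ H.card := by
    apply Finset.card_le_card_of_injOn c
    · intro u hu
      exact (Finset.mem_filter.mp hu).2.2
    · intro u hu v hv huv
      have h1 := Finset.mem_filter.mp (Finset.mem_coe.mp hu)
      have h2 := Finset.mem_filter.mp (Finset.mem_coe.mp hv)
      have h3 : cnt G c a (c u) ≤ 1 := by have := h1.2.1; omega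
      exact eq_of_cnt_le_one h3 (by simpa using h1.1) (by simpa using h2.1) rfl huv.symm
  have hRsub : R ⊆ R1 ∪ R2 := by
    intro u hu
    have h1 := Finset.mem_filter.mp hu
    by_cases h2 : 2 ≤ cnt G c a (c u)
    · exact Finset.mem_union_left _ (Finset.mem_filter.mpr ⟨h1.1, h2⟩)
    · refine Finset.mem_union_right _ (Finset.mem_filter.mpr ⟨h1.1, h2, ?_⟩)
      rcases h1.2 with h3 | h3
      · exact absurd h3 h2
      · exact h3
  have hRcard : R.card ≤ R1.card + R2.card :=
    (Finset.card_le_card hRsub).trans (Finset.card_union_le _ _)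
  have hcard : R.card ≤ 2 * M.card := by
    omega
  obtain ⟨g, hg1, hg2⟩ := exists_two_to_one R M hcard
  refine ⟨g, ?_, ?_⟩
  · intro u hu h2
    have h3 := hg1 u (Finset.mem_filter.mpr ⟨by simpa using hu, h2⟩)
    rw [hM, Finset.mem_compl, Finset.mem_union, Finset.mem_insert, not_or, not_or] at h3
    refine ⟨fun v hv hcv => h3.1.2 ?_, h3.1.1, h3.2⟩
    rw [← hcv]
    exact Finset.mem_image_of_mem c (by simpa using hv)
  · intro z
    have h3 := hg2 z
    rw [hR, Finset.filter_filter] at h3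
    exact h3

end

variable (G₀ G : SimpleGraph V) [DecidableRel G₀.Adj] [DecidableRel G.Adj] {k : ℕ}

/-- The data of the recolouring: `G` is the graph for properness, `G₀` the graph of the targets,
`hm v` the forbidden new colours of `v`, `bad v` says that `v` must not be a blocker. -/
structure Data (k : ℕ) where
  c : V → Fin k
  hm : V → Finset (Fin k)
  bad : V → Prop
  f : V → V → Fin k
  sub : ∀ u v, G₀.Adj u v → G.Adj u v
  proper : ∀ u v, G.Adj u v → c u ≠ c v
  esc : ∀ a u, ¬ bad a → G.Adj a u → (2 ≤ cnt G c a (c u) ∨ c u ∈ hm a) →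
    (∀ v, G.Adj a v → c v ≠ f a u) ∧ f a u ≠ c a ∧ f a u ∉ hm a
  two : ∀ a z, ¬ bad a → ((G.neighborFinset a).filter
        fun u => (2 ≤ cnt G c a (c u) ∨ c u ∈ hm a) ∧ f a u = z).card ≤ 2
  deg : ∀ v, G.degree v + 1 ≤ k

variable {G₀ G}

theorem exists_data (hsub : ∀ u v, G₀.Adj u v → G.Adj u v) (c : V → Fin k)
    (hc : ∀ u v, G.Adj u v → c u ≠ c v) (hm : V → Finset (Fin k)) (bad : V → Prop) (h : V → ℕ)
    (hbad : ∀ a, ¬ bad a → 2 * (hm a).card ≤ h a) (hdeg : ∀ v, G.degree v + h v + 1 ≤ k) :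
    ∃ D : Data G₀ G k, D.c = c ∧ D.hm = hm ∧ D.bad = bad := by
  classical
  have key : ∀ a, ∃ g : V → Fin k, ¬ bad a →
      ((∀ u, G.Adj a u → (2 ≤ cnt G c a (c u) ∨ c u ∈ hm a) →
        (∀ v, G.Adj a v → c v ≠ g u) ∧ g u ≠ c a ∧ g u ∉ hm a) ∧
      (∀ z, ((G.neighborFinset a).filter
        fun u => (2 ≤ cnt G c a (c u) ∨ c u ∈ hm a) ∧ g u = z).card ≤ 2)) := by
    intro a
    by_cases ha : bad a
    · exact ⟨c, fun h => absurd ha h⟩
    · obtain ⟨g, hg⟩ := exists_escape_one G c hc a (hm a) (h a) (hbad a ha) (hdeg a)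
      exact ⟨g, fun _ => hg⟩
  choose g hg using key
  exact ⟨⟨c, hm, bad, g, hsub, hc, fun a u ha => (hg a ha).1 u, fun a z ha => (hg a ha).2 z,
    fun v => by have := hdeg v; omega⟩, rfl, rfl, rfl⟩

namespace Data

variable (D : Data G₀ G k)

/-- The number of neighbours of `a` coloured `y`. -/
def n (a : V) (y : Fin k) : ℕ := cnt G D.c a y

/-- The number of `G₀`-neighbours of `a` coloured `y`. -/
def n₀ (a : V) (y : Fin k) : ℕ := cnt G₀ D.c a y

/-- The touched vertices of the operation `(u,y)`. -/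
def T (p : V × Fin k) : Finset V := insert p.1 ((G.neighborFinset p.1).filter fun s => D.c s = p.2)

/-- The new colour. -/
def nv (p : V × Fin k) (s : V) : Fin k :=
  if s = p.1 then p.2 else
    if D.n s (D.c p.1) = 1 ∧ D.c p.1 ∉ D.hm s then D.c p.1 else D.f s p.1

/-- The operation `(u,y)` is allowed. -/
def Valid (p : V × Fin k) : Prop :=
  p.2 ≠ D.c p.1 ∧ D.n p.1 p.2 ≤ 1 ∧ p.2 ∉ D.hm p.1 ∧
    ∀ s, G.Adj p.1 s → D.c s = p.2 → ¬ D.bad s

theorem mem_T {p : V × Fin k} {s : V} :
    s ∈ D.T p ↔ s = p.1 ∨ (G.Adj p.1 s ∧ D.c s = p.2) := by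
  simp [T]

theorem card_T {p : V × Fin k} (hp : D.Valid p) : (D.T p).card ≤ 2 := by
  unfold T
  refine (Finset.card_insert_le _ _).trans ?_
  have := hp.2.1
  unfold n cnt at this
  omega

theorem nv_self (p : V × Fin k) : D.nv p p.1 = p.2 := by simp [nv]

theorem nv_blocker {p : V × Fin k} {s : V} (hs : G.Adj p.1 s) :
    (D.nv p s = D.c p.1 ∧ D.n s (D.c p.1) = 1 ∧ D.c p.1 ∉ D.hm s) ∨
    (D.nv p s = D.f s p.1 ∧ (2 ≤ D.n s (D.c p.1) ∨ D.c p.1 ∈ D.hm s)) := by
  have hne : s ≠ p.1 := hs.ne'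
  have h1 : 1 ≤ D.n s (D.c p.1) := cnt_pos hs.symm
  unfold nv
  rw [if_neg hne]
  by_cases h : D.n s (D.c p.1) = 1 ∧ D.c p.1 ∉ D.hm s
  · left
    exact ⟨by rw [if_pos h], h⟩
  · right
    refine ⟨by rw [if_neg h], ?_⟩
    rw [not_and_or, not_not] at h
    rcases h with h | h
    · left; omega
    · exact Or.inr h

/-- The new colour of a blocker is not forbidden. -/
theorem nv_notMem_hm {p : V × Fin k} (hp : D.Valid p) {s : V} (hs : s ∈ D.T p) :
    D.nv p s ∉ D.hm s := by
  rw [mem_T] at hs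
  rcases hs with rfl | ⟨h1, h2⟩
  · rw [nv_self]
    exact hp.2.2.1
  · rcases D.nv_blocker h1 with ⟨h3, _, h4⟩ | ⟨h3, h4⟩
    · rw [h3]; exact h4
    · rw [h3]
      exact (D.esc s p.1 (hp.2.2.2 s h1 h2) h1.symm h4).2.2

/-- The new colour differs from the old one. -/
theorem nv_ne {p : V × Fin k} (hp : D.Valid p) {s : V} (hs : s ∈ D.T p) :
    D.nv p s ≠ D.c s := by
  rw [mem_T] at hs
  rcases hs with rfl | ⟨h1, h2⟩
  · rw [nv_self]
    exact hp.1
  · rcases D.nv_blocker h1 with ⟨h3, _, _⟩ | ⟨h3, h4⟩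
    · rw [h3]
      exact D.proper _ _ h1
    · rw [h3]
      exact (D.esc s p.1 (hp.2.2.2 s h1 h2) h1.symm h4).2.1

/-- A single operation keeps the colouring proper, towards an untouched neighbour. -/
theorem single_out {p : V × Fin k} (hp : D.Valid p) {s t : V} (hst : G.Adj s t)
    (hs : s ∈ D.T p) (ht : t ∉ D.T p) : D.nv p s ≠ D.c t := by
  rw [mem_T] at hs ht
  push Not at ht
  rcases hs with rfl | ⟨hs1, hs2⟩
  · rw [nv_self]
    exact fun h => ht.2 hst h.symm
  · rcases D.nv_blocker hs1 with ⟨h1, h2, _⟩ | ⟨h1, h2⟩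
    · rw [h1]
      intro h
      exact ht.1 (eq_of_cnt_le_one h2.le hst hs1.symm h.symm rfl)
    · rw [h1]
      exact fun h => (D.esc s p.1 (hp.2.2.2 s hs1 hs2) hs1.symm h2).1 t hst h.symm

/-- A single operation keeps the colouring proper, between touched vertices. -/
theorem single_in {p : V × Fin k} (hp : D.Valid p) {s t : V} (hst : G.Adj s t)
    (hs : s ∈ D.T p) (ht : t ∈ D.T p) : D.nv p s ≠ D.nv p t := by
  have main : ∀ t : V, t ∈ D.T p → G.Adj p.1 t → D.c t = p.2 → D.nv p t ≠ p.2 := by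
    intro t ht _ h2
    rw [← h2]
    exact D.nv_ne hp ht
  have hs' := hs
  have ht' := ht
  rw [mem_T] at hs ht
  rcases hs with rfl | ⟨hs1, hs2⟩
  · rcases ht with rfl | ⟨ht1, ht2⟩
    · exact absurd hst (G.irrefl)
    · rw [nv_self]
      exact (main t ht' ht1 ht2).symm
  · rcases ht with rfl | ⟨ht1, ht2⟩
    · rw [nv_self]
      exact main s hs' hs1 hs2
    · exact absurd (hs2.trans ht2.symm) (D.proper s t hst)

/-- Two operations are in conflict. -/
def Conf (p q : V × Fin k) : Prop :=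
  ∃ s ∈ D.T p, ∃ t ∈ D.T q, s = t ∨ (G.Adj s t ∧ D.nv p s = D.nv q t)

theorem Conf.symm {p q : V × Fin k} (h : D.Conf p q) : D.Conf q p := by
  obtain ⟨s, hs, t, ht, h⟩ := h
  refine ⟨t, ht, s, hs, ?_⟩
  rcases h with h | ⟨h1, h2⟩
  · exact Or.inl h.symm
  · exact Or.inr ⟨h1.symm, h2.symm⟩

section exec

variable (Act : V → Prop) (yy : V → Fin k)

open Classical in
/-- The colouring after executing all active operations. -/
noncomputable def fin (s : V) : Fin k :=
  if h : ∃ u, Act u ∧ s ∈ D.T (u, yy u) then D.nv (h.choose, yy h.choose) s else D.c s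

variable {Act yy}

theorem fin_touched (hnc : ∀ u v, Act u → Act v → u ≠ v → ¬ D.Conf (u, yy u) (v, yy v))
    {u s : V} (hu : Act u) (hs : s ∈ D.T (u, yy u)) :
    D.fin Act yy s = D.nv (u, yy u) s := by
  have h : ∃ u, Act u ∧ s ∈ D.T (u, yy u) := ⟨u, hu, hs⟩
  unfold fin
  rw [dif_pos h]
  have h1 := h.choose_spec
  by_cases h2 : h.choose = u
  · rw [h2]
  · exfalso
    exact hnc _ _ h1.1 hu h2 ⟨s, h1.2, s, hs, Or.inl rfl⟩

theorem fin_untouched {s : V} (hs : ∀ u, Act u → s ∉ D.T (u, yy u)) :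
    D.fin Act yy s = D.c s := by
  unfold fin
  rw [dif_neg]
  push Not
  exact hs

theorem fin_proper (hv : ∀ u, Act u → D.Valid (u, yy u))
    (hnc : ∀ u v, Act u → Act v → u ≠ v → ¬ D.Conf (u, yy u) (v, yy v))
    {s t : V} (hst : G.Adj s t) : D.fin Act yy s ≠ D.fin Act yy t := by
  classical
  by_cases hs : ∃ u, Act u ∧ s ∈ D.T (u, yy u)
  · obtain ⟨u, hu, hsu⟩ := hs
    rw [D.fin_touched hnc hu hsu]
    by_cases ht : ∃ v, Act v ∧ t ∈ D.T (v, yy v)
    · obtain ⟨v, hv', htv⟩ := ht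
      rw [D.fin_touched hnc hv' htv]
      by_cases huv : u = v
      · subst huv
        exact D.single_in (hv u hu) hst hsu htv
      · intro h
        exact hnc u v hu hv' huv ⟨s, hsu, t, htv, Or.inr ⟨hst, h⟩⟩
    · push Not at ht
      rw [D.fin_untouched ht]
      exact D.single_out (hv u hu) hst hsu (ht u hu)
  · push Not at hs
    rw [D.fin_untouched hs]
    by_cases ht : ∃ v, Act v ∧ t ∈ D.T (v, yy v)
    · obtain ⟨v, hv', htv⟩ := ht
      rw [D.fin_touched hnc hv' htv]
      exact (D.single_out (hv v hv') hst.symm htv (hs v hv')).symm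
    · push Not at ht
      rw [D.fin_untouched ht]
      exact D.proper s t hst

end exec

end Data

end Pool.Agent.Helper14.Pcg
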