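import Pool.Agent.Helper14.Pcg.Defs
import Pool.Agent.Helper14.Pcf.Prob

/-! # Proper conflict-free colouring: the random late set (module P) -/

set_option autoImplicit false
set_option linter.unusedSectionVars false

namespace Pool.Agent.Helper14.Pcg

open Finset Pool.Agent.Helper14.Pcf Pool.Agent.Helper14.Sq

section

variable {V A : Type*} [Fintype V] [DecidableEq V] [Fintype A] [DecidableEq A] [Nonempty A]

theorem exp_sub_one_le {g : ℝ} (h0 : 0 ≤ g) (h1 : g ≤ 1) : Real.exp g - 1 ≤ 2 * g := by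
  have h := convexOn_exp.2 (Set.mem_univ (0 : ℝ)) (Set.mem_univ (1 : ℝ))
    (by linarith : (0 : ℝ) ≤ 1 - g) h0 (by ring)
  simp only [smul_eq_mul, mul_zero, mul_one, zero_add, Real.exp_zero] at h
  have he : Real.exp 1 < 3 := lt_trans Real.exp_one_lt_d9 (by norm_num)
  nlinarith

/-- The exponential moment of a weighted sum of indicators. -/
theorem exp_pos_moment (N : Finset V) (B : V → Finset A) (g : V → ℝ) (hg0 : ∀ w ∈ N, 0 ≤ g w)
    (hg1 : ∀ w ∈ N, g w ≤ 1) :
    ∑ a : V → A, Real.exp (∑ w ∈ N, if a w ∈ B w then g w else 0) ≤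
      (Fintype.card (V → A) : ℝ) *
        Real.exp (2 * ∑ w ∈ N, g w * (((B w).card : ℝ) / (Fintype.card A : ℝ))) := by
  have hA : (0 : ℝ) < (Fintype.card A : ℝ) := by exact_mod_cast Fintype.card_pos
  have h1 : ∀ a : V → A, Real.exp (∑ w ∈ N, if a w ∈ B w then g w else 0) =
      ∏ w, Real.exp (if w ∈ N then (if a w ∈ B w then g w else 0) else 0) := by
    intro a
    rw [← Real.exp_sum, Finset.sum_ite_mem, Finset.univ_inter]
  simp only [h1]
  have h2 : ∑ a : V → A, ∏ w, Real.exp (if w ∈ N then (if a w ∈ B w then g w else 0) else 0) =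
      ∏ w, ∑ x : A, Real.exp (if w ∈ N then (if x ∈ B w then g w else 0) else 0) := by
    rw [Finset.prod_univ_sum, Fintype.piFinset_univ]
  rw [h2]
  have h3 : ∀ w, ∑ x : A, Real.exp (if w ∈ N then (if x ∈ B w then g w else 0) else 0) ≤
      (Fintype.card A : ℝ) *
        Real.exp (if w ∈ N then 2 * (g w * (((B w).card : ℝ) / (Fintype.card A : ℝ))) else 0) := by
    intro w
    by_cases hw : w ∈ N
    · simp only [hw, if_true]
      have e1 : ∑ x : A, Real.exp (if x ∈ B w then g w else 0) =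
          ∑ x : A, (1 + if x ∈ B w then (Real.exp (g w) - 1) else 0) := by
        refine Finset.sum_congr rfl fun x _ => ?_
        by_cases hx : x ∈ B w <;> simp [hx]
      rw [e1, Finset.sum_add_distrib, Finset.sum_const, Finset.card_univ, nsmul_eq_mul, mul_one,
        Finset.sum_ite_mem, Finset.univ_inter, Finset.sum_const, nsmul_eq_mul]
      have e2 := exp_sub_one_le (hg0 w hw) (hg1 w hw)
      have e3 := Real.add_one_le_exp (2 * (g w * (((B w).card : ℝ) / (Fintype.card A : ℝ))))
      have e4 : (0 : ℝ) ≤ ((B w).card : ℝ) := Nat.cast_nonneg _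
      calc (Fintype.card A : ℝ) + ((B w).card : ℝ) * (Real.exp (g w) - 1)
          ≤ (Fintype.card A : ℝ) + ((B w).card : ℝ) * (2 * g w) := by gcongr
        _ = (Fintype.card A : ℝ) *
              (2 * (g w * (((B w).card : ℝ) / (Fintype.card A : ℝ))) + 1) := by
            field_simp
            ring
        _ ≤ _ := by gcongr
    · simp [hw]
  calc ∏ w, ∑ x : A, Real.exp (if w ∈ N then (if x ∈ B w then g w else 0) else 0)
      ≤ ∏ w : V, ((Fintype.card A : ℝ) *
          Real.exp (if w ∈ N then 2 * (g w * (((B w).card : ℝ) / (Fintype.card A : ℝ))) else 0)) := by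
        apply Finset.prod_le_prod
        · intro w _
          exact Finset.sum_nonneg fun x _ => (Real.exp_pos _).le
        · intro w _
          exact h3 w
    _ = _ := by
        rw [Finset.prod_mul_distrib, Finset.prod_const, Finset.card_univ, ← Real.exp_sum,
          Finset.sum_ite_mem, Finset.univ_inter, ← Finset.mul_sum, Fintype.card_fun]
        push_cast
        ring

/-- Large sums are unlikely. -/
theorem upper_tail (N : Finset V) (B : V → Finset A) (g : V → ℝ) (hg0 : ∀ w ∈ N, 0 ≤ g w)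
    (hg1 : ∀ w ∈ N, g w ≤ 1) (t : ℝ) (Bad : Finset (V → A))
    (hBad : ∀ a ∈ Bad, t ≤ ∑ w ∈ N, if a w ∈ B w then g w else 0) :
    (Bad.card : ℝ) ≤ (Fintype.card (V → A) : ℝ) *
      Real.exp (2 * (∑ w ∈ N, g w * (((B w).card : ℝ) / (Fintype.card A : ℝ))) - t) := by
  have h1 : (Bad.card : ℝ) * Real.exp t ≤
      ∑ a : V → A, Real.exp (∑ w ∈ N, if a w ∈ B w then g w else 0) := by
    calc (Bad.card : ℝ) * Real.exp t = ∑ _a ∈ Bad, Real.exp t := by
          rw [Finset.sum_const, nsmul_eq_mul]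
      _ ≤ ∑ a ∈ Bad, Real.exp (∑ w ∈ N, if a w ∈ B w then g w else 0) :=
          Finset.sum_le_sum fun a ha => Real.exp_le_exp.mpr (hBad a ha)
      _ ≤ _ := Finset.sum_le_sum_of_subset_of_nonneg (Finset.subset_univ _)
          fun a _ _ => (Real.exp_pos _).le
  have h2 := h1.trans (exp_pos_moment N B g hg0 hg1)
  have h3 : Real.exp t * Real.exp (-t) = 1 := by
    rw [← Real.exp_add, add_neg_cancel, Real.exp_zero]
  calc (Bad.card : ℝ) = (Bad.card : ℝ) * Real.exp t * Real.exp (-t) := by
        rw [mul_assoc, h3, mul_one]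
    _ ≤ _ := mul_le_mul_of_nonneg_right h2 (Real.exp_pos _).le
    _ = _ := by
        rw [mul_assoc, ← Real.exp_add]
        congr 2

end

section

variable {V ι : Type*} [Fintype V] [DecidableEq V] [Fintype ι] [DecidableEq ι]

/-- The weight of `y` for the weight function `w` on the sets. -/
noncomputable def wt (S : ι → Finset V) (w : ι → ℝ) (y : V) : ℝ :=
  ∑ i ∈ Finset.univ.filter (fun i => y ∈ S i), w i

theorem wt_nonneg (S : ι → Finset V) (w : ι → ℝ) (h : ∀ i, 0 ≤ w i) (y : V) : 0 ≤ wt S w y :=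
  Finset.sum_nonneg fun i _ => h i

theorem wt_le (S : ι → Finset V) (w : ι → ℝ) (s : ℝ) (h : ∀ i, w i ≤ s) (y : V) :
    wt S w y ≤ s * hd S y := by
  unfold wt hd
  calc ∑ i ∈ Finset.univ.filter (fun i => y ∈ S i), w i
      ≤ ∑ _i ∈ Finset.univ.filter (fun i => y ∈ S i), s := Finset.sum_le_sum fun i _ => h i
    _ = _ := by rw [Finset.sum_const, nsmul_eq_mul]; ring

theorem wt_eq_zero (S : ι → Finset V) (w : ι → ℝ) (y : V) (h : ¬ ∃ i, y ∈ S i ∧ w i ≠ 0) :
    wt S w y = 0 := by
  push Not at h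
  exact Finset.sum_eq_zero fun i hi => h i (Finset.mem_filter.1 hi).2

theorem sum_wt (S : ι → Finset V) (w : ι → ℝ) :
    ∑ y, wt S w y = ∑ i, (S i).card * w i := by
  unfold wt
  simp only [Finset.sum_filter]
  rw [Finset.sum_comm]
  apply Finset.sum_congr rfl
  intro i _
  rw [← Finset.sum_filter, Finset.filter_mem_eq_inter, Finset.univ_inter, Finset.sum_const,
    nsmul_eq_mul]

theorem meet_le (S : ι → Finset V) (w : ι → ℝ) (h : ∀ i, 0 ≤ w i) (L : Finset V) :
    ∑ i ∈ Finset.univ.filter (fun i => (S i ∩ L).Nonempty), w i ≤ ∑ y ∈ L, wt S w y := by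
  unfold wt
  simp only [Finset.sum_filter]
  rw [Finset.sum_comm]
  apply Finset.sum_le_sum
  intro i _
  by_cases hi : (S i ∩ L).Nonempty
  · rw [if_pos hi]
    obtain ⟨y, hy⟩ := hi
    rw [mem_inter] at hy
    have := Finset.single_le_sum (f := fun y => if y ∈ S i then w i else 0)
      (fun y _ => by
        show 0 ≤ if y ∈ S i then w i else 0
        split_ifs
        · exact h i
        · exact le_refl _) hy.2
    simpa [hy.1] using this
  · rw [if_neg hi]
    apply Finset.sum_nonneg
    intro y _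
    split_ifs
    · exact h i
    · exact le_refl _

theorem num_facts {k s : ℕ} (hs : 10 ^ 4 ≤ s) (hk : s ^ 30 ≤ k) :
    (10 : ℝ) ^ 4 ≤ s ∧ (s : ℝ) ^ 30 ≤ k ∧ (s : ℝ) ≤ k ∧ (10 : ℝ) ^ 4 ≤ k := by
  have h1 : (10 : ℝ) ^ 4 ≤ s := by exact_mod_cast hs
  have h2 : (s : ℝ) ^ 30 ≤ k := by exact_mod_cast hk
  have h3 : (s : ℝ) ≤ (s : ℝ) ^ 30 := le_self_pow₀ (by linarith) (by norm_num)
  exact ⟨h1, h2, h3.trans h2, h1.trans (h3.trans h2)⟩

/-- MODULE P. -/
theorem exists_late (G : SimpleGraph V) [DecidableRel G.Adj] (S : ι → Finset V) {k s : ℕ}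
    (hs : 10 ^ 4 ≤ s) (hk : s ^ 30 ≤ k) (hks : (k : ℝ) ^ 20 ≤ Real.exp s)
    (hS : ∀ i, (S i).card ≤ s) (hdeg : ∀ v, G.degree v ≤ k)
    {J : Type*} [Fintype J] [DecidableEq J] (W : J → ι → ℝ)
    (hW0 : ∀ j i, 0 ≤ W j i) (hWs : ∀ j i, W j i ≤ s) (hWk : ∀ j, ∑ i, W j i ≤ k)
    (hρ : ∀ x : V, (Finset.univ.filter fun j => ∃ i, x ∈ S i ∧ W j i ≠ 0).card ≤ k ^ 3)
    (hsupp : ∀ j, (Finset.univ.filter fun i => W j i ≠ 0).card ≤ k ^ 3)
    (P : Finset V) (hP : ∀ v ∈ P, s ^ 6 * hd S v ≤ k) :
    ∃ L ⊆ P, (∀ x, 8 * s ^ 6 * (nb G (P \ L) x).card + k ≤ 8 * s ^ 6 * k) ∧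
      ∀ j, ∑ i ∈ Finset.univ.filter (fun i => (S i ∩ L).Nonempty), W j i ≤ 2 * k / s ^ 4 := by
  classical
  obtain ⟨hs', hk', hsk, hk4⟩ := num_facts hs hk
  set K : ℝ := (k : ℝ) with hK
  set σ : ℝ := (s : ℝ) with hσ
  have hσ0 : 0 < σ := by linarith
  have hK0 : 0 < K := by linarith
  have hq : 0 < s ^ 6 := by positivity
  set a0 : Fin (s ^ 6) := ⟨0, hq⟩ with ha0
  haveI : Nonempty (Fin (s ^ 6)) := ⟨a0⟩
  have hcardA : ((Fintype.card (Fin (s ^ 6)) : ℕ) : ℝ) = σ ^ 6 := by
    rw [Fintype.card_fin]; push_cast; rfl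
  set T : V ⊕ J → Finset V := Sum.elim (fun x => nb G P x)
    (fun j => Finset.univ.filter fun y => ∃ i, y ∈ S i ∧ W j i ≠ 0) with hT
  set E : V ⊕ J → Finset (V → Fin (s ^ 6)) := Sum.elim
    (fun x => Finset.univ.filter fun ω => k < 2 * (nb G P x).card ∧
      8 * s ^ 6 * ((nb G P x).filter fun y => ω y ∈ ({a0} : Finset (Fin (s ^ 6)))).card < k)
    (fun j => Finset.univ.filter fun ω =>
      2 * K / σ ^ 4 < ∑ y ∈ P, if ω y ∈ ({a0} : Finset (Fin (s ^ 6))) then wt S (W j) y else 0)
    with hE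
  have hnbdeg : ∀ x, (nb G P x).card ≤ k := by
    intro x
    refine le_trans (card_le_card ?_) (hdeg x)
    intro y hy
    simpa using (mem_filter.1 hy).2
  have hTj : ∀ j, ((T (Sum.inr j)).card : ℝ) ≤ σ * K ^ 3 := by
    intro j
    have h1 : T (Sum.inr j) ⊆ (Finset.univ.filter fun i => W j i ≠ 0).biUnion S := by
      intro y hy
      obtain ⟨i, hi1, hi2⟩ := (mem_filter.1 hy).2
      exact mem_biUnion.2 ⟨i, by simpa using hi2, hi1⟩
    have h2 : (T (Sum.inr j)).card ≤ k ^ 3 * s := by
      refine (card_le_card h1).trans ?_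
      refine (card_biUnion_le_card_mul _ _ s fun i _ => hS i).trans ?_
      exact Nat.mul_le_mul_right _ (hsupp j)
    have h3 : ((T (Sum.inr j)).card : ℝ) ≤ ((k ^ 3 * s : ℕ) : ℝ) := by exact_mod_cast h2
    push_cast at h3
    linarith
  have hTcard : ∀ e, ((T e).card : ℝ) ≤ K ^ 4 := by
    rintro (x | j)
    · have h1 : ((T (Sum.inl x)).card : ℝ) ≤ K := by
        have := hnbdeg x
        show ((nb G P x).card : ℝ) ≤ (k : ℝ)
        exact_mod_cast this
      have h2 : K ≤ K ^ 4 := le_self_pow₀ (by linarith) (by norm_num)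
      exact h1.trans h2
    · refine (hTj j).trans ?_
      calc σ * K ^ 3 ≤ K * K ^ 3 := by gcongr
        _ = K ^ 4 := by ring
  have hexp : ∀ e, Real.exp (2 * (K ^ 11)⁻¹ * (T e).card) ≤ Real.exp 1 := by
    intro e
    apply Real.exp_le_exp.2
    have h1 := hTcard e
    have h2 : 2 * (K ^ 11)⁻¹ * ((T e).card : ℝ) ≤ 2 * (K ^ 11)⁻¹ * K ^ 4 := by gcongr
    refine h2.trans ?_
    have h3 : 2 * (K ^ 11)⁻¹ * K ^ 4 = 2 / K ^ 7 := by
      field_simp
    rw [h3, div_le_one (by positivity)]
    calc (2 : ℝ) ≤ K := by linarith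
      _ ≤ K ^ 7 := le_self_pow₀ (by linarith) (by norm_num)
  have hK15 : K ^ 15 ≤ Real.exp σ := by
    refine le_trans ?_ hks
    exact pow_le_pow_right₀ (by linarith) (by norm_num)
  have hdep : ∀ e ∈ (Finset.univ : Finset (V ⊕ J)), DependsOn' (E e) (T e) := by
    rintro (x | j) - a b hab
    · have h1 : ((nb G P x).filter fun y => a y ∈ ({a0} : Finset (Fin (s ^ 6)))) =
          ((nb G P x).filter fun y => b y ∈ ({a0} : Finset (Fin (s ^ 6)))) := by
        apply filter_congr
        intro y hy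
        rw [hab y hy]
      simp only [hE, Sum.elim_inl, mem_filter, mem_univ, true_and]
      rw [h1]
    · have h1 : (∑ y ∈ P, if a y ∈ ({a0} : Finset (Fin (s ^ 6))) then wt S (W j) y else 0) =
          ∑ y ∈ P, if b y ∈ ({a0} : Finset (Fin (s ^ 6))) then wt S (W j) y else 0 := by
        apply Finset.sum_congr rfl
        intro y _
        by_cases hy : ∃ i, y ∈ S i ∧ W j i ≠ 0
        · rw [hab y (by simpa [hT] using hy)]
        · rw [wt_eq_zero S (W j) y hy]
          simp
      simp only [hE, Sum.elim_inr, mem_filter, mem_univ, true_and]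
      rw [h1]
  have hmu : ∀ v : V, ∑ e ∈ (Finset.univ : Finset (V ⊕ J)),
      (if v ∈ T e then (K ^ 15)⁻¹ else 0) ≤ (K ^ 11)⁻¹ := by
    intro v
    have h1 : ∑ e ∈ (Finset.univ : Finset (V ⊕ J)), (if v ∈ T e then (K ^ 15)⁻¹ else 0) =
        ((Finset.univ.filter fun x : V => v ∈ nb G P x).card +
          (Finset.univ.filter fun j => ∃ i, v ∈ S i ∧ W j i ≠ 0).card) * (K ^ 15)⁻¹ := by
      rw [Fintype.sum_sum_type]
      simp only [hT, Sum.elim_inl, Sum.elim_inr, mem_filter, mem_univ, true_and]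
      rw [← Finset.sum_filter, ← Finset.sum_filter, Finset.sum_const, Finset.sum_const,
        nsmul_eq_mul, nsmul_eq_mul]
      ring
    rw [h1]
    have h2 : ((Finset.univ.filter fun x : V => v ∈ nb G P x).card : ℝ) ≤ K := by
      have : (Finset.univ.filter fun x : V => v ∈ nb G P x).card ≤ k := by
        refine le_trans (card_le_card ?_) (hdeg v)
        intro x hx
        have := (mem_filter.1 (mem_filter.1 hx).2).2
        simpa using this.symm
      rw [hK]
      exact_mod_cast this
    have h3 : ((Finset.univ.filter fun j => ∃ i, v ∈ S i ∧ W j i ≠ 0).card : ℝ) ≤ K ^ 3 := by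
      have := hρ v
      rw [hK]
      exact_mod_cast this
    calc (((Finset.univ.filter fun x : V => v ∈ nb G P x).card : ℝ) +
          (Finset.univ.filter fun j => ∃ i, v ∈ S i ∧ W j i ≠ 0).card) * (K ^ 15)⁻¹
        ≤ (K + K ^ 3) * (K ^ 15)⁻¹ := by gcongr
      _ ≤ K ^ 4 * (K ^ 15)⁻¹ := by
          gcongr
          nlinarith [pow_pos hK0 3, pow_pos hK0 2, sq_nonneg K]
      _ = (K ^ 11)⁻¹ := by field_simp
  have hx12 : (K ^ 15)⁻¹ ≤ 1 / 2 := by
    rw [inv_le_comm₀ (by positivity) (by norm_num)]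
    calc (1 / 2 : ℝ)⁻¹ ≤ K := by norm_num; linarith
      _ ≤ K ^ 15 := le_self_pow₀ (by linarith) (by norm_num)
  have hfin : ∀ (e : V ⊕ J) (r : ℝ), ((E e).card : ℝ) ≤
      (Fintype.card (V → Fin (s ^ 6)) : ℝ) * Real.exp r → r + 1 ≤ -σ →
      ((E e).card : ℝ) * Real.exp (2 * (K ^ 11)⁻¹ * (T e).card) ≤
        (K ^ 15)⁻¹ * (Fintype.card (V → Fin (s ^ 6)) : ℝ) := by
    intro e r h1 h2
    calc ((E e).card : ℝ) * Real.exp (2 * (K ^ 11)⁻¹ * (T e).card)
        ≤ ((Fintype.card (V → Fin (s ^ 6)) : ℝ) * Real.exp r) * Real.exp 1 :=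
          mul_le_mul h1 (hexp e) (Real.exp_pos _).le (by positivity)
      _ = (Fintype.card (V → Fin (s ^ 6)) : ℝ) * Real.exp (r + 1) := by
          rw [Real.exp_add]; ring
      _ ≤ (Fintype.card (V → Fin (s ^ 6)) : ℝ) * Real.exp (-σ) := by
          gcongr
      _ ≤ (Fintype.card (V → Fin (s ^ 6)) : ℝ) * (K ^ 15)⁻¹ := by
          gcongr
          rw [Real.exp_neg]
          exact inv_anti₀ (by positivity) hK15
      _ = _ := by ring
  have hprob : ∀ e ∈ (Finset.univ : Finset (V ⊕ J)),
      ((E e).card : ℝ) * Real.exp (2 * (K ^ 11)⁻¹ * (T e).card) ≤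
        (K ^ 15)⁻¹ * (Fintype.card (V → Fin (s ^ 6)) : ℝ) := by
    rintro (x | j) -
    · by_cases hbig : k < 2 * (nb G P x).card
      · apply hfin (Sum.inl x) (K / (8 * σ ^ 6) - (1 / 2) * ∑ w ∈ nb G P x,
          (((({a0} : Finset (Fin (s ^ 6)))).card : ℝ) / (Fintype.card (Fin (s ^ 6)) : ℝ)))
        · apply lower_tail (nb G P x) (fun _ => {a0})
          intro a ha
          simp only [hE, Sum.elim_inl, mem_filter, mem_univ, true_and] at ha
          have h1 : ((8 * s ^ 6 * ((nb G P x).filter fun y =>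
              a y ∈ ({a0} : Finset (Fin (s ^ 6)))).card : ℕ) : ℝ) < k := by exact_mod_cast ha.2
          push_cast at h1
          rw [le_div_iff₀ (by positivity)]
          linarith
        · rw [Finset.sum_const, nsmul_eq_mul, hcardA, card_singleton]
          have h1 : K < 2 * ((nb G P x).card : ℝ) := by
            have : ((k : ℕ) : ℝ) < ((2 * (nb G P x).card : ℕ) : ℝ) := by exact_mod_cast hbig
            push_cast at this
            exact this
          have h2 : K / (8 * σ ^ 6) - 1 / 2 * (((nb G P x).card : ℝ) * (((1 : ℕ) : ℝ) / σ ^ 6)) ≤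
              -(K / (8 * σ ^ 6)) := by
            have h3 : K / 2 * (1 / σ ^ 6) ≤ ((nb G P x).card : ℝ) * (((1 : ℕ) : ℝ) / σ ^ 6) := by
              push_cast
              gcongr
              linarith
            have h4 : K / (8 * σ ^ 6) = (1 / 4) * (K / 2 * (1 / σ ^ 6)) := by
              field_simp
              norm_num
            rw [h4]
            linarith
          have h5 : σ + 1 ≤ K / (8 * σ ^ 6) := by
            rw [le_div_iff₀ (by positivity)]
            calc (σ + 1) * (8 * σ ^ 6) ≤ (2 * σ) * (8 * σ ^ 6) := by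
                  gcongr
                  linarith
              _ = 16 * σ ^ 7 := by ring
              _ ≤ σ * σ ^ 7 := by
                  gcongr
                  linarith
              _ = σ ^ 8 := by ring
              _ ≤ σ ^ 30 := pow_le_pow_right₀ (by linarith) (by norm_num)
              _ ≤ K := hk'
          linarith
      · have h0 : (E (Sum.inl x)) = ∅ := by
          simp only [hE, Sum.elim_inl]
          rw [filter_eq_empty_iff]
          intro a _ h
          exact hbig h.1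
        rw [h0, card_empty, Nat.cast_zero, zero_mul]
        positivity
    · set g : V → ℝ := fun y => σ ^ 5 / K * wt S (W j) y with hg
      have hg0 : ∀ w ∈ P, 0 ≤ g w := fun w _ =>
        mul_nonneg (by positivity) (wt_nonneg S (W j) (hW0 j) w)
      have hg1 : ∀ w ∈ P, g w ≤ 1 := by
        intro w hw
        have h1 := wt_le S (W j) σ (hWs j) w
        have h2 : ((s ^ 6 * hd S w : ℕ) : ℝ) ≤ k := by exact_mod_cast hP w hw
        push_cast at h2
        simp only [hg]
        rw [div_mul_eq_mul_div, div_le_one hK0]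
        calc σ ^ 5 * wt S (W j) w ≤ σ ^ 5 * (σ * hd S w) := by gcongr
          _ = σ ^ 6 * hd S w := by ring
          _ ≤ K := h2
      apply hfin (Sum.inr j) (2 * (∑ w ∈ P, g w *
          (((({a0} : Finset (Fin (s ^ 6)))).card : ℝ) / (Fintype.card (Fin (s ^ 6)) : ℝ))) - 2 * σ)
      · apply upper_tail P (fun _ => {a0}) g hg0 hg1
        intro a ha
        simp only [hE, Sum.elim_inr, mem_filter, mem_univ, true_and] at ha
        have h1 : (∑ w ∈ P, if a w ∈ ({a0} : Finset (Fin (s ^ 6))) then g w else 0) =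
            σ ^ 5 / K * ∑ w ∈ P, if a w ∈ ({a0} : Finset (Fin (s ^ 6))) then wt S (W j) w else 0 := by
          rw [Finset.mul_sum]
          apply Finset.sum_congr rfl
          intro w _
          simp only [hg, mul_ite, mul_zero]
        rw [h1]
        calc 2 * σ = σ ^ 5 / K * (2 * K / σ ^ 4) := by field_simp
          _ ≤ _ := by gcongr
      · rw [hcardA, card_singleton]
        have h1 : ∑ w ∈ P, g w * (((1 : ℕ) : ℝ) / σ ^ 6) ≤ 1 := by
          rw [← Finset.sum_mul]
          have h2 : ∑ w ∈ P, g w ≤ σ ^ 6 := by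
            simp only [hg]
            rw [← Finset.mul_sum]
            have h3 : ∑ w ∈ P, wt S (W j) w ≤ σ * K := by
              calc ∑ w ∈ P, wt S (W j) w ≤ ∑ w, wt S (W j) w :=
                    Finset.sum_le_sum_of_subset_of_nonneg (Finset.subset_univ _)
                      fun w _ _ => wt_nonneg S (W j) (hW0 j) w
                _ = ∑ i, (S i).card * W j i := sum_wt S (W j)
                _ ≤ ∑ i, σ * W j i := by
                    apply Finset.sum_le_sum
                    intro i _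
                    have : ((S i).card : ℝ) ≤ σ := by
                      rw [hσ]
                      exact_mod_cast hS i
                    exact mul_le_mul_of_nonneg_right this (hW0 j i)
                _ = σ * ∑ i, W j i := by rw [Finset.mul_sum]
                _ ≤ σ * K := by
                    gcongr
                    exact hWk j
            calc σ ^ 5 / K * ∑ w ∈ P, wt S (W j) w ≤ σ ^ 5 / K * (σ * K) := by gcongr
              _ = σ ^ 6 := by field_simp
          push_cast
          rw [mul_one_div, div_le_one (by positivity)]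
          exact h2
        linarith
  obtain ⟨ω, hω⟩ := lll_weights E T Finset.univ hdep (fun _ => (K ^ 15)⁻¹)
    (fun _ _ => by positivity) (fun _ _ => hx12) ((K ^ 11)⁻¹) hmu hprob
  refine ⟨P.filter fun y => ω y = a0, filter_subset _ _, ?_, ?_⟩
  · intro x
    have h1 := hω (Sum.inl x) (mem_univ _)
    simp only [hE, Sum.elim_inl, mem_filter, mem_univ, true_and, not_and, not_lt] at h1
    have hsub : (nb G (P \ P.filter fun y => ω y = a0) x) =
        (nb G P x) \ ((nb G P x).filter fun y => ω y ∈ ({a0} : Finset (Fin (s ^ 6)))) := by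
      ext y
      simp only [nb, mem_filter, mem_sdiff, mem_singleton]
      tauto
    have hc : (nb G (P \ P.filter fun y => ω y = a0) x).card +
        ((nb G P x).filter fun y => ω y ∈ ({a0} : Finset (Fin (s ^ 6)))).card =
          (nb G P x).card := by
      rw [hsub]
      exact card_sdiff_add_card_eq_card (filter_subset _ _)
    have h2 := hnbdeg x
    have hs6 : 1 ≤ s ^ 6 := hq
    by_cases hbig : k < 2 * (nb G P x).card
    · have h3 := h1 hbig
      calc 8 * s ^ 6 * (nb G (P \ P.filter fun y => ω y = a0) x).card + k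
          ≤ 8 * s ^ 6 * (nb G (P \ P.filter fun y => ω y = a0) x).card +
            8 * s ^ 6 * ((nb G P x).filter fun y => ω y ∈ ({a0} : Finset (Fin (s ^ 6)))).card := by
            omega
        _ = 8 * s ^ 6 * (nb G P x).card := by rw [← mul_add, hc]
        _ ≤ 8 * s ^ 6 * k := Nat.mul_le_mul_left _ h2
    · have h3 : 2 * (nb G (P \ P.filter fun y => ω y = a0) x).card ≤ k := by omega
      have h4 : k ≤ s ^ 6 * k := Nat.le_mul_of_pos_left k hq
      calc 8 * s ^ 6 * (nb G (P \ P.filter fun y => ω y = a0) x).card + k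
          = 4 * s ^ 6 * (2 * (nb G (P \ P.filter fun y => ω y = a0) x).card) + k := by ring
        _ ≤ 4 * s ^ 6 * k + 4 * (s ^ 6 * k) := by
            have := Nat.mul_le_mul_left (4 * s ^ 6) h3
            omega
        _ = 8 * s ^ 6 * k := by ring
  · intro j
    have h1 := hω (Sum.inr j) (mem_univ _)
    simp only [hE, Sum.elim_inr, mem_filter, mem_univ, true_and, not_lt] at h1
    refine (meet_le S (W j) (hW0 j) _).trans ?_
    rw [Finset.sum_filter]
    refine le_trans (le_of_eq ?_) h1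
    apply Finset.sum_congr rfl
    intro y _
    simp only [mem_singleton]

end

end Pool.Agent.Helper14.Pcg
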