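import Pool.Agent.Helper14.Pcg.Sets

/-! # The families of patterns and their counts -/

set_option autoImplicit false
set_option linter.unusedSectionVars false

namespace Pool.Agent.Helper14.Pcg

open Finset
open Pool.Agent.Helper14.Pcf (cnt cnt_pos eq_of_cnt_le_one)

variable {V ι : Type*} [Fintype V] [DecidableEq V] [Fintype ι] [DecidableEq ι]
  {G₀ G : SimpleGraph V} [DecidableRel G₀.Adj] [DecidableRel G.Adj] {k : ℕ}

namespace Data

variable (D : Data G₀ G k) (S : ι → Finset V) (M : Finset ι)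

open Classical in
/-- Two operations. -/
noncomputable def P2 : Finset ((V × Fin k) × (V × Fin k)) :=
  Finset.univ.filter fun t => t.1.1 ≠ t.2.1 ∧
    ((∃ i ∈ Mᶜ, t.1 ∈ D.TI S i ∧ t.2 ∈ D.TI S i) ∨
      (∃ i ∈ M, ∃ z, t.1 ∈ D.GS S i z ∧ t.2 ∈ D.GS S i z))

theorem mem_P2 {t : (V × Fin k) × (V × Fin k)} : t ∈ D.P2 S M ↔ t.1.1 ≠ t.2.1 ∧
    ((∃ i ∈ Mᶜ, t.1 ∈ D.TI S i ∧ t.2 ∈ D.TI S i) ∨
      (∃ i ∈ M, ∃ z, t.1 ∈ D.GS S i z ∧ t.2 ∈ D.GS S i z)) := by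
  classical
  simp [P2]

open Classical in
/-- Three operations. -/
noncomputable def P3 : Finset ((V × Fin k) × (V × Fin k) × (V × Fin k)) :=
  Finset.univ.filter fun t => t.1.1 ≠ t.2.1.1 ∧ t.1.1 ≠ t.2.2.1 ∧ t.2.1.1 ≠ t.2.2.1 ∧
    ∃ i ∈ Mᶜ, ∃ z, t.2.1 ∈ D.GS S i z ∧ t.2.2 ∈ D.GS S i z ∧
      (t.1 ∈ D.TI S i ∨ t.1 ∈ D.GS S i z)

theorem mem_P3 {t : (V × Fin k) × (V × Fin k) × (V × Fin k)} : t ∈ D.P3 S M ↔
    t.1.1 ≠ t.2.1.1 ∧ t.1.1 ≠ t.2.2.1 ∧ t.2.1.1 ≠ t.2.2.1 ∧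
    ∃ i ∈ Mᶜ, ∃ z, t.2.1 ∈ D.GS S i z ∧ t.2.2 ∈ D.GS S i z ∧
      (t.1 ∈ D.TI S i ∨ t.1 ∈ D.GS S i z) := by
  classical
  simp [P3]

open Classical in
/-- Four operations. -/
noncomputable def P4 : Finset (((V × Fin k) × (V × Fin k)) × ((V × Fin k) × (V × Fin k))) :=
  Finset.univ.filter fun t => t.1.1.1 ≠ t.1.2.1 ∧ t.1.1.1 ≠ t.2.1.1 ∧ t.1.1.1 ≠ t.2.2.1 ∧
    t.1.2.1 ≠ t.2.1.1 ∧ t.1.2.1 ≠ t.2.2.1 ∧ t.2.1.1 ≠ t.2.2.1 ∧
    ∃ i ∈ Mᶜ, t.1 ∈ D.LK S i ∧ t.2 ∈ D.LK S i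

theorem mem_P4 {t : ((V × Fin k) × (V × Fin k)) × ((V × Fin k) × (V × Fin k))} :
    t ∈ D.P4 S M ↔ t.1.1.1 ≠ t.1.2.1 ∧ t.1.1.1 ≠ t.2.1.1 ∧ t.1.1.1 ≠ t.2.2.1 ∧
    t.1.2.1 ≠ t.2.1.1 ∧ t.1.2.1 ≠ t.2.2.1 ∧ t.2.1.1 ≠ t.2.2.1 ∧
    ∃ i ∈ Mᶜ, t.1 ∈ D.LK S i ∧ t.2 ∈ D.LK S i := by
  classical
  simp [P4]

variable {s : ℕ}

theorem flag_of_GS {x : V} {p : V × Fin k} {i : ι} {z : Fin k} {N : Finset ι} (hx : p.1 = x)
    (hi : i ∈ N) (hp : p ∈ D.GS S i z) :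
    ∃ v, (p.2, v, i) ∈ D.At S N x ∧ D.nv (x, p.2) v = z := by
  obtain ⟨v, hv, h1, h2, h3⟩ := (D.mem_GS S).mp hp
  subst hx
  exact ⟨v, (D.mem_At S).mpr ⟨h1, h2, hv, hi⟩, h3⟩

theorem flag_of_TI {x : V} {p : V × Fin k} {i : ι} {N : Finset ι} (hx : p.1 = x)
    (hi : i ∈ N) (hp : p ∈ D.TI S i) :
    ∃ v, (p.2, v, i) ∈ D.AtI S N x := by
  classical
  obtain ⟨v, hv, h1, h2, h3⟩ := (D.mem_TI S).mp hp
  subst hx
  exact ⟨v, Finset.mem_filter.mpr ⟨(D.mem_At S).mpr ⟨h1, h2, hv, hi⟩, h3⟩⟩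

theorem count_P2_one (hS : ∀ i, (S i).card ≤ s) (x : V) :
    ((D.P2 S M).filter fun t => t.1.1 = x).card ≤
      (D.AtI S Mᶜ x).card * (4 * s ^ 2) + (D.At S M x).card * (4 * s) := by
  classical
  have hsub : ((D.P2 S M).filter fun t => t.1.1 = x) ⊆
      ((D.AtI S Mᶜ x).biUnion fun f => (D.TI S f.2.2).image fun q => ((x, f.1), q)) ∪
      ((D.At S M x).biUnion fun f => (D.GS S f.2.2 (D.nv (x, f.1) f.2.1)).image
        fun q => ((x, f.1), q)) := by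
    intro t ht
    obtain ⟨ht1, ht2⟩ := Finset.mem_filter.mp ht
    obtain ⟨_, h⟩ := (D.mem_P2 S M).mp ht1
    rw [Finset.mem_union]
    have hxt : (x, t.1.2) = t.1 := by rw [← ht2]
    rcases h with ⟨i, hi, hp, hq⟩ | ⟨i, hi, z, hp, hq⟩
    · left
      obtain ⟨v, hv⟩ := D.flag_of_TI S ht2 hi hp
      refine Finset.mem_biUnion.mpr ⟨_, hv, ?_⟩
      refine Finset.mem_image.mpr ⟨t.2, hq, ?_⟩
      simp only [hxt]
    · right
      obtain ⟨v, hv, hz⟩ := D.flag_of_GS S ht2 hi hp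
      refine Finset.mem_biUnion.mpr ⟨_, hv, ?_⟩
      refine Finset.mem_image.mpr ⟨t.2, ?_, ?_⟩
      · simp only [hz]
        exact hq
      · simp only [hxt]
  refine (Finset.card_le_card hsub).trans ((Finset.card_union_le _ _).trans ?_)
  apply Nat.add_le_add
  · exact Finset.card_biUnion_le_card_mul _ _ _ fun f _ =>
      Finset.card_image_le.trans (D.card_TI S _ s (hS _))
  · exact Finset.card_biUnion_le_card_mul _ _ _ fun f _ =>
      Finset.card_image_le.trans (D.card_GS S _ _ s (hS _))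

theorem count_P2 (hS : ∀ i, (S i).card ≤ s) (x : V) :
    ((D.P2 S M).filter fun t => x = t.1.1 ∨ x = t.2.1).card ≤
      2 * ((D.AtI S Mᶜ x).card * (4 * s ^ 2) + (D.At S M x).card * (4 * s)) := by
  classical
  have h1 := D.count_P2_one S M hS x
  have hsub : ((D.P2 S M).filter fun t => x = t.1.1 ∨ x = t.2.1) ⊆
      ((D.P2 S M).filter fun t => t.1.1 = x) ∪
        (((D.P2 S M).filter fun t => t.1.1 = x).image Prod.swap) := by
    intro t ht
    obtain ⟨ht1, ht2⟩ := Finset.mem_filter.mp ht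
    rw [Finset.mem_union]
    rcases ht2 with h | h
    · left
      exact Finset.mem_filter.mpr ⟨ht1, h.symm⟩
    · right
      refine Finset.mem_image.mpr ⟨t.swap, Finset.mem_filter.mpr ⟨?_, h.symm⟩, Prod.swap_swap t⟩
      rw [mem_P2] at ht1 ⊢
      refine ⟨ht1.1.symm, ?_⟩
      rcases ht1.2 with ⟨i, hi, a, b⟩ | ⟨i, hi, z, a, b⟩
      · exact Or.inl ⟨i, hi, b, a⟩
      · exact Or.inr ⟨i, hi, z, b, a⟩
  have h2 : (((D.P2 S M).filter fun t => t.1.1 = x).image Prod.swap).card ≤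
      ((D.P2 S M).filter fun t => t.1.1 = x).card := Finset.card_image_le
  have h3 := (Finset.card_le_card hsub).trans (Finset.card_union_le _ _)
  omega

theorem count_P3 (hS : ∀ i, (S i).card ≤ s) (x : V) :
    ((D.P3 S M).filter fun t => x = t.1.1 ∨ x = t.2.1.1 ∨ x = t.2.2.1).card ≤
      (D.AtI S Mᶜ x).card * (k * (16 * s ^ 2)) + (D.At S Mᶜ x).card * (16 * s ^ 2) +
        2 * ((D.At S Mᶜ x).card * (4 * s * (4 * s ^ 2 + 4 * s))) := by
  classical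
  set Q1 := (D.AtI S Mᶜ x).biUnion fun f => (D.LK S f.2.2).image fun q => ((x, f.1), q) with hQ1
  set Q2 := (D.At S Mᶜ x).biUnion fun f => ((D.GS S f.2.2 (D.nv (x, f.1) f.2.1)) ×ˢ
    (D.GS S f.2.2 (D.nv (x, f.1) f.2.1))).image fun q => ((x, f.1), q) with hQ2
  set Q3 := (D.At S Mᶜ x).biUnion fun f => ((D.GS S f.2.2 (D.nv (x, f.1) f.2.1)) ×ˢ
    (D.TI S f.2.2 ∪ D.GS S f.2.2 (D.nv (x, f.1) f.2.1))).image
      fun q => (q.2, (x, f.1), q.1) with hQ3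
  set Q4 := (D.At S Mᶜ x).biUnion fun f => ((D.GS S f.2.2 (D.nv (x, f.1) f.2.1)) ×ˢ
    (D.TI S f.2.2 ∪ D.GS S f.2.2 (D.nv (x, f.1) f.2.1))).image
      fun q => (q.2, q.1, (x, f.1)) with hQ4
  have hsub : ((D.P3 S M).filter fun t => x = t.1.1 ∨ x = t.2.1.1 ∨ x = t.2.2.1) ⊆
      (Q1 ∪ Q2) ∪ (Q3 ∪ Q4) := by
    intro t ht
    obtain ⟨ht1, ht2⟩ := Finset.mem_filter.mp ht
    obtain ⟨_, _, _, i, hi, z, hq, hr, hp⟩ := (D.mem_P3 S M).mp ht1
    rw [Finset.mem_union, Finset.mem_union, Finset.mem_union]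
    rcases ht2 with h | h | h
    · left
      have hxt : (x, t.1.2) = t.1 := by rw [h]
      rcases hp with hp | hp
      · left
        obtain ⟨v, hv⟩ := D.flag_of_TI S h.symm hi hp
        refine Finset.mem_biUnion.mpr ⟨_, hv, Finset.mem_image.mpr ⟨t.2, ?_, ?_⟩⟩
        · exact (D.mem_LK S).mpr ⟨z, hq, hr⟩
        · simp only [hxt]
      · right
        obtain ⟨v, hv, hz⟩ := D.flag_of_GS S h.symm hi hp
        refine Finset.mem_biUnion.mpr ⟨_, hv, Finset.mem_image.mpr ⟨t.2, ?_, ?_⟩⟩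
        · simp only [hz]
          exact Finset.mem_product.mpr ⟨hq, hr⟩
        · simp only [hxt]
    · right
      left
      have hxt : (x, t.2.1.2) = t.2.1 := by rw [h]
      obtain ⟨v, hv, hz⟩ := D.flag_of_GS S h.symm hi hq
      refine Finset.mem_biUnion.mpr ⟨_, hv, Finset.mem_image.mpr ⟨(t.2.2, t.1), ?_, ?_⟩⟩
      · simp only [hz]
        refine Finset.mem_product.mpr ⟨hr, ?_⟩
        rw [Finset.mem_union]
        exact hp
      · simp only [hxt]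
    · right
      right
      have hxt : (x, t.2.2.2) = t.2.2 := by rw [h]
      obtain ⟨v, hv, hz⟩ := D.flag_of_GS S h.symm hi hr
      refine Finset.mem_biUnion.mpr ⟨_, hv, Finset.mem_image.mpr ⟨(t.2.1, t.1), ?_, ?_⟩⟩
      · simp only [hz]
        refine Finset.mem_product.mpr ⟨hq, ?_⟩
        rw [Finset.mem_union]
        exact hp
      · simp only [hxt]
  have c1 : Q1.card ≤ (D.AtI S Mᶜ x).card * (k * (16 * s ^ 2)) :=
    Finset.card_biUnion_le_card_mul _ _ _ fun f _ =>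
      Finset.card_image_le.trans (D.card_LK S _ s (hS _))
  have c2 : Q2.card ≤ (D.At S Mᶜ x).card * (16 * s ^ 2) := by
    refine Finset.card_biUnion_le_card_mul _ _ _ fun f _ => Finset.card_image_le.trans ?_
    rw [Finset.card_product]
    have := D.card_GS S f.2.2 (D.nv (x, f.1) f.2.1) s (hS _)
    calc _ ≤ (4 * s) * (4 * s) := Nat.mul_le_mul this this
      _ = 16 * s ^ 2 := by ring
  have cc : ∀ f : Fin k × V × ι, ((D.GS S f.2.2 (D.nv (x, f.1) f.2.1)) ×ˢ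
    (D.TI S f.2.2 ∪ D.GS S f.2.2 (D.nv (x, f.1) f.2.1))).card ≤ 4 * s * (4 * s ^ 2 + 4 * s) := by
    intro f
    rw [Finset.card_product]
    have h1 := D.card_GS S f.2.2 (D.nv (x, f.1) f.2.1) s (hS _)
    have h2 := D.card_TI S f.2.2 s (hS _)
    exact Nat.mul_le_mul h1 ((Finset.card_union_le _ _).trans (Nat.add_le_add h2 h1))
  have c3 : Q3.card ≤ (D.At S Mᶜ x).card * (4 * s * (4 * s ^ 2 + 4 * s)) :=
    Finset.card_biUnion_le_card_mul _ _ _ fun f _ => Finset.card_image_le.trans (cc f)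
  have c4 : Q4.card ≤ (D.At S Mᶜ x).card * (4 * s * (4 * s ^ 2 + 4 * s)) :=
    Finset.card_biUnion_le_card_mul _ _ _ fun f _ => Finset.card_image_le.trans (cc f)
  have h1 := Finset.card_le_card hsub
  have h2 := Finset.card_union_le (Q1 ∪ Q2) (Q3 ∪ Q4)
  have h3 := Finset.card_union_le Q1 Q2
  have h4 := Finset.card_union_le Q3 Q4
  omega

theorem count_P4_one (hS : ∀ i, (S i).card ≤ s) (x : V) :
    ((D.P4 S M).filter fun t => t.1.1.1 = x).card ≤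
      (D.At S Mᶜ x).card * (4 * s * (k * (16 * s ^ 2))) := by
  classical
  set Q := (D.At S Mᶜ x).biUnion fun f => ((D.GS S f.2.2 (D.nv (x, f.1) f.2.1)) ×ˢ
    (D.LK S f.2.2)).image fun q => (((x, f.1), q.1), q.2) with hQ
  have hsub : ((D.P4 S M).filter fun t => t.1.1.1 = x) ⊆ Q := by
    intro t ht
    obtain ⟨ht1, ht2⟩ := Finset.mem_filter.mp ht
    obtain ⟨_, _, _, _, _, _, i, hi, hp, hq⟩ := (D.mem_P4 S M).mp ht1
    obtain ⟨z, hp1, hp2⟩ := (D.mem_LK S).mp hp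
    obtain ⟨v, hv, hz⟩ := D.flag_of_GS S ht2 hi hp1
    have hxt : (x, t.1.1.2) = t.1.1 := by rw [← ht2]
    refine Finset.mem_biUnion.mpr ⟨_, hv, Finset.mem_image.mpr ⟨(t.1.2, t.2), ?_, ?_⟩⟩
    · simp only [hz]
      exact Finset.mem_product.mpr ⟨hp2, hq⟩
    · simp only [hxt]
  refine (Finset.card_le_card hsub).trans ?_
  refine Finset.card_biUnion_le_card_mul _ _ _ fun f _ => Finset.card_image_le.trans ?_
  rw [Finset.card_product]
  exact Nat.mul_le_mul (D.card_GS S _ _ s (hS _)) (D.card_LK S _ s (hS _))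

theorem LK_swap {i : ι} {p : (V × Fin k) × (V × Fin k)} (h : p ∈ D.LK S i) :
    p.swap ∈ D.LK S i := by
  obtain ⟨z, h1, h2⟩ := (D.mem_LK S).mp h
  exact (D.mem_LK S).mpr ⟨z, h2, h1⟩

theorem count_P4 (hS : ∀ i, (S i).card ≤ s) (x : V) :
    ((D.P4 S M).filter fun t => (x = t.1.1.1 ∨ x = t.1.2.1) ∨ (x = t.2.1.1 ∨ x = t.2.2.1)).card ≤
      4 * ((D.At S Mᶜ x).card * (4 * s * (k * (16 * s ^ 2)))) := by
  classical
  have h1 := D.count_P4_one S M hS x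
  set F := ((D.P4 S M).filter fun t => t.1.1.1 = x) with hF
  have hsub : ((D.P4 S M).filter fun t => (x = t.1.1.1 ∨ x = t.1.2.1) ∨
      (x = t.2.1.1 ∨ x = t.2.2.1)) ⊆
      (F ∪ F.image fun t => (t.1.swap, t.2)) ∪ (F.image (fun t => (t.2, t.1)) ∪
        F.image fun t => (t.2, t.1.swap)) := by
    intro t ht
    obtain ⟨ht1, ht2⟩ := Finset.mem_filter.mp ht
    obtain ⟨a1, a2, a3, a4, a5, a6, i, hi, hp, hq⟩ := (D.mem_P4 S M).mp ht1
    rw [Finset.mem_union, Finset.mem_union, Finset.mem_union]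
    rcases ht2 with (h | h) | (h | h)
    · left; left
      exact Finset.mem_filter.mpr ⟨ht1, h.symm⟩
    · left; right
      refine Finset.mem_image.mpr ⟨(t.1.swap, t.2), Finset.mem_filter.mpr ⟨?_, h.symm⟩, ?_⟩
      · exact (D.mem_P4 S M).mpr ⟨a1.symm, a4, a5, a2, a3, a6, i, hi, D.LK_swap S hp, hq⟩
      · simp
    · right; left
      refine Finset.mem_image.mpr ⟨(t.2, t.1), Finset.mem_filter.mpr ⟨?_, h.symm⟩, ?_⟩
      · exact (D.mem_P4 S M).mpr ⟨a6, a2.symm, a4.symm, a3.symm, a5.symm, a1, i, hi, hq, hp⟩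
      · simp
    · right; right
      refine Finset.mem_image.mpr ⟨(t.2.swap, t.1), Finset.mem_filter.mpr ⟨?_, h.symm⟩, ?_⟩
      · exact (D.mem_P4 S M).mpr ⟨a6.symm, a3.symm, a5.symm, a2.symm, a4.symm, a1, i, hi,
          D.LK_swap S hq, hp⟩
      · simp
  have c1 : (F.image fun t => (t.1.swap, t.2)).card ≤ F.card := Finset.card_image_le
  have c2 : (F.image fun t => (t.2, t.1)).card ≤ F.card := Finset.card_image_le
  have c3 : (F.image fun t => (t.2, t.1.swap)).card ≤ F.card := Finset.card_image_le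
  have h2 := Finset.card_le_card hsub
  have h3 := Finset.card_union_le (F ∪ F.image fun t => (t.1.swap, t.2))
    (F.image (fun t => (t.2, t.1)) ∪ F.image fun t => (t.2, t.1.swap))
  have h4 := Finset.card_union_le F (F.image fun t => (t.1.swap, t.2))
  have h5 := Finset.card_union_le (F.image (fun t => (t.2, t.1)))
    (F.image fun t => (t.2, t.1.swap))
  omega

end Data

end Pool.Agent.Helper14.Pcg
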