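import Pool.Agent.Helper14.Pcg.Pats

/-! # If no pattern is active, all sets keep a unique colour -/

set_option autoImplicit false
set_option linter.unusedSectionVars false

namespace Pool.Agent.Helper14.Pcg

open Finset
open Pool.Agent.Helper14.Pcf (cnt cnt_pos eq_of_cnt_le_one)

variable {V ι : Type*} [Fintype V] [DecidableEq V] [Fintype ι] [DecidableEq ι]
  {G₀ G : SimpleGraph V} [DecidableRel G₀.Adj] [DecidableRel G.Adj] {k : ℕ}

theorem exists_partner {c : V → Fin k} {T : Finset V} (h : ¬ HasUniq c T) {v : V} (hv : v ∈ T) :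
    ∃ v' ∈ T, v' ≠ v ∧ c v' = c v := by
  by_contra hcon
  push Not at hcon
  apply h
  refine ⟨c v, ?_⟩
  rw [Finset.card_eq_one]
  refine ⟨v, ?_⟩
  ext u
  rw [Finset.mem_filter, Finset.mem_singleton]
  constructor
  · rintro ⟨hu, hc⟩
    by_contra hne
    exact hcon u hu hne hc
  · rintro rfl
    exact ⟨hv, rfl⟩

namespace Data

variable (D : Data G₀ G k) (S : ι → Finset V) (M : Finset ι)

section exec

variable {Act : V → Prop} {yy : V → Fin k}

/-- Two touched vertices of one operation: one of them moves to the colour of the other. -/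
theorem two_touched {u a b : V} {y : Fin k} (hval : D.Valid (u, y)) (ha : a ∈ D.T (u, y))
    (hb : b ∈ D.T (u, y)) (hab : a ≠ b) :
    (a = u ∧ D.c b = y) ∨ (b = u ∧ D.c a = y) := by
  rw [mem_T] at ha hb
  simp only at ha hb
  rcases ha with ha | ⟨ha, ha'⟩
  · rcases hb with hb | ⟨hb, hb'⟩
    · exact absurd (ha.trans hb.symm) hab
    · exact Or.inl ⟨ha, hb'⟩
  · rcases hb with hb | ⟨hb, hb'⟩
    · exact Or.inr ⟨hb, ha'⟩
    · exact absurd (eq_of_cnt_le_one hval.2.1 ha hb ha' hb') hab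

theorem set_marked (hnc : ∀ u v, Act u → Act v → u ≠ v → ¬ D.Conf (u, yy u) (v, yy v))
    (hval : ∀ u, Act u → D.Valid (u, yy u))
    (h2 : ∀ u v, Act u → Act v → ((u, yy u), (v, yy v)) ∉ D.P2 S M) {i : ι} (hi : i ∈ M)
    (hU : HasUniq D.c (S i)) (hmark : ∀ u ∈ S i, ∀ v ∈ S i, D.c u ∈ D.hm v) :
    HasUniq (D.fin Act yy) (S i) := by
  classical
  by_cases hex : ∃ u, Act u ∧ ∃ v ∈ S i, v ∈ D.T (u, yy u)
  · obtain ⟨u₀, hu₀, v₀, hv₀, hT₀⟩ := hex
    refine ⟨D.fin Act yy v₀, ?_⟩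
    rw [Finset.card_eq_one]
    refine ⟨v₀, ?_⟩
    ext v
    rw [Finset.mem_filter, Finset.mem_singleton]
    constructor
    · rintro ⟨hv, hc⟩
      by_contra hne
      have hf₀ := D.fin_touched hnc hu₀ hT₀
      by_cases ht : ∃ u, Act u ∧ v ∈ D.T (u, yy u)
      · obtain ⟨u₁, hu₁, hT₁⟩ := ht
        have hf₁ := D.fin_touched hnc hu₁ hT₁
        by_cases hu : u₁ = u₀
        · subst hu
          rcases D.two_touched (hval _ hu₁) hT₁ hT₀ hne with ⟨h, h'⟩ | ⟨h, h'⟩
          · apply (hval _ hu₁).2.2.1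
            simp only
            rw [← h', ← h]
            exact hmark _ hv₀ _ hv
          · apply (hval _ hu₁).2.2.1
            simp only
            rw [← h', ← h]
            exact hmark _ hv _ hv₀
        · apply h2 u₁ u₀ hu₁ hu₀
          rw [mem_P2]
          refine ⟨hu, Or.inr ⟨i, hi, D.fin Act yy v₀, ?_, ?_⟩⟩
          · exact (D.mem_GS S).mpr ⟨v, hv, hval _ hu₁, hT₁, by rw [← hf₁, hc]⟩
          · exact (D.mem_GS S).mpr ⟨v₀, hv₀, hval _ hu₀, hT₀, by rw [← hf₀]⟩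
      · push Not at ht
        rw [D.fin_untouched ht, hf₀] at hc
        apply D.nv_notMem_hm (hval _ hu₀) hT₀
        rw [← hc]
        exact hmark _ hv _ hv₀
    · rintro rfl
      exact ⟨hv₀, rfl⟩
  · push Not at hex
    obtain ⟨κ, hκ⟩ := hU
    refine ⟨κ, ?_⟩
    rw [← hκ]
    congr 1
    apply Finset.filter_congr
    intro v hv
    rw [D.fin_untouched (fun u hu hT => hex u hu v hv hT)]

theorem set_unmarked (hnc : ∀ u v, Act u → Act v → u ≠ v → ¬ D.Conf (u, yy u) (v, yy v))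
    (hval : ∀ u, Act u → D.Valid (u, yy u))
    (h2 : ∀ u v, Act u → Act v → ((u, yy u), (v, yy v)) ∉ D.P2 S M)
    (h3 : ∀ u v w, Act u → Act v → Act w →
      ((u, yy u), (v, yy v), (w, yy w)) ∉ D.P3 S M)
    (h4 : ∀ u v w t, Act u → Act v → Act w → Act t →
      (((u, yy u), (v, yy v)), ((w, yy w), (t, yy t))) ∉ D.P4 S M)
    {i : ι} (hi : i ∉ M) (hinj : ∀ u ∈ S i, ∀ v ∈ S i, D.c u = D.c v → u = v)
    (hcard : 3 ≤ (S i).card) :
    HasUniq (D.fin Act yy) (S i) := by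
  classical
  by_contra hnot
  have hi' : i ∈ Mᶜ := Finset.mem_compl.mpr hi
  set c' := D.fin Act yy with hc'
  -- at most one active operation of the first kind
  have hone : ∀ u v, Act u → Act v → (u, yy u) ∈ D.TI S i → (v, yy v) ∈ D.TI S i → u = v := by
    intro u v hu hv h h'
    by_contra hne
    exact h2 u v hu hv ((D.mem_P2 S M).mpr ⟨hne, Or.inl ⟨i, hi', h, h'⟩⟩)
  have hTI : ∀ u v, Act u → v ∈ S i → v ∈ D.T (u, yy u) → c' v ∈ (S i).image D.c →
      (u, yy u) ∈ D.TI S i := by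
    intro u v hu hv hT hc
    rw [mem_TI]
    exact ⟨v, hv, hval u hu, hT, by rw [← D.fin_touched hnc hu hT]; exact hc⟩
  have hmemc : ∀ v ∈ S i, D.c v ∈ (S i).image D.c := fun v hv => Finset.mem_image_of_mem _ hv
  -- two touched vertices in `S i` give the first kind
  have htwo : ∀ u a b, Act u → a ∈ S i → b ∈ S i → a ∈ D.T (u, yy u) → b ∈ D.T (u, yy u) →
      a ≠ b → (u, yy u) ∈ D.TI S i := by
    intro u a b hu ha hb hTa hTb hab
    rcases D.two_touched (hval u hu) hTa hTb hab with ⟨h, h'⟩ | ⟨h, h'⟩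
    · apply hTI u a hu ha hTa
      rw [hc', D.fin_touched hnc hu hTa, h]
      have := D.nv_self (u, yy u)
      simp only at this
      rw [this, ← h']
      exact hmemc b hb
    · apply hTI u b hu hb hTb
      rw [hc', D.fin_touched hnc hu hTb, h]
      have := D.nv_self (u, yy u)
      simp only at this
      rw [this, ← h']
      exact hmemc a ha
  by_cases hex : ∃ u, Act u ∧ (u, yy u) ∈ D.TI S i
  · obtain ⟨u₁, hu₁, hTI₁⟩ := hex
    obtain ⟨v₁, hv₁, _, hT₁, hz⟩ := (D.mem_TI S).mp hTI₁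
    have hf₁ : c' v₁ = D.nv (u₁, yy u₁) v₁ := D.fin_touched hnc hu₁ hT₁
    by_cases hB : ∃ v ∈ S i, v ∈ D.T (u₁, yy u₁) ∧ v ≠ v₁
    · -- both touched vertices are in `S i`
      obtain ⟨v, hv, hT, hne⟩ := hB
      -- the mover `a` and the blocker `b`
      obtain ⟨a, b, ha, hb, hTa, hTb, hab, hau, hby⟩ : ∃ a b, a ∈ S i ∧ b ∈ S i ∧
          a ∈ D.T (u₁, yy u₁) ∧ b ∈ D.T (u₁, yy u₁) ∧ a ≠ b ∧ a = u₁ ∧ D.c b = yy u₁ := by
        rcases D.two_touched (hval u₁ hu₁) hT hT₁ hne with ⟨h, h'⟩ | ⟨h, h'⟩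
        · exact ⟨v, v₁, hv, hv₁, hT, hT₁, hne, h, h'⟩
        · exact ⟨v₁, v, hv₁, hv, hT₁, hT, hne.symm, h, h'⟩
      have hca : c' a = D.c b := by
        rw [hc', D.fin_touched hnc hu₁ hTa, hau, hby]
        exact D.nv_self (u₁, yy u₁)
      obtain ⟨v', hv', hne', hcv'⟩ := exists_partner hnot ha
      rw [hca] at hcv'
      by_cases ht : ∃ u, Act u ∧ v' ∈ D.T (u, yy u)
      · obtain ⟨w, hw, hTw⟩ := ht
        have hw1 : (w, yy w) ∈ D.TI S i := by
          apply hTI w v' hw hv' hTw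
          rw [hcv']
          exact hmemc b hb
        have hwu : w = u₁ := hone w u₁ hw hu₁ hw1 hTI₁
        subst hwu
        -- then v' = b
        have hvb : v' = b := by
          by_contra hvb
          have h5 := D.two_touched (hval w hw) hTw hTb hvb
          rcases h5 with ⟨h, _⟩ | ⟨h, _⟩
          · exact hne' (h.trans hau.symm)
          · exact hab (hau.trans h.symm)
        rw [hvb, hc', D.fin_touched hnc hw hTb] at hcv'
        exact D.nv_ne (hval w hw) hTb hcv'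
      · push Not at ht
        rw [hc', D.fin_untouched ht] at hcv'
        have hvb := hinj v' hv' b hb hcv'
        rw [hvb] at ht
        exact ht u₁ hu₁ hTb
    · push Not at hB
      -- exactly one touched vertex in `S i`
      have hbex : ∃ b ∈ S i, b ≠ v₁ ∧ D.c b ≠ D.nv (u₁, yy u₁) v₁ := by
        by_contra hcon
        push Not at hcon
        have h5 : (S i).erase v₁ ⊆ (S i).filter fun b => D.c b = D.nv (u₁, yy u₁) v₁ := by
          intro b hb
          obtain ⟨hb1, hb2⟩ := Finset.mem_erase.mp hb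
          exact Finset.mem_filter.mpr ⟨hb2, hcon b hb2 hb1⟩
        have h6 := Finset.card_le_card h5
        have h7 : ((S i).filter fun b => D.c b = D.nv (u₁, yy u₁) v₁).card ≤ 1 := by
          rw [Finset.card_le_one]
          intro a ha b hb
          obtain ⟨ha1, ha2⟩ := Finset.mem_filter.mp ha
          obtain ⟨hb1, hb2⟩ := Finset.mem_filter.mp hb
          exact hinj a ha1 b hb1 (ha2.trans hb2.symm)
        rw [Finset.card_erase_of_mem hv₁] at h6
        omega
      obtain ⟨b, hb, hbv, hbz⟩ := hbex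
      by_cases ht : ∃ u, Act u ∧ b ∈ D.T (u, yy u)
      · obtain ⟨w, hw, hTw⟩ := ht
        have hwu : w ≠ u₁ := by
          rintro rfl
          exact hbv (hB b hb hTw)
        have hwTI : (w, yy w) ∉ D.TI S i := fun h => hwu (hone w u₁ hw hu₁ h hTI₁)
        have hcb : c' b ∉ (S i).image D.c := fun h => hwTI (hTI w b hw hb hTw h)
        obtain ⟨v', hv', hne', hcv'⟩ := exists_partner hnot hb
        by_cases ht' : ∃ u, Act u ∧ v' ∈ D.T (u, yy u)
        · obtain ⟨w', hw', hTw'⟩ := ht'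
          have hww' : w' ≠ w := by
            rintro rfl
            exact hwTI (htwo w' v' b hw' hv' hb hTw' hTw hne')
          have hwu' : w' ≠ u₁ := by
            rintro rfl
            have h5 : v' = v₁ := hB v' hv' hTw'
            apply hcb
            rw [← hcv', h5, hf₁]
            exact hz
          apply h3 u₁ w w' hu₁ hw hw'
          rw [mem_P3]
          refine ⟨hwu.symm, hwu'.symm, hww'.symm, i, hi', c' b, ?_, ?_, Or.inl hTI₁⟩
          · exact (D.mem_GS S).mpr ⟨b, hb, hval w hw, hTw, (D.fin_touched hnc hw hTw).symm⟩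
          · exact (D.mem_GS S).mpr ⟨v', hv', hval w' hw', hTw', by
              rw [← D.fin_touched hnc hw' hTw']; exact hcv'⟩
        · push Not at ht'
          apply hcb
          rw [← hcv', hc', D.fin_untouched ht']
          exact hmemc v' hv'
      · push Not at ht
        have hcb : c' b = D.c b := D.fin_untouched ht
        obtain ⟨v', hv', hne', hcv'⟩ := exists_partner hnot hb
        rw [hcb] at hcv'
        by_cases ht' : ∃ u, Act u ∧ v' ∈ D.T (u, yy u)
        · obtain ⟨w', hw', hTw'⟩ := ht'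
          have h5 : (w', yy w') ∈ D.TI S i := hTI w' v' hw' hv' hTw' (by
            rw [hcv']; exact hmemc b hb)
          have h6 : w' = u₁ := hone w' u₁ hw' hu₁ h5 hTI₁
          subst h6
          have h7 : v' = v₁ := hB v' hv' hTw'
          rw [h7, hf₁] at hcv'
          exact hbz hcv'.symm
        · push Not at ht'
          rw [hc', D.fin_untouched ht'] at hcv'
          exact hne' (hinj v' hv' b hb hcv')
  · push Not at hex
    -- every vertex is touched
    have hall : ∀ v ∈ S i, ∃ u, Act u ∧ v ∈ D.T (u, yy u) := by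
      intro v hv
      by_contra ht
      push Not at ht
      obtain ⟨v', hv', hne', hcv'⟩ := exists_partner hnot hv
      rw [show c' v = D.c v from D.fin_untouched ht] at hcv'
      by_cases ht' : ∃ u, Act u ∧ v' ∈ D.T (u, yy u)
      · obtain ⟨w', hw', hTw'⟩ := ht'
        exact hex w' hw' (hTI w' v' hw' hv' hTw' (by rw [hcv']; exact hmemc v hv))
      · push Not at ht'
        rw [show c' v' = D.c v' from D.fin_untouched ht'] at hcv'
        exact hne' (hinj v' hv' v hv hcv')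
    have hdiff : ∀ u u' v v', Act u → Act u' → v ∈ S i → v' ∈ S i → v ∈ D.T (u, yy u) →
        v' ∈ D.T (u', yy u') → v ≠ v' → u ≠ u' := by
      rintro u u' v v' hu hu' hv hv' hT hT' hne rfl
      exact hex u hu (htwo u v v' hu hv hv' hT hT' hne)
    have hsame : ∀ u v v', Act u → v ∈ S i → v' ∈ S i → v ∈ D.T (u, yy u) →
        v' ∈ D.T (u, yy u) → v = v' := by
      intro u v v' hu hv hv' hT hT'
      by_contra hne
      exact hdiff u u v v' hu hu hv hv' hT hT' hne rfl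
    obtain ⟨v₁, hv₁⟩ : (S i).Nonempty := by
      rw [← Finset.card_pos]; omega
    obtain ⟨v₂, hv₂, h21, hc2⟩ := exists_partner hnot hv₁
    obtain ⟨v₃, hv₃, h3'⟩ : ∃ v ∈ S i, v ∉ ({v₁, v₂} : Finset V) := by
      by_contra hcon
      push Not at hcon
      have := Finset.card_le_card (s := S i) (t := {v₁, v₂}) hcon
      have := Finset.card_le_two (a := v₁) (b := v₂)
      omega
    rw [Finset.mem_insert, Finset.mem_singleton, not_or] at h3'
    obtain ⟨v₄, hv₄, h43, hc4⟩ := exists_partner hnot hv₃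
    obtain ⟨u₁, hu₁, hT₁⟩ := hall v₁ hv₁
    obtain ⟨u₂, hu₂, hT₂⟩ := hall v₂ hv₂
    obtain ⟨u₃, hu₃, hT₃⟩ := hall v₃ hv₃
    obtain ⟨u₄, hu₄, hT₄⟩ := hall v₄ hv₄
    have e12 := hdiff u₁ u₂ v₁ v₂ hu₁ hu₂ hv₁ hv₂ hT₁ hT₂ h21.symm
    have e13 := hdiff u₁ u₃ v₁ v₃ hu₁ hu₃ hv₁ hv₃ hT₁ hT₃ (Ne.symm h3'.1)
    have e23 := hdiff u₂ u₃ v₂ v₃ hu₂ hu₃ hv₂ hv₃ hT₂ hT₃ (Ne.symm h3'.2)
    have e34 := hdiff u₃ u₄ v₃ v₄ hu₃ hu₄ hv₃ hv₄ hT₃ hT₄ h43.symm
    have g1 : (u₁, yy u₁) ∈ D.GS S i (c' v₁) :=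
      (D.mem_GS S).mpr ⟨v₁, hv₁, hval _ hu₁, hT₁, (D.fin_touched hnc hu₁ hT₁).symm⟩
    have g2 : (u₂, yy u₂) ∈ D.GS S i (c' v₁) :=
      (D.mem_GS S).mpr ⟨v₂, hv₂, hval _ hu₂, hT₂, by rw [← D.fin_touched hnc hu₂ hT₂]; exact hc2⟩
    have g3 : (u₃, yy u₃) ∈ D.GS S i (c' v₃) :=
      (D.mem_GS S).mpr ⟨v₃, hv₃, hval _ hu₃, hT₃, (D.fin_touched hnc hu₃ hT₃).symm⟩
    have g4 : (u₄, yy u₄) ∈ D.GS S i (c' v₃) :=
      (D.mem_GS S).mpr ⟨v₄, hv₄, hval _ hu₄, hT₄, by rw [← D.fin_touched hnc hu₄ hT₄]; exact hc4⟩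
    by_cases e41 : u₄ = u₁
    · subst e41
      have h5 : v₁ = v₄ := hsame _ v₁ v₄ hu₁ hv₁ hv₄ hT₁ hT₄
      have h6 : c' v₃ = c' v₁ := by rw [h5]; exact hc4.symm
      apply h3 u₃ u₄ u₂ hu₃ hu₁ hu₂
      rw [mem_P3]
      exact ⟨e34, e23.symm, e12, i, hi', c' v₁, g1, g2, Or.inr (by rw [← h6]; exact g3)⟩
    · by_cases e42 : u₄ = u₂
      · subst e42
        have h5 : v₂ = v₄ := hsame _ v₂ v₄ hu₂ hv₂ hv₄ hT₂ hT₄
        have h6 : c' v₃ = c' v₁ := by
          rw [← hc2, h5]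
          exact hc4.symm
        apply h3 u₃ u₁ u₄ hu₃ hu₁ hu₂
        rw [mem_P3]
        exact ⟨e13.symm, e34, e12, i, hi', c' v₁, g1, g2, Or.inr (by rw [← h6]; exact g3)⟩
      · apply h4 u₁ u₂ u₃ u₄ hu₁ hu₂ hu₃ hu₄
        rw [mem_P4]
        exact ⟨e12, e13, fun h => e41 h.symm, e23, fun h => e42 h.symm, e34, i, hi',
          (D.mem_LK S).mpr ⟨_, g1, g2⟩, (D.mem_LK S).mpr ⟨_, g3, g4⟩⟩

end exec

end Data

end Pool.Agent.Helper14.Pcg
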