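import Pool.Agent.Helper14.Pcg.Fam

/-! # Patterns of operations breaking a set -/

set_option autoImplicit false
set_option linter.unusedSectionVars false

namespace Pool.Agent.Helper14.Pcg

open Finset
open Pool.Agent.Helper14.Pcf (cnt cnt_pos eq_of_cnt_le_one)

variable {V ι : Type*} [Fintype V] [DecidableEq V] [Fintype ι] [DecidableEq ι]
  {G₀ G : SimpleGraph V} [DecidableRel G₀.Adj] [DecidableRel G.Adj] {k : ℕ}

namespace Data

variable (D : Data G₀ G k) (S : ι → Finset V)

open Classical in
/-- The flags at `x`: the operation `(x,y)` touches the vertex `v` of the set `S i`. -/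
noncomputable def At (M : Finset ι) (x : V) : Finset (Fin k × V × ι) :=
  Finset.univ.filter fun t => D.Valid (x, t.1) ∧ t.2.1 ∈ D.T (x, t.1) ∧ t.2.1 ∈ S t.2.2 ∧ t.2.2 ∈ M

theorem mem_At {M : Finset ι} {x : V} {y : Fin k} {v : V} {i : ι} :
    (y, v, i) ∈ D.At S M x ↔ D.Valid (x, y) ∧ v ∈ D.T (x, y) ∧ v ∈ S i ∧ i ∈ M := by
  classical
  simp [At]

theorem card_At (M : Finset ι) (x : V) (B : ℕ)
    (hB : ∀ v, (M.filter fun i => v ∈ S i).card ≤ B) :
    (D.At S M x).card ≤ k * (2 * B) := by
  classical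
  have hsub : D.At S M x ⊆ ((Finset.univ : Finset (Fin k)).filter fun y => D.Valid (x, y)).biUnion
      fun y => (D.T (x, y)).biUnion fun v => (M.filter fun i => v ∈ S i).image fun i =>
        (y, v, i) := by
    rintro ⟨y, v, i⟩ ht
    obtain ⟨h1, h2, h3, h4⟩ := (D.mem_At S).mp ht
    refine Finset.mem_biUnion.mpr ⟨y, Finset.mem_filter.mpr ⟨Finset.mem_univ _, h1⟩, ?_⟩
    refine Finset.mem_biUnion.mpr ⟨v, h2, ?_⟩
    exact Finset.mem_image.mpr ⟨i, Finset.mem_filter.mpr ⟨h4, h3⟩, rfl⟩
  refine (Finset.card_le_card hsub).trans ?_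
  refine (Finset.card_biUnion_le_card_mul _ _ (2 * B) ?_).trans ?_
  · intro y hy
    refine (Finset.card_biUnion_le_card_mul _ _ B ?_).trans ?_
    · intro v _
      exact Finset.card_image_le.trans (hB v)
    · exact Nat.mul_le_mul_right _ (D.card_T (Finset.mem_filter.mp hy).2)
  · apply Nat.mul_le_mul_right
    refine (Finset.card_filter_le _ _).trans ?_
    simp

open Classical in
/-- The flags of the first kind: the new colour is one of the colours of the set. -/
noncomputable def AtI (M : Finset ι) (x : V) : Finset (Fin k × V × ι) :=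
  (D.At S M x).filter fun t => D.nv (x, t.1) t.2.1 ∈ (S t.2.2).image D.c

theorem card_AtI (M : Finset ι) (x : V) (s B : ℕ) (hS : ∀ i, (S i).card ≤ s)
    (hB : (Finset.univ.filter fun i => x ∈ S i).card ≤ B)
    (hpop : ∀ v z, z ∉ D.hm v →
      s ^ 5 * (Finset.univ.filter fun i => v ∈ S i ∧ z ∈ (S i).image D.c).card ≤ k) :
    s ^ 5 * (D.AtI S M x).card ≤ s ^ 5 * (B * s) + k * k := by
  classical
  set A1 : Finset (Fin k × V × ι) := (Finset.univ.filter fun i => x ∈ S i).biUnion fun i =>
    ((S i).image D.c).image fun y => (y, x, i) with hA1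
  set A2 : V → Finset (Fin k × V × ι) := fun a =>
    (Finset.univ.filter fun i => D.Valid (x, D.c a) ∧ a ∈ S i ∧
      D.nv (x, D.c a) a ∈ (S i).image D.c).image fun i => (D.c a, a, i) with hA2
  have hsub : D.AtI S M x ⊆ A1 ∪ (G.neighborFinset x).biUnion A2 := by
    rintro ⟨y, v, i⟩ ht
    obtain ⟨ht1, ht2⟩ := Finset.mem_filter.mp ht
    obtain ⟨h1, h2, h3, h4⟩ := (D.mem_At S).mp ht1
    rw [Finset.mem_union]
    rw [mem_T] at h2
    rcases h2 with h2 | ⟨h2, h5⟩
    · left
      simp only at h2 ht2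
      subst h2
      refine Finset.mem_biUnion.mpr ⟨i, Finset.mem_filter.mpr ⟨Finset.mem_univ _, h3⟩, ?_⟩
      refine Finset.mem_image.mpr ⟨y, ?_, rfl⟩
      have := D.nv_self (v, y)
      simp only at this
      rwa [this] at ht2
    · right
      simp only at h2 h5 ht2
      subst h5
      refine Finset.mem_biUnion.mpr ⟨v, by simpa using h2, ?_⟩
      exact Finset.mem_image.mpr ⟨i, Finset.mem_filter.mpr ⟨Finset.mem_univ _, h1, h3, ht2⟩, rfl⟩
  have c1 : A1.card ≤ B * s := by
    refine (Finset.card_biUnion_le_card_mul _ _ s ?_).trans (Nat.mul_le_mul_right _ hB)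
    intro i _
    exact Finset.card_image_le.trans (Finset.card_image_le.trans (hS i))
  have c2 : s ^ 5 * ((G.neighborFinset x).biUnion A2).card ≤ k * k := by
    have h1 : ((G.neighborFinset x).biUnion A2).card ≤ ∑ a ∈ G.neighborFinset x, (A2 a).card :=
      Finset.card_biUnion_le
    calc s ^ 5 * ((G.neighborFinset x).biUnion A2).card
        ≤ s ^ 5 * ∑ a ∈ G.neighborFinset x, (A2 a).card := Nat.mul_le_mul_left _ h1
      _ = ∑ a ∈ G.neighborFinset x, s ^ 5 * (A2 a).card := Finset.mul_sum _ _ _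
      _ ≤ ∑ _a ∈ G.neighborFinset x, k := by
          apply Finset.sum_le_sum
          intro a ha
          by_cases hval : D.Valid (x, D.c a)
          · have hxa : G.Adj x a := by simpa using ha
            have hT : a ∈ D.T (x, D.c a) := by
              rw [mem_T]
              exact Or.inr ⟨hxa, rfl⟩
            have h2 := hpop a (D.nv (x, D.c a) a) (D.nv_notMem_hm hval hT)
            refine le_trans (Nat.mul_le_mul_left _ ?_) h2
            refine Finset.card_image_le.trans (Finset.card_le_card ?_)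
            intro i hi
            have h3 := Finset.mem_filter.mp hi
            exact Finset.mem_filter.mpr ⟨h3.1, h3.2.2⟩
          · have : A2 a = ∅ := by
              rw [hA2]
              simp only
              rw [Finset.image_eq_empty, Finset.filter_eq_empty_iff]
              intro i _ h
              exact hval h.1
            rw [this]
            simp
      _ = (G.neighborFinset x).card * k := by rw [Finset.sum_const, smul_eq_mul]
      _ ≤ k * k := by
          apply Nat.mul_le_mul_right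
          rw [SimpleGraph.card_neighborFinset_eq_degree]
          have := D.deg x
          omega
  calc s ^ 5 * (D.AtI S M x).card ≤ s ^ 5 * (A1.card + ((G.neighborFinset x).biUnion A2).card) :=
        Nat.mul_le_mul_left _ ((Finset.card_le_card hsub).trans (Finset.card_union_le _ _))
    _ = s ^ 5 * A1.card + s ^ 5 * ((G.neighborFinset x).biUnion A2).card := Nat.mul_add _ _ _
    _ ≤ s ^ 5 * (B * s) + k * k := Nat.add_le_add (Nat.mul_le_mul_left _ c1) c2

/-- The operations giving a vertex of `S i` the colour `z`. -/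
noncomputable def GS (i : ι) (z : Fin k) : Finset (V × Fin k) :=
  (S i).biUnion fun v => D.giving v z

theorem mem_GS {i : ι} {z : Fin k} {p : V × Fin k} :
    p ∈ D.GS S i z ↔ ∃ v ∈ S i, D.Valid p ∧ v ∈ D.T p ∧ D.nv p v = z := by
  simp [GS, mem_giving]

theorem card_GS (i : ι) (z : Fin k) (s : ℕ) (hS : (S i).card ≤ s) :
    (D.GS S i z).card ≤ 4 * s := by
  refine (Finset.card_biUnion_le_card_mul _ _ 4 (fun v _ => D.card_giving v z)).trans ?_
  rw [mul_comm]
  exact Nat.mul_le_mul_left _ hS

/-- The operations of the first kind at `S i`. -/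
noncomputable def TI (i : ι) : Finset (V × Fin k) :=
  ((S i).image D.c).biUnion fun z => D.GS S i z

theorem mem_TI {i : ι} {p : V × Fin k} :
    p ∈ D.TI S i ↔ ∃ v ∈ S i, D.Valid p ∧ v ∈ D.T p ∧ D.nv p v ∈ (S i).image D.c := by
  unfold TI
  rw [Finset.mem_biUnion]
  constructor
  · rintro ⟨z, hz, hp⟩
    obtain ⟨v, hv, h1, h2, h3⟩ := (D.mem_GS S).mp hp
    exact ⟨v, hv, h1, h2, by rw [h3]; exact hz⟩
  · rintro ⟨v, hv, h1, h2, h3⟩
    exact ⟨_, h3, (D.mem_GS S).mpr ⟨v, hv, h1, h2, rfl⟩⟩

theorem card_TI (i : ι) (s : ℕ) (hS : (S i).card ≤ s) :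
    (D.TI S i).card ≤ 4 * s ^ 2 := by
  refine (Finset.card_biUnion_le_card_mul _ _ (4 * s)
    (fun z _ => D.card_GS S i z s hS)).trans ?_
  calc ((S i).image D.c).card * (4 * s) ≤ s * (4 * s) :=
        Nat.mul_le_mul_right _ (Finset.card_image_le.trans hS)
    _ = 4 * s ^ 2 := by ring

/-- The linked pairs of operations at `S i`. -/
noncomputable def LK (i : ι) : Finset ((V × Fin k) × (V × Fin k)) :=
  (Finset.univ : Finset (Fin k)).biUnion fun z => (D.GS S i z) ×ˢ (D.GS S i z)

theorem mem_LK {i : ι} {p : (V × Fin k) × (V × Fin k)} :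
    p ∈ D.LK S i ↔ ∃ z, p.1 ∈ D.GS S i z ∧ p.2 ∈ D.GS S i z := by
  simp [LK]

theorem card_LK (i : ι) (s : ℕ) (hS : (S i).card ≤ s) :
    (D.LK S i).card ≤ k * (16 * s ^ 2) := by
  refine (Finset.card_biUnion_le_card_mul _ _ (16 * s ^ 2) ?_).trans (by simp)
  intro z _
  rw [Finset.card_product]
  have := D.card_GS S i z s hS
  calc (D.GS S i z).card * (D.GS S i z).card ≤ (4 * s) * (4 * s) := Nat.mul_le_mul this this
    _ = 16 * s ^ 2 := by ring

end Data

end Pool.Agent.Helper14.Pcg
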