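import Pool.Agent.Helper14.Pcf.Four

/-! # The local lemma for seven families with constant weights -/

set_option autoImplicit false
set_option linter.unusedSectionVars false

namespace Pool.Agent.Helper14.Pcg

open Finset Pool.Agent.Helper14.Sq
open Pool.Agent.Helper14.Pcf (lll_weights sum_ite_const)

section

variable {V A : Type*} [Fintype V] [DecidableEq V] [Fintype A] [DecidableEq A]

theorem lll_seven [Nonempty A] {ι₁ ι₂ ι₃ ι₄ ι₅ ι₆ ι₇ : Type*} [DecidableEq ι₁] [DecidableEq ι₂] [DecidableEq ι₃] [DecidableEq ι₄] [DecidableEq ι₅] [DecidableEq ι₆] [DecidableEq ι₇] (μ : ℝ)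
    (E₁ : ι₁ → Finset (V → A)) (T₁ : ι₁ → Finset V) (I₁ : Finset ι₁) (x₁ : ℝ)
    (E₂ : ι₂ → Finset (V → A)) (T₂ : ι₂ → Finset V) (I₂ : Finset ι₂) (x₂ : ℝ)
    (E₃ : ι₃ → Finset (V → A)) (T₃ : ι₃ → Finset V) (I₃ : Finset ι₃) (x₃ : ℝ)
    (E₄ : ι₄ → Finset (V → A)) (T₄ : ι₄ → Finset V) (I₄ : Finset ι₄) (x₄ : ℝ)
    (E₅ : ι₅ → Finset (V → A)) (T₅ : ι₅ → Finset V) (I₅ : Finset ι₅) (x₅ : ℝ)
    (E₆ : ι₆ → Finset (V → A)) (T₆ : ι₆ → Finset V) (I₆ : Finset ι₆) (x₆ : ℝ)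
    (E₇ : ι₇ → Finset (V → A)) (T₇ : ι₇ → Finset V) (I₇ : Finset ι₇) (x₇ : ℝ)
    (hT₁ : ∀ i ∈ I₁, DependsOn' (E₁ i) (T₁ i)) (h0₁ : 0 ≤ x₁) (h1₁ : x₁ ≤ 1 / 2)
    (hT₂ : ∀ i ∈ I₂, DependsOn' (E₂ i) (T₂ i)) (h0₂ : 0 ≤ x₂) (h1₂ : x₂ ≤ 1 / 2)
    (hT₃ : ∀ i ∈ I₃, DependsOn' (E₃ i) (T₃ i)) (h0₃ : 0 ≤ x₃) (h1₃ : x₃ ≤ 1 / 2)
    (hT₄ : ∀ i ∈ I₄, DependsOn' (E₄ i) (T₄ i)) (h0₄ : 0 ≤ x₄) (h1₄ : x₄ ≤ 1 / 2)
    (hT₅ : ∀ i ∈ I₅, DependsOn' (E₅ i) (T₅ i)) (h0₅ : 0 ≤ x₅) (h1₅ : x₅ ≤ 1 / 2)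
    (hT₆ : ∀ i ∈ I₆, DependsOn' (E₆ i) (T₆ i)) (h0₆ : 0 ≤ x₆) (h1₆ : x₆ ≤ 1 / 2)
    (hT₇ : ∀ i ∈ I₇, DependsOn' (E₇ i) (T₇ i)) (h0₇ : 0 ≤ x₇) (h1₇ : x₇ ≤ 1 / 2)
    (hE₁ : ∀ i ∈ I₁, ((E₁ i).card : ℝ) * Real.exp (2 * μ * (T₁ i).card) ≤
      x₁ * (Fintype.card (V → A) : ℝ))
    (hE₂ : ∀ i ∈ I₂, ((E₂ i).card : ℝ) * Real.exp (2 * μ * (T₂ i).card) ≤
      x₂ * (Fintype.card (V → A) : ℝ))
    (hE₃ : ∀ i ∈ I₃, ((E₃ i).card : ℝ) * Real.exp (2 * μ * (T₃ i).card) ≤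
      x₃ * (Fintype.card (V → A) : ℝ))
    (hE₄ : ∀ i ∈ I₄, ((E₄ i).card : ℝ) * Real.exp (2 * μ * (T₄ i).card) ≤
      x₄ * (Fintype.card (V → A) : ℝ))
    (hE₅ : ∀ i ∈ I₅, ((E₅ i).card : ℝ) * Real.exp (2 * μ * (T₅ i).card) ≤
      x₅ * (Fintype.card (V → A) : ℝ))
    (hE₆ : ∀ i ∈ I₆, ((E₆ i).card : ℝ) * Real.exp (2 * μ * (T₆ i).card) ≤
      x₆ * (Fintype.card (V → A) : ℝ))
    (hE₇ : ∀ i ∈ I₇, ((E₇ i).card : ℝ) * Real.exp (2 * μ * (T₇ i).card) ≤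
      x₇ * (Fintype.card (V → A) : ℝ))
    (hμ : ∀ v : V, ((I₁.filter fun i => v ∈ T₁ i).card : ℝ) * x₁ + (
      ((I₂.filter fun i => v ∈ T₂ i).card : ℝ) * x₂ + (
      ((I₃.filter fun i => v ∈ T₃ i).card : ℝ) * x₃ + (
      ((I₄.filter fun i => v ∈ T₄ i).card : ℝ) * x₄ + (
      ((I₅.filter fun i => v ∈ T₅ i).card : ℝ) * x₅ + (
      ((I₆.filter fun i => v ∈ T₆ i).card : ℝ) * x₆ + (
      ((I₇.filter fun i => v ∈ T₇ i).card : ℝ) * x₇)))))) ≤ μ) :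
    ∃ a : V → A, (∀ i ∈ I₁, a ∉ E₁ i) ∧ (∀ i ∈ I₂, a ∉ E₂ i) ∧ (∀ i ∈ I₃, a ∉ E₃ i) ∧ (∀ i ∈ I₄, a ∉ E₄ i) ∧ (∀ i ∈ I₅, a ∉ E₅ i) ∧ (∀ i ∈ I₆, a ∉ E₆ i) ∧ (∀ i ∈ I₇, a ∉ E₇ i) := by
  letI : DecidableEq (ι₁ ⊕ ι₂ ⊕ ι₃ ⊕ ι₄ ⊕ ι₅ ⊕ ι₆ ⊕ ι₇) := Classical.decEq _
  have key := lll_weights (A := A) (Sum.elim E₁ (Sum.elim E₂ (Sum.elim E₃ (Sum.elim E₄ (Sum.elim E₅ (Sum.elim E₆ E₇))))))
    (Sum.elim T₁ (Sum.elim T₂ (Sum.elim T₃ (Sum.elim T₄ (Sum.elim T₅ (Sum.elim T₆ T₇))))))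
    (I₁.disjSum (I₂.disjSum (I₃.disjSum (I₄.disjSum (I₅.disjSum (I₆.disjSum I₇))))))
    (by
      rintro (i | i | i | i | i | i | i) hi
      · exact hT₁ i (by simpa using hi)
      · exact hT₂ i (by simpa using hi)
      · exact hT₃ i (by simpa using hi)
      · exact hT₄ i (by simpa using hi)
      · exact hT₅ i (by simpa using hi)
      · exact hT₆ i (by simpa using hi)
      · exact hT₇ i (by simpa using hi))
    (Sum.elim (fun _ => x₁) (Sum.elim (fun _ => x₂) (Sum.elim (fun _ => x₃) (Sum.elim (fun _ => x₄) (Sum.elim (fun _ => x₅) (Sum.elim (fun _ => x₆) (fun _ => x₇)))))))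
    (by
      rintro (i | i | i | i | i | i | i) _
      · exact h0₁
      · exact h0₂
      · exact h0₃
      · exact h0₄
      · exact h0₅
      · exact h0₆
      · exact h0₇)
    (by
      rintro (i | i | i | i | i | i | i) _
      · exact h1₁
      · exact h1₂
      · exact h1₃
      · exact h1₄
      · exact h1₅
      · exact h1₆
      · exact h1₇)
    μ
    (by
      intro v
      rw [Finset.sum_disjSum, Finset.sum_disjSum, Finset.sum_disjSum, Finset.sum_disjSum, Finset.sum_disjSum, Finset.sum_disjSum]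
      have h := hμ v
      rw [← sum_ite_const, ← sum_ite_const, ← sum_ite_const, ← sum_ite_const, ← sum_ite_const, ← sum_ite_const, ← sum_ite_const] at h
      exact h)
    (by
      rintro (i | i | i | i | i | i | i) hi
      · exact hE₁ i (by simpa using hi)
      · exact hE₂ i (by simpa using hi)
      · exact hE₃ i (by simpa using hi)
      · exact hE₄ i (by simpa using hi)
      · exact hE₅ i (by simpa using hi)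
      · exact hE₆ i (by simpa using hi)
      · exact hE₇ i (by simpa using hi))
  obtain ⟨a, ha⟩ := key
  refine ⟨a, fun i hi => ?_, fun i hi => ?_, fun i hi => ?_, fun i hi => ?_, fun i hi => ?_, fun i hi => ?_, fun i hi => ?_⟩
  · exact ha (Sum.inl i) (by simpa using hi)
  · exact ha (Sum.inr (Sum.inl i)) (by simpa using hi)
  · exact ha (Sum.inr (Sum.inr (Sum.inl i))) (by simpa using hi)
  · exact ha (Sum.inr (Sum.inr (Sum.inr (Sum.inl i)))) (by simpa using hi)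
  · exact ha (Sum.inr (Sum.inr (Sum.inr (Sum.inr (Sum.inl i))))) (by simpa using hi)
  · exact ha (Sum.inr (Sum.inr (Sum.inr (Sum.inr (Sum.inr (Sum.inl i)))))) (by simpa using hi)
  · exact ha (Sum.inr (Sum.inr (Sum.inr (Sum.inr (Sum.inr (Sum.inr i)))))) (by simpa using hi)

end

end Pool.Agent.Helper14.Pcg
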