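import Pool.Agent.Helper14.Pcf.Main

/-! # Numerical estimates for the weights -/

set_option autoImplicit false
set_option linter.unusedSectionVars false

namespace Pool.Agent.Helper14.Pcg

open Finset
open Pool.Agent.Helper14.Pcf (choose_bound exp_neg_eleven exp_neg_mul_nat)

theorem weights_old (K m k : ℕ) (hKR : (K : ℝ) = 10 ^ 11) (hm : 1 ≤ m)
    (hk : (k : ℝ) ≤ 2 * Real.exp m) (hbig : 8000 * K * m ≤ k) (hk0 : 0 < k) (a b d c : ℕ)
    (hA : a ≤ k * (12 * k)) (hB : b ≤ k * k * ((2000 * K * m * k * (8 * k)).choose m))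
    (hD : d ≤ k * k * ((4 * m * (8 * k)).choose m)) (hC : c ≤ k) :
    (a : ℝ) * (2 / ((K : ℝ) * k)) ^ 2 + ((b : ℝ) * (2 / ((K : ℝ) * k)) ^ (2 * m) +
      ((d : ℝ) * (2 / ((K : ℝ) * k)) ^ m + (c : ℝ) * Real.exp (-(11 * m)))) ≤
      1 / (400 * K) := by
  have hkR : (0 : ℝ) < k := by exact_mod_cast hk0
  have hmR : (1 : ℝ) ≤ m := by exact_mod_cast hm
  have hKpos : (0 : ℝ) < K := by rw [hKR]; norm_num
  set y : ℝ := 2 / ((K : ℝ) * k) with hy
  set ξ : ℝ := Real.exp (-(11 * m)) with hξ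
  have hy0 : 0 ≤ y := by positivity
  have hξ0 : 0 ≤ ξ := (Real.exp_pos _).le
  have hem : Real.exp (-(m : ℝ)) * (4000 * K) ≤ 1 := by
    have h1 : (8000 * K * m : ℝ) ≤ k := by exact_mod_cast hbig
    have h2 : (8000 * K : ℝ) ≤ 2 * Real.exp m := by
      have h3 : (8000 * K : ℝ) ≤ 8000 * K * m := by
        have : (0 : ℝ) ≤ 8000 * K := by positivity
        nlinarith
      linarith
    have h4 : Real.exp (-(m : ℝ)) * Real.exp m = 1 := by
      rw [← Real.exp_add, neg_add_cancel, Real.exp_zero]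
    have h5 : 0 < Real.exp (-(m : ℝ)) := Real.exp_pos _
    nlinarith
  have hA' : (a : ℝ) * y ^ 2 ≤ 48 / (K : ℝ) ^ 2 := by
    have h1 : (a : ℝ) ≤ 12 * (k : ℝ) ^ 2 := by
      have : (a : ℝ) ≤ ((k * (12 * k) : ℕ) : ℝ) := by exact_mod_cast hA
      push_cast at this
      linarith
    have h2 : (12 * (k : ℝ) ^ 2) * y ^ 2 = 48 / (K : ℝ) ^ 2 := by
      rw [hy]
      field_simp
      ring
    rw [← h2]
    exact mul_le_mul_of_nonneg_right h1 (by positivity)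
  have hk2 : (k : ℝ) * k ≤ 4 * (Real.exp m * Real.exp m) := by nlinarith
  have he1 : Real.exp 1 ≤ 2.7182818286 := Real.exp_one_lt_d9.le
  have he11 := exp_neg_eleven
  have hxi : Real.exp (-(11 * (m : ℝ))) = Real.exp (-11) ^ m := exp_neg_mul_nat 11 m
  have hB' : (b : ℝ) * y ^ (2 * m) ≤ 4 * (Real.exp m * Real.exp m) * ξ := by
    have h1 : (b : ℝ) ≤ (k : ℝ) * k * ((2000 * K * m * k * (8 * k)).choose m : ℝ) := by
      exact_mod_cast hB
    have h2 := choose_bound (2000 * K * m * k * (8 * k)) m hm (y ^ 2) (by positivity)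
    have h3 : Real.exp 1 * ((2000 * K * m * k * (8 * k) : ℕ) : ℝ) * y ^ 2 / m =
        Real.exp 1 * 64000 / K := by
      rw [hy]
      push_cast
      field_simp
      ring
    rw [h3] at h2
    have h4 : Real.exp 1 * 64000 / K ≤ Real.exp (-11) := by
      refine le_trans ?_ he11
      rw [hKR, div_le_div_iff₀ (by norm_num) (by norm_num)]
      linarith
    have h5 : (Real.exp 1 * 64000 / K) ^ m ≤ ξ := by
      rw [hξ, hxi]
      exact pow_le_pow_left₀ (by positivity) h4 m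
    have h6 : ((2000 * K * m * k * (8 * k)).choose m : ℝ) * y ^ (2 * m) ≤ ξ := by
      rw [pow_mul]
      exact h2.trans h5
    calc (b : ℝ) * y ^ (2 * m)
        ≤ (k : ℝ) * k * ((2000 * K * m * k * (8 * k)).choose m : ℝ) * y ^ (2 * m) := by
          gcongr
      _ = (k : ℝ) * k * (((2000 * K * m * k * (8 * k)).choose m : ℝ) * y ^ (2 * m)) := by
          ring
      _ ≤ 4 * (Real.exp m * Real.exp m) * ξ := by gcongr
  have hD' : (d : ℝ) * y ^ m ≤ 4 * (Real.exp m * Real.exp m) * ξ := by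
    have h1 : (d : ℝ) ≤ (k : ℝ) * k * ((4 * m * (8 * k)).choose m : ℝ) := by exact_mod_cast hD
    have h2 := choose_bound (4 * m * (8 * k)) m hm y hy0
    have h3 : Real.exp 1 * ((4 * m * (8 * k) : ℕ) : ℝ) * y / m = Real.exp 1 * 64 / K := by
      rw [hy]
      push_cast
      field_simp
      ring
    rw [h3] at h2
    have h4 : Real.exp 1 * 64 / K ≤ Real.exp (-11) := by
      refine le_trans ?_ he11
      rw [hKR, div_le_div_iff₀ (by norm_num) (by norm_num)]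
      linarith
    have h5 : (Real.exp 1 * 64 / K) ^ m ≤ ξ := by
      rw [hξ, hxi]
      exact pow_le_pow_left₀ (by positivity) h4 m
    have h6 : ((4 * m * (8 * k)).choose m : ℝ) * y ^ m ≤ ξ := h2.trans h5
    calc (d : ℝ) * y ^ m ≤ (k : ℝ) * k * ((4 * m * (8 * k)).choose m : ℝ) * y ^ m := by
          gcongr
      _ = (k : ℝ) * k * (((4 * m * (8 * k)).choose m : ℝ) * y ^ m) := by
          ring
      _ ≤ 4 * (Real.exp m * Real.exp m) * ξ := by gcongr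
  have hC' : (c : ℝ) * ξ ≤ 2 * Real.exp m * ξ := by
    have h1 : (c : ℝ) ≤ k := by exact_mod_cast hC
    exact mul_le_mul_of_nonneg_right (h1.trans hk) hξ0
  have hfin : Real.exp m * Real.exp m * ξ ≤ Real.exp (-(m : ℝ)) * (1 / 60) := by
    have h1 : Real.exp m * Real.exp m * ξ = Real.exp (-(m : ℝ)) * Real.exp (-(8 * m)) := by
      rw [hξ, ← Real.exp_add, ← Real.exp_add, ← Real.exp_add]
      congr 1
      ring
    rw [h1]
    have h2 : Real.exp (-(8 * (m : ℝ))) ≤ 1 / 60 := by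
      have h3 : Real.exp (-(8 * (m : ℝ))) ≤ Real.exp (-8) := by
        apply Real.exp_le_exp.mpr
        linarith
      have h4 : Real.exp (-8) ≤ 1 / 60 := by
        rw [Real.exp_neg, inv_le_comm₀ (Real.exp_pos _) (by norm_num)]
        have h5 : Real.exp 8 = Real.exp 1 ^ 8 := by
          rw [← Real.exp_nat_mul]
          norm_num
        rw [h5]
        have h6 : (2 : ℝ) ≤ Real.exp 1 := by
          have := Real.add_one_le_exp (1 : ℝ)
          linarith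
        calc ((1 / 60 : ℝ))⁻¹ ≤ 2 ^ 8 := by norm_num
          _ ≤ Real.exp 1 ^ 8 := pow_le_pow_left₀ (by norm_num) h6 8
      exact h3.trans h4
    exact mul_le_mul_of_nonneg_left h2 (Real.exp_pos _).le
  have hexp1 : (1 : ℝ) ≤ Real.exp m := by
    have := Real.add_one_le_exp (m : ℝ)
    linarith
  have hfin2 : Real.exp m * ξ ≤ Real.exp m * Real.exp m * ξ := by
    calc Real.exp m * ξ = 1 * (Real.exp m * ξ) := (one_mul _).symm
      _ ≤ Real.exp m * (Real.exp m * ξ) := by gcongr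
      _ = _ := by ring
  have h9 : Real.exp (-(m : ℝ)) ≤ 1 / (4000 * K) := by
    rw [le_div_iff₀ (by positivity)]
    exact hem
  have h10 : (48 : ℝ) / (K : ℝ) ^ 2 + 10 * (1 / (4000 * K) * (1 / 60)) ≤ 1 / (400 * K) := by
    rw [hKR]
    norm_num
  have h11 : Real.exp (-(m : ℝ)) * (1 / 60) ≤ 1 / (4000 * K) * (1 / 60) := by gcongr
  have h12 : 4 * (Real.exp m * Real.exp m) * ξ = 4 * (Real.exp m * Real.exp m * ξ) := by ring
  have h13 : 2 * Real.exp m * ξ = 2 * (Real.exp m * ξ) := by ring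
  rw [h12] at hB' hD'
  rw [h13] at hC'
  linarith

theorem weights_new_real (K k s AI A AM e2 e3 e4 : ℝ) (hKR : K = 10 ^ 11) (hs : 1 ≤ s)
    (hsk : s ^ 3 ≤ k) (hAI0 : 0 ≤ AI) (hA0 : 0 ≤ A) (hAM0 : 0 ≤ AM)
    (hAI : s ^ 5 * AI ≤ s ^ 5 * (k * s) + k * k) (hA : A ≤ k * (2 * k))
    (hAM : s ^ 2 * AM ≤ 2 * k * k)
    (h2 : e2 ≤ 2 * (AI * (4 * s ^ 2) + AM * (4 * s)))
    (h3 : e3 ≤ AI * (k * (16 * s ^ 2)) + A * (16 * s ^ 2) +
      2 * (A * (4 * s * (4 * s ^ 2 + 4 * s))))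
    (h4 : e4 ≤ 4 * (A * (4 * s * (k * (16 * s ^ 2))))) :
    e2 * (2 / (K * k)) ^ 2 + (e3 * (2 / (K * k)) ^ 3 + e4 * (2 / (K * k)) ^ 4) ≤
      1 / (400 * K) := by
  have hs0 : 0 < s := by linarith
  have hkpos : 0 < k := lt_of_lt_of_le (by positivity) hsk
  have hKpos : 0 < K := by rw [hKR]; norm_num
  have hAI' : AI ≤ k * s + k ^ 2 / s ^ 5 := by
    have e : k * s + k ^ 2 / s ^ 5 = (s ^ 5 * (k * s) + k * k) / s ^ 5 := by
      field_simp
    rw [e, le_div_iff₀ (by positivity)]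
    linarith
  have hA' : A ≤ 2 * k ^ 2 := by linarith
  have hAM' : AM ≤ 2 * k ^ 2 / s ^ 2 := by
    rw [le_div_iff₀ (by positivity)]
    linarith
  have hs3 : 1 ≤ s ^ 3 := one_le_pow₀ hs
  have hs23 : s ^ 2 ≤ s ^ 3 := pow_le_pow_right₀ hs (by norm_num)
  -- products
  have p1 : AI * s ^ 2 ≤ 2 * k ^ 2 := by
    calc AI * s ^ 2 ≤ (k * s + k ^ 2 / s ^ 5) * s ^ 2 := by gcongr
      _ = k * s ^ 3 + k ^ 2 * (1 / s ^ 3) := by field_simp
      _ ≤ k * k + k ^ 2 * 1 := by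
          gcongr
          rw [div_le_one (by positivity)]
          exact hs3
      _ = 2 * k ^ 2 := by ring
  have p2 : AM * s ≤ 2 * k ^ 2 := by
    calc AM * s ≤ (2 * k ^ 2 / s ^ 2) * s := by gcongr
      _ = 2 * k ^ 2 * (1 / s) := by field_simp
      _ ≤ 2 * k ^ 2 * 1 := by
          gcongr
          rw [div_le_one hs0]
          exact hs
      _ = 2 * k ^ 2 := by ring
  have p3 : A * s ^ 3 ≤ 2 * k ^ 3 := by
    calc A * s ^ 3 ≤ (2 * k ^ 2) * k := by gcongr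
      _ = 2 * k ^ 3 := by ring
  have p3' : A * s ^ 2 ≤ 2 * k ^ 3 := by
    refine le_trans ?_ p3
    gcongr
  have q2 : e2 ≤ 32 * k ^ 2 := by
    calc e2 ≤ 2 * (AI * (4 * s ^ 2) + AM * (4 * s)) := h2
      _ = 8 * (AI * s ^ 2) + 8 * (AM * s) := by ring
      _ ≤ 8 * (2 * k ^ 2) + 8 * (2 * k ^ 2) := by gcongr
      _ = 32 * k ^ 2 := by ring
  have q3 : e3 ≤ 200 * k ^ 3 := by
    calc e3 ≤ _ := h3
      _ = 16 * k * (AI * s ^ 2) + 48 * (A * s ^ 2) + 32 * (A * s ^ 3) := by ring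
      _ ≤ 16 * k * (2 * k ^ 2) + 48 * (2 * k ^ 3) + 32 * (2 * k ^ 3) := by gcongr
      _ = 192 * k ^ 3 := by ring
      _ ≤ 200 * k ^ 3 := by
          have : 0 ≤ k ^ 3 := by positivity
          linarith
  have q4 : e4 ≤ 512 * k ^ 4 := by
    calc e4 ≤ _ := h4
      _ = 256 * k * (A * s ^ 3) := by ring
      _ ≤ 256 * k * (2 * k ^ 3) := by gcongr
      _ = 512 * k ^ 4 := by ring
  have r2 : e2 * (2 / (K * k)) ^ 2 ≤ 128 / K ^ 2 := by
    calc e2 * (2 / (K * k)) ^ 2 ≤ (32 * k ^ 2) * (2 / (K * k)) ^ 2 := by gcongr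
      _ = 128 / K ^ 2 := by field_simp; ring
  have r3 : e3 * (2 / (K * k)) ^ 3 ≤ 1600 / K ^ 3 := by
    calc e3 * (2 / (K * k)) ^ 3 ≤ (200 * k ^ 3) * (2 / (K * k)) ^ 3 := by gcongr
      _ = 1600 / K ^ 3 := by field_simp; ring
  have r4 : e4 * (2 / (K * k)) ^ 4 ≤ 8192 / K ^ 4 := by
    calc e4 * (2 / (K * k)) ^ 4 ≤ (512 * k ^ 4) * (2 / (K * k)) ^ 4 := by gcongr
      _ = 8192 / K ^ 4 := by field_simp; ring
  have hfin : 128 / K ^ 2 + (1600 / K ^ 3 + 8192 / K ^ 4) ≤ 1 / (400 * K) := by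
    rw [hKR]
    norm_num
  linarith

theorem weights_new (K k s : ℕ) (hKR : (K : ℝ) = 10 ^ 11) (hs : 1 ≤ s) (hsk : s ^ 3 ≤ k)
    (AI A AM e2 e3 e4 : ℕ)
    (hAI : s ^ 5 * AI ≤ s ^ 5 * (k * s) + k * k) (hA : A ≤ k * (2 * k))
    (hAM : s ^ 2 * AM ≤ 2 * k * k)
    (h2 : e2 ≤ 2 * (AI * (4 * s ^ 2) + AM * (4 * s)))
    (h3 : e3 ≤ AI * (k * (16 * s ^ 2)) + A * (16 * s ^ 2) +
      2 * (A * (4 * s * (4 * s ^ 2 + 4 * s))))
    (h4 : e4 ≤ 4 * (A * (4 * s * (k * (16 * s ^ 2))))) :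
    (e2 : ℝ) * (2 / ((K : ℝ) * k)) ^ 2 + ((e3 : ℝ) * (2 / ((K : ℝ) * k)) ^ 3 +
      (e4 : ℝ) * (2 / ((K : ℝ) * k)) ^ 4) ≤ 1 / (400 * K) := by
  apply weights_new_real K k s AI A AM e2 e3 e4 hKR (by exact_mod_cast hs)
    (by exact_mod_cast hsk) (Nat.cast_nonneg _) (Nat.cast_nonneg _) (Nat.cast_nonneg _)
  · exact_mod_cast hAI
  · exact_mod_cast hA
  · exact_mod_cast hAM
  · exact_mod_cast h2
  · exact_mod_cast h3
  · exact_mod_cast h4

end Pool.Agent.Helper14.Pcg
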