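import Pool.Agent.Helper14.Pcg.SetDet
import Pool.Agent.Helper14.Pcg.Seven
import Pool.Agent.Helper14.Pcg.Weights

/-! # The target theorem for the data -/

set_option autoImplicit false
set_option linter.unusedSectionVars false

namespace Pool.Agent.Helper14.Pcg

open Finset Pool.Agent.Helper14.Sq
open Pool.Agent.Helper14.Pcf (cnt cnt_pos eq_of_cnt_le_one pdom cyl dom mem_cyl cyl_dependsOn
  cyl_card cyl_weight one_sub_ge_exp)
open Pool.Agent.Helper14.Pcf.Data (nearset mem_nearset card_nearset)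

variable {V ι : Type*} [Fintype V] [DecidableEq V] [Fintype ι] [DecidableEq ι]
  {G₀ G : SimpleGraph V} [DecidableRel G₀.Adj] [DecidableRel G.Adj] {k : ℕ}

theorem dom_two (p q : V × Fin k) (h : p.1 ≠ q.1) :
    (dom ({p, q} : Finset (V × Fin k))).card = 2 := by
  unfold dom
  rw [Finset.image_insert, Finset.image_singleton, Finset.card_pair h]

theorem dom_three (p q r : V × Fin k) (h1 : p.1 ≠ q.1) (h2 : p.1 ≠ r.1) (h3 : q.1 ≠ r.1) :
    (dom ({p, q, r} : Finset (V × Fin k))).card = 3 := by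
  unfold dom
  rw [Finset.image_insert, Finset.image_insert, Finset.image_singleton,
    Finset.card_insert_of_notMem, Finset.card_pair h3]
  simp [h1, h2]

theorem dom_four (p q r t : V × Fin k) (h1 : p.1 ≠ q.1) (h2 : p.1 ≠ r.1) (h3 : p.1 ≠ t.1)
    (h4 : q.1 ≠ r.1) (h5 : q.1 ≠ t.1) (h6 : r.1 ≠ t.1) :
    (dom ({p, q, r, t} : Finset (V × Fin k))).card = 4 := by
  unfold dom
  rw [Finset.image_insert, Finset.image_insert, Finset.image_insert, Finset.image_singleton,
    Finset.card_insert_of_notMem, Finset.card_insert_of_notMem, Finset.card_pair h6]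
  · simp [h4, h5]
  · simp [h1, h2, h3]

namespace Data

theorem main_aux (D : Data G₀ G k) (S : ι → Finset V) (M : Finset ι) (K m s : ℕ)
    (hK : K = 10 ^ 11) (hm : 1 ≤ m) (hk : (k : ℝ) ≤ 2 * Real.exp m)
    (hbig : 8000 * K * m ≤ k) [Nonempty (Fin k)]
    (hinv : ∀ u, 24 * (D.inv u).card ≤ k)
    (hs1 : 1 ≤ s) (hsk : s ^ 3 ≤ k) (hS : ∀ i, (S i).card ≤ s) (h3S : ∀ i, 3 ≤ (S i).card)
    (hh : ∀ v, (Finset.univ.filter fun i => v ∈ S i).card ≤ k)
    (hpop : ∀ v z, z ∉ D.hm v →
      s ^ 5 * (Finset.univ.filter fun i => v ∈ S i ∧ z ∈ (S i).image D.c).card ≤ k)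
    (hBM : ∀ v, s ^ 2 * (M.filter fun i => v ∈ S i).card ≤ k)
    (hU : ∀ i ∈ M, HasUniq D.c (S i))
    (hmark : ∀ i ∈ M, ∀ u ∈ S i, ∀ v ∈ S i, D.c u ∈ D.hm v)
    (hinj : ∀ i ∉ M, ∀ u ∈ S i, ∀ v ∈ S i, D.c u = D.c v → u = v) :
    ∃ c' : V → Fin k, (∀ u v, G.Adj u v → c' u ≠ c' v) ∧ (∀ i, HasUniq c' (S i)) ∧
      ∀ w, 8000 * K * m ≤ G₀.degree w → ∃ κ, cnt G₀ c' w κ = 1 := by
  classical
  have hK0 : 0 < K := by rw [hK]; norm_num
  have hKR : (K : ℝ) = 10 ^ 11 := by rw [hK]; norm_num
  obtain ⟨z0⟩ : Nonempty (Fin K) := ⟨⟨0, hK0⟩⟩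
  have hne : Nonempty (Fin K × Fin k) := ⟨(z0, Classical.arbitrary _)⟩
  have hk0 : 0 < k := Fin.pos (Classical.arbitrary (Fin k))
  have hkR : (0 : ℝ) < k := by exact_mod_cast hk0
  have hmR : (1 : ℝ) ≤ m := by exact_mod_cast hm
  -- targets and robust vertices
  set Wt := Finset.univ.filter fun w => 8000 * K * m ≤ G₀.degree w ∧ (D.uniq w).card < 4 * m
    with hWt
  set Wr := Finset.univ.filter fun w => 8000 * K * m ≤ G₀.degree w ∧ 4 * m ≤ (D.uniq w).card
    with hWr
  have hNex : ∀ w, ∃ N : Finset V, w ∈ Wt → (N.card = 2000 * K * m ∧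
      ∀ u ∈ N, G₀.Adj w u ∧ k ≤ 24 * (D.goodVals w u).card) := by
    intro w
    by_cases hw : w ∈ Wt
    · have h1 := (Finset.mem_filter.mp hw).2
      have h2 : 16 * (D.uniq w).card ≤ k := by
        have h3 : 64 * m ≤ 8000 * K * m := Nat.mul_le_mul_right _ (by omega)
        omega
      obtain ⟨N, hN1, hN2⟩ := D.exists_target w h2 hinv
      have h3 : 2000 * K * m ≤ N.card := by
        have : 8000 * K * m = 4 * (2000 * K * m) := by ring
        omega
      obtain ⟨N', hN', hc⟩ := Finset.exists_subset_card_eq h3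
      exact ⟨N', fun _ => ⟨hc, fun u hu => hN2 u (hN' hu)⟩⟩
    · exact ⟨∅, fun h => absurd h hw⟩
  choose N hN using hNex
  have hRex : ∀ w, ∃ R : Finset (Fin k), w ∈ Wr → (R.card = 4 * m ∧ ∀ κ ∈ R, D.n₀ w κ = 1) := by
    intro w
    by_cases hw : w ∈ Wr
    · have h1 := (Finset.mem_filter.mp hw).2
      obtain ⟨R, hR, hc⟩ := Finset.exists_subset_card_eq h1.2
      exact ⟨R, fun _ => ⟨hc, fun κ hκ => (Finset.mem_filter.mp (hR hκ)).2⟩⟩
    · exact ⟨∅, fun h => absurd h hw⟩
  choose R hR using hRex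
  -- the parameters
  set μ : ℝ := 1 / (200 * K) with hμdef
  set y : ℝ := 2 / ((K : ℝ) * k) with hy
  set ξ : ℝ := Real.exp (-(11 * m)) with hξ
  have hy0 : 0 ≤ y := by positivity
  have hμ0 : 0 < μ := by rw [hμdef, hKR]; norm_num
  have hexpμ : Real.exp (2 * μ) ≤ 2 := by
    have h1 : 2 * μ ≤ 1 / 2 := by rw [hμdef, hKR]; norm_num
    have h3 : Real.exp (2 * μ) ≤ Real.exp (1 / 2) := Real.exp_le_exp.mpr h1
    have h4 : Real.exp (1 / 2) * Real.exp (1 / 2) = Real.exp 1 := by
      rw [← Real.exp_add]; norm_num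
    have h5 := Real.exp_one_lt_d9
    have h6 : Real.exp (1 / 2) ≤ 2 := by
      by_contra hcon
      push Not at hcon
      nlinarith
    exact h3.trans h6
  have hk1 : (1 : ℝ) ≤ k := by exact_mod_cast hk0
  have hy1 : y ≤ 1 / 4 := by
    rw [hy, hKR, div_le_div_iff₀ (by positivity) (by norm_num)]
    nlinarith
  have hym : ∀ n : ℕ, 1 ≤ n → y ^ n ≤ 1 / 2 := by
    intro n hn
    calc y ^ n ≤ y ^ 1 := pow_le_pow_of_le_one hy0 (hy1.trans (by norm_num)) hn
      _ ≤ 1 / 2 := by rw [pow_one]; exact hy1.trans (by norm_num)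
  have hξ0 : 0 ≤ ξ := (Real.exp_pos _).le
  have hξ1 : ξ ≤ 1 / 2 := by
    have h1 : Real.exp (-(11 * m)) ≤ Real.exp (-1) := by
      apply Real.exp_le_exp.mpr
      linarith
    have h2 : Real.exp (-1) ≤ 1 / 2 := by
      rw [Real.exp_neg, inv_le_comm₀ (Real.exp_pos _) (by norm_num)]
      have := Real.add_one_le_exp (1 : ℝ)
      norm_num
      linarith
    exact h1.trans h2
  have key := lll_seven (A := Fin K × Fin k) μ
    (cyl z0) dom D.TA (y ^ 2)
    (cyl z0) dom (Wt.biUnion fun w => D.TB m w (N w)) (y ^ (2 * m))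
    (cyl z0) dom (Wr.biUnion fun w => D.TD m w (R w)) (y ^ m)
    (fun w => D.EC z0 m w (N w)) N Wt ξ
    (fun t : (V × Fin k) × (V × Fin k) => cyl z0 {t.1, t.2}) (fun t => dom {t.1, t.2})
      (D.P2 S M) (y ^ 2)
    (fun t : (V × Fin k) × (V × Fin k) × (V × Fin k) => cyl z0 {t.1, t.2.1, t.2.2})
      (fun t => dom {t.1, t.2.1, t.2.2}) (D.P3 S M) (y ^ 3)
    (fun t : ((V × Fin k) × (V × Fin k)) × ((V × Fin k) × (V × Fin k)) =>
      cyl z0 {t.1.1, t.1.2, t.2.1, t.2.2}) (fun t => dom {t.1.1, t.1.2, t.2.1, t.2.2})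
      (D.P4 S M) (y ^ 4)
    (fun τ _ => cyl_dependsOn z0 τ) (by positivity) (hym 2 (by norm_num))
    (fun τ _ => cyl_dependsOn z0 τ) (by positivity) (hym (2 * m) (by omega))
    (fun τ _ => cyl_dependsOn z0 τ) (by positivity) (hym m hm)
    (fun w _ => D.EC_dependsOn z0 m w (N w)) hξ0 hξ1
    (fun t _ => cyl_dependsOn z0 _) (by positivity) (hym 2 (by norm_num))
    (fun t _ => cyl_dependsOn z0 _) (by positivity) (hym 3 (by norm_num))
    (fun t _ => cyl_dependsOn z0 _) (by positivity) (hym 4 (by norm_num))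
    (fun τ hτ => cyl_weight z0 τ 2 (D.dom_TA hτ) μ hexpμ hK0)
    (fun τ hτ => by
      obtain ⟨w, hw, h⟩ := Finset.mem_biUnion.mp hτ
      exact cyl_weight z0 τ (2 * m) (D.dom_TB h) μ hexpμ hK0)
    (fun τ hτ => by
      obtain ⟨w, hw, h⟩ := Finset.mem_biUnion.mp hτ
      exact cyl_weight z0 τ m (D.dom_TD h) μ hexpμ hK0)
    (fun w hw => by
      have h1 := D.EC_card z0 m w (N w) hK0 (hN w hw).1 (fun u hu => ((hN w hw).2 u hu).2)
      have h2 : Real.exp (2 * μ * ((N w).card : ℝ)) = Real.exp (20 * m) := by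
        rw [(hN w hw).1]
        congr 1
        rw [hμdef]
        push_cast
        have : (K : ℝ) ≠ 0 := by positivity
        field_simp
        ring
      rw [h2]
      have h3 : Real.exp (-(31 * m)) * Real.exp (20 * m) = ξ := by
        rw [← Real.exp_add, hξ]
        congr 1
        ring
      calc ((D.EC z0 m w (N w)).card : ℝ) * Real.exp (20 * m)
          ≤ ((Fintype.card (V → Fin K × Fin k) : ℝ) * Real.exp (-(31 * m))) *
              Real.exp (20 * m) := by gcongr
        _ = ξ * (Fintype.card (V → Fin K × Fin k) : ℝ) := by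
            rw [mul_assoc, h3, mul_comm])
    (fun t ht => by
      have h := (D.mem_P2 S M).mp ht
      exact cyl_weight z0 _ 2 (dom_two _ _ h.1) μ hexpμ hK0)
    (fun t ht => by
      have h := (D.mem_P3 S M).mp ht
      exact cyl_weight z0 _ 3 (dom_three _ _ _ h.1 h.2.1 h.2.2.1) μ hexpμ hK0)
    (fun t ht => by
      have h := (D.mem_P4 S M).mp ht
      exact cyl_weight z0 _ 4 (dom_four _ _ _ _ h.1 h.2.1 h.2.2.1 h.2.2.2.1 h.2.2.2.2.1
        h.2.2.2.2.2.1) μ hexpμ hK0)
    (by
      intro v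
      have hA := D.count_TA v
      have hB : ((Wt.biUnion fun w => D.TB m w (N w)).filter fun τ => v ∈ dom τ).card ≤
          k * k * ((2000 * K * m * k * (8 * k)).choose m) := by
        have hsub : ((Wt.biUnion fun w => D.TB m w (N w)).filter fun τ => v ∈ dom τ) ⊆
            ((nearset G v).filter fun w => w ∈ Wt).biUnion fun w => D.TB m w (N w) := by
          intro τ hτ
          obtain ⟨h1, h2⟩ := Finset.mem_filter.mp hτ
          obtain ⟨w, hw, h3⟩ := Finset.mem_biUnion.mp h1
          exact Finset.mem_biUnion.mpr ⟨w, Finset.mem_filter.mpr ⟨D.near_TB h3 h2, hw⟩, h3⟩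
        refine (Finset.card_le_card hsub).trans ?_
        refine (Finset.card_biUnion_le_card_mul _ _
          ((2000 * K * m * k * (8 * k)).choose m) ?_).trans ?_
        · intro w hw
          have h1 := D.card_TB m w (N w)
          rw [(hN w (Finset.mem_filter.mp hw).2).1] at h1
          exact h1
        · apply Nat.mul_le_mul_right
          exact (Finset.card_filter_le _ _).trans (card_nearset D.deg v)
      have hD : ((Wr.biUnion fun w => D.TD m w (R w)).filter fun τ => v ∈ dom τ).card ≤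
          k * k * ((4 * m * (8 * k)).choose m) := by
        have hsub : ((Wr.biUnion fun w => D.TD m w (R w)).filter fun τ => v ∈ dom τ) ⊆
            ((nearset G v).filter fun w => w ∈ Wr).biUnion fun w => D.TD m w (R w) := by
          intro τ hτ
          obtain ⟨h1, h2⟩ := Finset.mem_filter.mp hτ
          obtain ⟨w, hw, h3⟩ := Finset.mem_biUnion.mp h1
          exact Finset.mem_biUnion.mpr ⟨w, Finset.mem_filter.mpr ⟨D.near_TD h3 h2, hw⟩, h3⟩
        refine (Finset.card_le_card hsub).trans ?_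
        refine (Finset.card_biUnion_le_card_mul _ _ ((4 * m * (8 * k)).choose m) ?_).trans ?_
        · intro w hw
          have h0 := hR w (Finset.mem_filter.mp hw).2
          have h1 := D.card_TD m w (R w) h0.2
          rw [h0.1] at h1
          exact h1
        · apply Nat.mul_le_mul_right
          exact (Finset.card_filter_le _ _).trans (card_nearset D.deg v)
      have hC : (Wt.filter fun w => v ∈ N w).card ≤ k := by
        have hsub : (Wt.filter fun w => v ∈ N w) ⊆ G.neighborFinset v := by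
          intro w hw
          obtain ⟨h1, h2⟩ := Finset.mem_filter.mp hw
          rw [SimpleGraph.mem_neighborFinset]
          exact (D.sub _ _ ((hN w h1).2 v h2).1).symm
        refine (Finset.card_le_card hsub).trans ?_
        rw [SimpleGraph.card_neighborFinset_eq_degree]
        have := D.deg v
        omega
      have hold := weights_old K m k hKR hm hk hbig hk0 _ _ _ _ hA hB hD hC
      -- the patterns
      have hs2pos : 0 < s ^ 2 := by positivity
      have cA := D.card_At S Mᶜ v k (fun u => by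
        refine le_trans (Finset.card_le_card ?_) (hh u)
        exact Finset.filter_subset_filter _ (Finset.subset_univ _))
      have cM : s ^ 2 * (D.At S M v).card ≤ 2 * k * k := by
        have h1 := D.card_At S M v (k / s ^ 2) (fun u => by
          rw [Nat.le_div_iff_mul_le hs2pos, mul_comm]
          exact hBM u)
        calc s ^ 2 * (D.At S M v).card ≤ s ^ 2 * (k * (2 * (k / s ^ 2))) :=
              Nat.mul_le_mul_left _ h1
          _ = 2 * k * (s ^ 2 * (k / s ^ 2)) := by ring
          _ ≤ 2 * k * k := Nat.mul_le_mul_left _ (Nat.mul_div_le k (s ^ 2))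
      have cI := D.card_AtI S Mᶜ v s k hS (hh v) hpop
      have e2 : ((D.P2 S M).filter fun t => v ∈ dom ({t.1, t.2} : Finset (V × Fin k))).card ≤
          2 * ((D.AtI S Mᶜ v).card * (4 * s ^ 2) + (D.At S M v).card * (4 * s)) := by
        refine le_trans (Finset.card_le_card ?_) (D.count_P2 S M hS v)
        intro t ht
        obtain ⟨h1, h2⟩ := Finset.mem_filter.mp ht
        refine Finset.mem_filter.mpr ⟨h1, ?_⟩
        simpa [dom] using h2
      have e3 : ((D.P3 S M).filter fun t =>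
          v ∈ dom ({t.1, t.2.1, t.2.2} : Finset (V × Fin k))).card ≤
          (D.AtI S Mᶜ v).card * (k * (16 * s ^ 2)) + (D.At S Mᶜ v).card * (16 * s ^ 2) +
            2 * ((D.At S Mᶜ v).card * (4 * s * (4 * s ^ 2 + 4 * s))) := by
        refine le_trans (Finset.card_le_card ?_) (D.count_P3 S M hS v)
        intro t ht
        obtain ⟨h1, h2⟩ := Finset.mem_filter.mp ht
        refine Finset.mem_filter.mpr ⟨h1, ?_⟩
        simpa [dom] using h2
      have e4 : ((D.P4 S M).filter fun t =>
          v ∈ dom ({t.1.1, t.1.2, t.2.1, t.2.2} : Finset (V × Fin k))).card ≤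
          4 * ((D.At S Mᶜ v).card * (4 * s * (k * (16 * s ^ 2)))) := by
        refine le_trans (Finset.card_le_card ?_) (D.count_P4 S M hS v)
        intro t ht
        obtain ⟨h1, h2⟩ := Finset.mem_filter.mp ht
        refine Finset.mem_filter.mpr ⟨h1, ?_⟩
        simp only [dom, Finset.image_insert, Finset.image_singleton, Finset.mem_insert,
          Finset.mem_singleton] at h2
        tauto
      have hnew := weights_new K k s hKR hs1 hsk _ _ _ _ _ _ cI cA cM e2 e3 e4
      have hμ2 : μ = 1 / (400 * K) + 1 / (400 * K) := by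
        rw [hμdef]
        have : (K : ℝ) ≠ 0 := by positivity
        field_simp
        norm_num
      rw [hμ2]
      linarith)
  obtain ⟨ω, h1, h2, h3, h4, h5, h6, h7⟩ := key
  have hnc : ∀ u v, D.Act z0 ω u → D.Act z0 ω v → u ≠ v →
      ¬ D.Conf (u, (ω u).2) (v, (ω v).2) := by
    intro u v hu hv huv hconf
    apply h1 {(u, (ω u).2), (v, (ω v).2)}
    · exact Finset.mem_image.mpr ⟨((u, (ω u).2), (v, (ω v).2)),
        Finset.mem_filter.mpr ⟨Finset.mem_univ _, hu.2, hv.2, huv, hconf⟩, rfl⟩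
    · rw [mem_cyl]
      intro p hp
      rw [Finset.mem_insert, Finset.mem_singleton] at hp
      rcases hp with rfl | rfl
      · exact Prod.ext hu.1 rfl
      · exact Prod.ext hv.1 rfl
  have hval : ∀ u, D.Act z0 ω u → D.Valid (u, (ω u).2) := fun u hu => hu.2
  have g2 : ∀ u v, D.Act z0 ω u → D.Act z0 ω v →
      ((u, (ω u).2), (v, (ω v).2)) ∉ D.P2 S M := by
    intro u v hu hv hmem
    apply h5 _ hmem
    rw [mem_cyl]
    intro p hp
    simp only [Finset.mem_insert, Finset.mem_singleton] at hp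
    rcases hp with rfl | rfl
    · exact Prod.ext hu.1 rfl
    · exact Prod.ext hv.1 rfl
  have g3 : ∀ u v w, D.Act z0 ω u → D.Act z0 ω v → D.Act z0 ω w →
      ((u, (ω u).2), (v, (ω v).2), (w, (ω w).2)) ∉ D.P3 S M := by
    intro u v w hu hv hw hmem
    apply h6 _ hmem
    rw [mem_cyl]
    intro p hp
    simp only [Finset.mem_insert, Finset.mem_singleton] at hp
    rcases hp with rfl | rfl | rfl
    · exact Prod.ext hu.1 rfl
    · exact Prod.ext hv.1 rfl
    · exact Prod.ext hw.1 rfl
  have g4 : ∀ u v w t, D.Act z0 ω u → D.Act z0 ω v → D.Act z0 ω w → D.Act z0 ω t →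
      (((u, (ω u).2), (v, (ω v).2)), ((w, (ω w).2), (t, (ω t).2))) ∉ D.P4 S M := by
    intro u v w t hu hv hw ht hmem
    apply h7 _ hmem
    rw [mem_cyl]
    intro p hp
    simp only [Finset.mem_insert, Finset.mem_singleton] at hp
    rcases hp with rfl | rfl | rfl | rfl
    · exact Prod.ext hu.1 rfl
    · exact Prod.ext hv.1 rfl
    · exact Prod.ext hw.1 rfl
    · exact Prod.ext ht.1 rfl
  refine ⟨D.fin (D.Act z0 ω) (fun u => (ω u).2), fun u v huv =>
    D.fin_proper hval hnc huv, fun i => ?_, fun w hw => ?_⟩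
  · by_cases hi : i ∈ M
    · exact D.set_marked S M (Act := D.Act z0 ω) (yy := fun u => (ω u).2) hnc hval g2 hi (hU i hi)
        (hmark i hi)
    · exact D.set_unmarked S M (Act := D.Act z0 ω) (yy := fun u => (ω u).2) hnc hval g2 g3 g4 hi
        (hinj i hi) (h3S i)
  by_cases hUw : (D.uniq w).card < 4 * m
  · have hwt : w ∈ Wt := Finset.mem_filter.mpr ⟨Finset.mem_univ _, hw, hUw⟩
    have h5 := h4 w hwt
    set X := (N w).filter fun u => ω u ∈ D.letters z0 w u with hX
    apply D.target_ok z0 ω (m := m) (N := N w) hnc X (Finset.filter_subset _ _)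
    · intro u hu
      exact (D.mem_letters z0).mp (Finset.mem_filter.mp hu).2
    · by_contra hcon
      apply h5
      exact Finset.mem_filter.mpr ⟨Finset.mem_univ _, by push Not at hcon; exact hcon⟩
    · exact hm
    · intro P hP hPc hPd
      by_contra hcon
      push Not at hcon
      apply h2 (P.image Prod.fst ∪ P.image Prod.snd)
      · refine Finset.mem_biUnion.mpr ⟨w, hwt, Finset.mem_image.mpr ⟨P, ?_, rfl⟩⟩
        exact Finset.mem_filter.mpr ⟨Finset.mem_powersetCard.mpr ⟨hP, hPc⟩, hPd⟩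
      · rw [mem_cyl]
        intro p hp
        rw [Finset.mem_union, Finset.mem_image, Finset.mem_image] at hp
        rcases hp with ⟨q, hq, rfl⟩ | ⟨q, hq, rfl⟩
        · exact (hcon q hq).1
        · exact (hcon q hq).2
  · push Not at hUw
    have hwr : w ∈ Wr := Finset.mem_filter.mpr ⟨Finset.mem_univ _, hw, hUw⟩
    apply D.robust_ok z0 ω (m := m) (R w) (hR w hwr).2 (hR w hwr).1 hnc
    intro P hP hPc hPd
    by_contra hcon
    push Not at hcon
    apply h3 P
    · refine Finset.mem_biUnion.mpr ⟨w, hwr, ?_⟩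
      exact Finset.mem_filter.mpr ⟨Finset.mem_powersetCard.mpr ⟨hP, hPc⟩, hPd⟩
    · rw [mem_cyl]
      exact hcon

end Data

end Pool.Agent.Helper14.Pcg
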