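import Pool.Agent.Helper14.Pcg.Targ

/-! # Module T: the target theorem -/

set_option autoImplicit false
set_option linter.unusedSectionVars false

namespace Pool.Agent.Helper14.Pcg

open Finset

variable {V ι : Type*} [Fintype V] [DecidableEq V] [Fintype ι] [DecidableEq ι]

section

variable (S : ι → Finset V) {k : ℕ} (c : V → Fin k)

/-- The number of sets at `v` seeing the colour `z`. -/
def pp (v : V) (z : Fin k) : ℕ :=
  (Finset.univ.filter fun i => v ∈ S i ∧ z ∈ (S i).image c).card

theorem sum_pp {s : ℕ} (hS : ∀ i, (S i).card ≤ s) (v : V) :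
    ∑ z, pp S c v z ≤ s * hd S v := by
  classical
  unfold pp hd
  simp only [Finset.card_filter]
  rw [Finset.sum_comm]
  calc ∑ i, ∑ z, (if v ∈ S i ∧ z ∈ (S i).image c then 1 else 0)
      ≤ ∑ i, s * (if v ∈ S i then 1 else 0) := by
        apply Finset.sum_le_sum
        intro i _
        by_cases hv : v ∈ S i
        · simp only [hv, true_and, if_true, mul_one]
          rw [← Finset.card_filter]
          calc (Finset.univ.filter fun z => z ∈ (S i).image c).card = ((S i).image c).card := by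
                congr 1
                ext z
                simp
            _ ≤ s := Finset.card_image_le.trans (hS i)
        · simp [hv]
    _ = s * ∑ i, (if v ∈ S i then 1 else 0) := by rw [Finset.mul_sum]

/-- The popular colours. -/
def pop (s : ℕ) (v : V) : Finset (Fin k) := Finset.univ.filter fun z => k < s ^ 5 * pp S c v z

theorem card_pop {s : ℕ} (hS : ∀ i, (S i).card ≤ s) (v : V) :
    (pop S c s v).card * k ≤ s ^ 6 * hd S v := by
  calc (pop S c s v).card * k = ∑ _z ∈ pop S c s v, k := by rw [Finset.sum_const, smul_eq_mul]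
    _ ≤ ∑ z ∈ pop S c s v, s ^ 5 * pp S c v z := by
        apply Finset.sum_le_sum
        intro z hz
        exact (Finset.mem_filter.mp hz).2.le
    _ ≤ ∑ z, s ^ 5 * pp S c v z :=
        Finset.sum_le_sum_of_subset (Finset.subset_univ _)
    _ = s ^ 5 * ∑ z, pp S c v z := by rw [Finset.mul_sum]
    _ ≤ s ^ 5 * (s * hd S v) := Nat.mul_le_mul_left _ (sum_pp S c hS v)
    _ = s ^ 6 * hd S v := by ring

/-- The colours of the marked sets at `v`. -/
def mcol (M : Finset ι) (v : V) : Finset (Fin k) :=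
  (M.filter fun i => v ∈ S i).biUnion fun i => (S i).image c

theorem card_mcol {s : ℕ} (hS : ∀ i, (S i).card ≤ s) (M : Finset ι) (v : V) :
    (mcol S c M v).card ≤ (M.filter fun i => v ∈ S i).card * s :=
  Finset.card_biUnion_le_card_mul _ _ _ fun i _ => Finset.card_image_le.trans (hS i)

end

/-- MODULE T. -/
theorem targets (G₀ G : SimpleGraph V) [DecidableRel G₀.Adj] [DecidableRel G.Adj]
    (hG : ∀ u v, G₀.Adj u v → G.Adj u v) (S : ι → Finset V) {k s m : ℕ}
    (hm : 1 ≤ m) (hs : s = 8000 * 10 ^ 11 * m) (hk : s ^ 30 ≤ k) (hke : (k : ℝ) ≤ 2 * Real.exp m)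
    (h3 : ∀ i, 3 ≤ (S i).card) (hS : ∀ i, (S i).card ≤ s)
    (hbud : ∀ v, G.degree v + hd S v + 1 ≤ k)
    (c : V → Fin k) (hc : ∀ u v, G.Adj u v → c u ≠ c v) (Mk : Finset ι)
    (hMk : ∀ i ∈ Mk, HasUniq c (S i)) (hUn : ∀ i ∉ Mk, ∀ u ∈ S i, ∀ v ∈ S i, c u = c v → u = v)
    (hM1 : ∀ v, s ^ 2 * (Mk.filter fun i => v ∈ S i).card ≤ k)
    (hM2 : ∀ v, s * ((nb G Finset.univ v).filter fun a =>
      hd S a < 4 * s * (Mk.filter fun i => a ∈ S i).card).card ≤ k) :
    ∃ c' : V → Fin k, (∀ u v, G.Adj u v → c' u ≠ c' v) ∧ (∀ i, HasUniq c' (S i)) ∧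
      ∀ w, s ≤ G₀.degree w → HasUniq c' (nb G₀ Finset.univ w) := by
  classical
  have hsbig : 8000 * 10 ^ 11 ≤ s := by
    rw [hs]
    exact Nat.le_mul_of_pos_right _ hm
  have hs1 : 1 ≤ s := le_trans (by norm_num) hsbig
  have hpw : ∀ n, n ≤ 30 → s ^ n ≤ k := fun n hn => (Nat.pow_le_pow_right hs1 hn).trans hk
  have hk0 : 0 < k := lt_of_lt_of_le (by positivity) (hpw 1 (by norm_num))
  have hnek : Nonempty (Fin k) := ⟨⟨0, hk0⟩⟩
  set hm' : V → Finset (Fin k) := fun v => mcol S c Mk v ∪ pop S c s v with hhm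
  set bad : V → Prop := fun a => hd S a < 4 * s * (Mk.filter fun i => a ∈ S i).card with hbd
  have hhmc : ∀ v, (hm' v).card ≤ (Mk.filter fun i => v ∈ S i).card * s + (pop S c s v).card :=
    fun v => (Finset.card_union_le _ _).trans (Nat.add_le_add_right (card_mcol S c hS Mk v) _)
  have h4s6 : 4 * s ^ 6 ≤ k := by
    calc 4 * s ^ 6 ≤ s * s ^ 6 := Nat.mul_le_mul_right _ (le_trans (by norm_num) hsbig)
      _ = s ^ 7 := by ring
      _ ≤ k := hpw 7 (by norm_num)
  have hpopq : ∀ v, 4 * (pop S c s v).card ≤ hd S v := by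
    intro v
    have h1 := card_pop S c hS v
    have h2 : (4 * (pop S c s v).card) * s ^ 6 ≤ hd S v * s ^ 6 := by
      calc (4 * (pop S c s v).card) * s ^ 6 = (pop S c s v).card * (4 * s ^ 6) := by ring
        _ ≤ (pop S c s v).card * k := Nat.mul_le_mul_left _ h4s6
        _ ≤ s ^ 6 * hd S v := h1
        _ = hd S v * s ^ 6 := by ring
    exact Nat.le_of_mul_le_mul_right h2 (by positivity)
  have hhd : ∀ v, hd S v ≤ k := fun v => by have := hbud v; omega
  have hpops : ∀ v, (pop S c s v).card ≤ s ^ 6 := by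
    intro v
    have h1 := card_pop S c hS v
    have h2 : (pop S c s v).card * k ≤ s ^ 6 * k :=
      h1.trans (Nat.mul_le_mul_left _ (hhd v))
    exact Nat.le_of_mul_le_mul_right h2 hk0
  obtain ⟨D, hDc, hDh, hDb⟩ := exists_data (G₀ := G₀) (G := G) hG c hc hm' bad (hd S) (by
    intro a ha
    have h1 : 4 * s * (Mk.filter fun i => a ∈ S i).card ≤ hd S a := by
      rw [hbd] at ha
      push Not at ha
      exact ha
    have h2 := hhmc a
    have h3 := hpopq a
    have h4 : 4 * s * (Mk.filter fun i => a ∈ S i).card =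
      4 * ((Mk.filter fun i => a ∈ S i).card * s) := by ring
    omega) hbud
  have hinv : ∀ u, 24 * (D.inv u).card ≤ k := by
    intro u
    have h1 : (D.inv u).card ≤ (hm' u).card + ((nb G Finset.univ u).filter fun a =>
        hd S a < 4 * s * (Mk.filter fun i => a ∈ S i).card).card := by
      unfold Data.inv
      rw [hDh]
      refine (Finset.card_union_le _ _).trans (Nat.add_le_add_left ?_ _)
      refine Finset.card_image_le.trans (Finset.card_le_card ?_)
      intro a ha
      obtain ⟨ha1, ha2⟩ := Finset.mem_filter.mp ha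
      rw [hDb] at ha2
      refine Finset.mem_filter.mpr ⟨?_, ha2⟩
      unfold nb
      exact Finset.mem_filter.mpr ⟨Finset.mem_univ _, by simpa using ha1⟩
    have h2 : s * (D.inv u).card ≤ 3 * k := by
      calc s * (D.inv u).card ≤ s * (((Mk.filter fun i => u ∈ S i).card * s + s ^ 6) +
            ((nb G Finset.univ u).filter fun a =>
              hd S a < 4 * s * (Mk.filter fun i => a ∈ S i).card).card) := by
            apply Nat.mul_le_mul_left
            refine h1.trans (Nat.add_le_add_right ?_ _)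
            exact (hhmc u).trans (Nat.add_le_add_left (hpops u) _)
        _ = s ^ 2 * (Mk.filter fun i => u ∈ S i).card + s ^ 7 + s *
            ((nb G Finset.univ u).filter fun a =>
              hd S a < 4 * s * (Mk.filter fun i => a ∈ S i).card).card := by ring
        _ ≤ k + k + k :=
            Nat.add_le_add (Nat.add_le_add (hM1 u) (hpw 7 (by norm_num))) (hM2 u)
        _ = 3 * k := by ring
    have h3' : 72 * (D.inv u).card ≤ s * (D.inv u).card :=
      Nat.mul_le_mul_right _ (le_trans (by norm_num) hsbig)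
    omega
  obtain ⟨c', h1, h2, h3'⟩ := D.main_aux S Mk (10 ^ 11) m s rfl hm hke
    (by rw [← hs]; simpa using hpw 1 (by norm_num)) hinv hs1 (hpw 3 (by norm_num)) hS h3 hhd
    (by
      intro v z hz
      rw [hDh] at hz
      rw [hDc]
      by_contra hcon
      push Not at hcon
      apply hz
      rw [hhm]
      exact Finset.mem_union_right _ (Finset.mem_filter.mpr ⟨Finset.mem_univ _, hcon⟩))
    hM1 (by rw [hDc]; exact hMk)
    (by
      intro i hi u hu v hv
      rw [hDh, hDc, hhm]
      apply Finset.mem_union_left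
      exact Finset.mem_biUnion.mpr ⟨i, Finset.mem_filter.mpr ⟨hi, hv⟩,
        Finset.mem_image_of_mem _ hu⟩)
    (by rw [hDc]; exact hUn)
  refine ⟨c', h1, h2, fun w hw => ?_⟩
  obtain ⟨κ, hκ⟩ := h3' w (by rw [← hs]; exact hw)
  refine ⟨κ, ?_⟩
  rw [← hκ]
  unfold Pool.Agent.Helper14.Pcf.cnt nb
  congr 1
  ext u
  simp

end Pool.Agent.Helper14.Pcg
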